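import Pool.Agent.Lib.MP_fc2a59_co.ALM.T.Stm
import Pool.Agent.Lib.MP_fc2a59_co.ALM.P.Stm

set_option autoImplicit false

/-!
# Project ALM, section C: short cycles in the uniform and in the planted model

Pieces: p_cyv, p_cyb, p_fib, p_dtc, p_und, p_ovl, p_ovc, p_fac, p_CM, p_Bn, p_Dn, p_Bp, p_cyQ, p_cyD,
p_Dq, p_ql, p_psp, p_psi, p_Dp.
-/

namespace Pool.Agent.ALM

open Finset Filter Topology
open scoped Classical

/-- EXPLICIT VALUES of `cyF`.

Proof.  `(v t, b t) = (v s, b s)` only for `s = t`, and `(v t, b t) ≠ (v s, a s)` always (`s = t` by injectivity,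
then `a t ≠ b t`), so the `choose` in the definition is `t`.  `nx` is bijective (`finRotate`), so the points
`(v (nx t), a (nx t))` are all the points `(v t, a t)`. -/
def S_cyv : Prop := ∀ (V : Type) (i : ℕ) (v : Fin i → V) (a b : Fin i → Fin 3),
  Function.Injective v → (∀ t, a t ≠ b t) →
  (∀ t, cyF v a b (v t, b t) = (v (nx t), a (nx t))) ∧
  (∀ t, cyF v a b (v (nx t), a (nx t)) = (v t, b t)) ∧
  (∀ x, (∀ t, x ≠ (v t, b t)) → (∀ t, x ≠ (v t, a t)) → cyF v a b x = x)

/-- BASIC FACTS.  Proof: by `S_cyv` the moved points are exactly the `2i` different points `(v t, a t)`,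
`(v t, b t)` (for `i = 1` the points `(v, a)`, `(v, b)` are exchanged); the touched vertices are the `v t`. -/
def S_cyb : Prop := ∀ (V : Type) [Fintype V] (i : ℕ) (F : Pt V → Pt V), 1 ≤ i → F ∈ cyc V i →
  Inv F ∧ mv F = 2 * i ∧ (tch F).card = i ∧
  ∀ v ∈ tch F, (univ.filter fun j : Fin 3 => F (v, j) ≠ (v, j)).card = 2

/-- EVERY CYCLE HAS `2i` DESCRIPTIONS.

Proof.  Let `F = cyF v0 a0 b0`.  A description `(v, a, b)` of `F` is determined by its starting point
`x0 = (v 0, b 0)`, a moved point of `F`: `(v (nx t), a (nx t)) = F (v t, b t)`, and `b t` resp. `a t` is the other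
moved point at the vertex `v t` (exactly two points are moved there, `S_cyb`).  Every moved point is the
starting point of a description: `(v0 s, b0 s)` of the rotated one `t ↦ v0 (s + t), ..`, and `(v0 s, a0 s)` of
the reversed one `v t = v0 (s - t)`, `b t = a0 (s - t)`, `a t = b0 (s - t)`.  There are `2i` moved points. -/
def S_fib : Prop := ∀ (V : Type) [Fintype V] (i : ℕ) (F : Pt V → Pt V), 1 ≤ i → F ∈ cyc V i →
  (univ.filter fun d : (Fin i → V) × (Fin i → Fin 3) × (Fin i → Fin 3) =>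
    Function.Injective d.1 ∧ (∀ t, d.2.1 t ≠ d.2.2 t) ∧ F = cyF d.1 d.2.1 d.2.2).card = 2 * i

/-- tuples of cycles with given lengths, pairwise disjoint -/
noncomputable def dtu (V : Type) [Fintype V] {r : ℕ} (l : Fin r → ℕ) : Finset (Fin r → Pt V → Pt V) :=
  univ.filter fun F => (∀ t, F t ∈ cyc V (l t)) ∧ ∀ s t, s ≠ t → Disjoint (tch (F s)) (tch (F t))

/-- tuples of pairwise different cycles with given lengths, not pairwise disjoint -/
noncomputable def otu (V : Type) [Fintype V] {r : ℕ} (l : Fin r → ℕ) : Finset (Fin r → Pt V → Pt V) :=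
  univ.filter fun F => (∀ t, F t ∈ cyc V (l t)) ∧ Function.Injective F ∧
    ¬ ∀ s t, s ≠ t → Disjoint (tch (F s)) (tch (F t))

/-- NUMBER OF DISJOINT TUPLES.

Proof.  Count the data `(v, a, b)`, `v : (Σ t, Fin (l t)) → V` injective, `a, b` with `a p ≠ b p`: there are
`|V|.descFactorial L * 6^L`, `L = ∑ l t`.  The map to the tuples `F t = cyF (v (t,·)) (a (t,·)) (b (t,·))` is onto
`dtu` (disjointness of the touched sets = injectivity of `v`), and every fibre has `∏ (2 l t)` elements by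
`S_fib`. -/
def S_dtc : Prop := ∀ (V : Type) [Fintype V] (r : ℕ) (l : Fin r → ℕ), (∀ t, 1 ≤ l t) →
  (dtu V l).card * ∏ t, (2 * l t) = (Fintype.card V).descFactorial (∑ t, l t) * 6 ^ (∑ t, l t)

/-- the union of a tuple of partial pairings -/
noncomputable def un {V : Type} {r : ℕ} (F : Fin r → Pt V → Pt V) (x : Pt V) : Pt V :=
  if h : ∃ t, F t x ≠ x then F h.choose x else x

/-- THE UNION OF A DISJOINT TUPLE.  Proof: a point moved by `F t` has its vertex in `tch (F t)`, and `F t` maps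
it to a point whose vertex is also in `tch (F t)`; the touched sets are disjoint, so at most one `F t` moves a
given point.  `mv (un F) = ∑ mv (F t) = 2 ∑ l t`. -/
def S_und : Prop := ∀ (V : Type) [Fintype V] (r : ℕ) (l : Fin r → ℕ) (F : Fin r → Pt V → Pt V),
  (∀ t, 1 ≤ l t) → F ∈ dtu V l →
  Inv (un F) ∧ mv (un F) = 2 * ∑ t, l t ∧ (∀ t x, F t x ≠ x → un F x = F t x) ∧
  (∀ x, (∀ t, F t x = x) → un F x = x) ∧ (∀ σ : Pt V → Pt V, Sub (un F) σ ↔ ∀ t, Sub (F t) σ)

/-- OVERLAPPING CYCLES have more pairs than vertices.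

Proof.  `σ` contains all `F t`, so if `F t x ≠ x` and `F s x ≠ x` then `F t x = σ x = F s x`: `un F x = σ x` for
every point moved by some `F t`, `un F x = x` for the others, and `un F` is an involution (the set of moved
points of `F t` is invariant).  `Sub (un F) τ` for every `τ` containing all `F t` is clear.  Its moved points
are the union of those of the `F t`, an even number `2f ≤ ∑ 2 l t`.  Let `U` be the union of the touched sets.
Every vertex of `U` has at least 2 moved points.  CLAIM: some vertex of `U` has 3 moved points.  Then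
`2f ≥ 2|U| + 1`, so `f ≥ |U| + 1`.  Proof of the claim: choose `s ≠ t` with a common touched vertex, and
suppose every vertex of `U` has exactly 2 moved points.  At a common vertex of `F s` and `F t` both move 2
points, the same ones; the partners under `σ` are in both; going around the cycle (`F s = cyF v a b`,
induction along `nx`: if `v p` is touched by `F t` then `(v p, b p)` is moved by `F t`, to
`(v (nx p), a (nx p))`, so `v (nx p)` is touched by `F t`) all vertices of `F s` are touched by `F t` and all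
points moved by `F s` are moved by `F t`, with the same values; by symmetry `F s = F t`, contradiction to
injectivity. -/
def S_ovl : Prop := ∀ (V : Type) [Fintype V] (r : ℕ) (l : Fin r → ℕ) (F : Fin r → Pt V → Pt V)
  (σ : Pt V → Pt V), (∀ t, 1 ≤ l t) → F ∈ otu V l → IsPr σ → (∀ t, Sub (F t) σ) →
  Inv (un F) ∧ (∀ τ : Pt V → Pt V, (∀ t, Sub (F t) τ) → Sub (un F) τ) ∧
  ∃ f : ℕ, mv (un F) = 2 * f ∧ f ≤ ∑ t, l t ∧ (univ.biUnion fun t => tch (F t)).card + 1 ≤ f

/-- NUMBER OF OVERLAPPING TUPLES on `k` vertices.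

Proof.  `F` is determined by data `v : (Σ t, Fin (l t)) → V`, `a, b`; the image of `v` has `k` elements.  The
number of functions from a set of size `L` to `V` with image of size `k` is at most
`C(|V|,k) k^L ≤ |V|^k L^L` (`k ≤ L`, otherwise none), and there are `9^L` pairs `(a, b)`. -/
def S_ovc : Prop := ∀ (r : ℕ) (l : Fin r → ℕ), (∀ t, 1 ≤ l t) → ∃ C : ℕ, ∀ (V : Type) [Fintype V] (k : ℕ),
  ((otu V l).filter fun F => (univ.biUnion fun t => tch (F t)).card = k).card ≤ C * Fintype.card V ^ k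

/-- FACTORIAL MOMENTS AND TUPLES.

Proof.  `r = ∑ j i`, and `l` takes the value `i + 1` exactly `j i` times (`Fin r ≃ Σ i, Fin (j i)`).
`∏ (X (i+1) σ).descFactorial (j i)` is the number of tuples `F : Fin r → _`, `F t ∈ cyc V (l t)`, `Sub (F t) σ`,
injective on every set `{t | l t = i + 1}` (`Fintype.card_embedding_eq`), which is the same as injective,
because cycles of different lengths are different (`mv F = 2 * length`, `S_cyb`).  Split into disjoint
(automatically injective, the touched sets are not empty) and not disjoint. -/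
def S_fac : Prop := ∀ (k : ℕ) (j : Fin k → ℕ), ∃ (r : ℕ) (l : Fin r → ℕ),
  (∀ t, 1 ≤ l t) ∧ (∀ θ : ℕ → ℝ, ∏ t, θ (l t) = ∏ i : Fin k, θ (i + 1) ^ j i) ∧
  ∀ (V : Type) [Fintype V] (σ : Pt V → Pt V), IsPr σ →
    ∏ i : Fin k, (X (i + 1) σ).descFactorial (j i) =
      ((dtu V l).filter fun F => ∀ t, Sub (F t) σ).card +
        ((otu V l).filter fun F => ∀ t, Sub (F t) σ).card

/-- boundedness of a model -/
def WB (w : ∀ m, (Pt (Fin (2 * m)) → Pt (Fin (2 * m))) → ℝ) : Prop :=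
  (∀ m σ, 0 ≤ w m σ) ∧ (∀ m σ, ¬ IsPr σ → w m σ = 0) ∧
  ∀ f : ℕ, ∃ C : ℝ, ∀ m : ℕ, f ≤ m → 1 ≤ m → ∀ F : Pt (Fin (2 * m)) → Pt (Fin (2 * m)),
    Inv F → mv F = 2 * f → ∑ σ ∈ univ.filter (fun σ => Sub F σ), w m σ ≤ C / (m : ℝ) ^ f

/-- disjoint cycles in a model -/
def WD (w : ∀ m, (Pt (Fin (2 * m)) → Pt (Fin (2 * m))) → ℝ) (θ : ℕ → ℝ) : Prop :=
  ∀ (r : ℕ) (l : Fin r → ℕ), (∀ t, 1 ≤ l t) → ∃ q : ℕ → ℝ,
    (∀ᶠ m in atTop, ∀ F ∈ dtu (Fin (2 * m)) l,
      ∑ σ ∈ univ.filter (fun σ => ∀ t, Sub (F t) σ), w m σ = q m) ∧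
    Tendsto (fun m : ℕ => (12 * (m : ℝ)) ^ (∑ t, l t) * q m) atTop (𝓝 (∏ t, (2 * l t * θ (l t))))

/-- type of functions on the points of `2m` vertices -/
abbrev Om (m : ℕ) : Type := Pt (Fin (2 * m)) → Pt (Fin (2 * m))

/-- CONVERGENCE OF FACTORIAL MOMENTS.

Proof.  Given `k, j`, take `r, l` of `S_fac`, `L = ∑ l t`.  The moment is `∑_σ w (..)`, only pairings `σ` count,
and by `S_fac` it is `∑_{F ∈ dtu} ∑_{σ : ∀ t, Sub (F t) σ} w m σ + ∑_{F ∈ otu} ∑_{..} w m σ`.  First part: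
`|dtu| q m = (2m).descFactorial L 6^L/∏(2 l t) * q m` (`S_dtc`), and `(2m).descFactorial L/(2m)^L → 1`, so the
limit is `∏(2 l t θ (l t))/∏(2 l t) = ∏ θ (l t)`.  Second part: for `F ∈ otu` with at least one pairing `σ`
containing it use `S_ovl` (`f ≥ |U| + 1`, `f ≤ L ≤ m`) and the bound `C_f/m^f ≤ C/m^(|U|+1)` (maximum of the
constants over `f ≤ L`); by `S_ovc` the number of `F` with `|U| = k` is `≤ C' (2m)^k`; sum over
`k ≤ L`: `O(1/m)`. -/
def S_CM : Prop := ∀ (w : ∀ m, (Pt (Fin (2 * m)) → Pt (Fin (2 * m))) → ℝ) (θ : ℕ → ℝ),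
  WB w → WD w θ → MO Om w (fun _ i σ => X i σ) θ

/-- UNIFORM MODEL, BOUND.  Proof: `S_prF`: the sum is `II (3m-f)/II (3m) = ∏_{i<f} 1/(6m-2i-1) ≤ 1/m^f` for
`f ≤ m` (`II (3m) = II (3m-f) ∏_{i<f} (6m-2i-1)`). -/
def S_Bn : Prop := WB wn

/-- UNIFORM MODEL, DISJOINT CYCLES.  Proof: `S_und`, `S_prF`: `q m = II (3m-L)/II (3m)`,
`(12 m)^L q m = ∏_{i<L} 12m/(6m-2i-1) → 2^L = ∏ 2^(l t)`, and `2 i lam i = 2^i`. -/
def S_Dn : Prop := WD wn lam

/-- PLANTED MODEL, BOUND.

Proof.  `∑_{σ ⊇ F} wp m σ = (1/N1 m) ∑_A #{σ ∈ prs | Sub F σ ∧ Jp σ A}`; only `|A| = |Aᶜ| = m` count (`S_Jc`),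
`C(2m,m)` sets.  `S_L3` (`mv F = 2f ≤ 2m`): the number is `0` or
`∏ DK ∏ DK (2m-f_A-x)! (2m-f_B-x)!/(m+2-x)!`, `f = f_A + f_B + x`.  A component with `k` vertices has
`DK ≤ 3k ≤ 3^k`, so `∏ DK ∏ DK ≤ 3^m 3^m`.  Divide by `N1 m = C(2m,m) 9^m (2m)!^2/(m+2)!`: the sum is at most
the maximum of `(2m-f_A-x)! (2m-f_B-x)! (m+2)!/((2m)!^2 (m+2-x)!)
≤ (m+2)^x/(m^(f_A+x) m^(f_B+x)) ≤ 3^x/m^f` (`(2m)!/(2m-j)! ≥ (2m-j+1)^j ≥ m^j` for `j ≤ m`). -/
def S_Bp : Prop := WB wp

/-! ### planted model: disjoint cycles -/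

/-- index set of the vertices of the cycles -/
abbrev Ix {r : ℕ} (l : Fin r → ℕ) : Type := Σ t : Fin r, Fin (l t)

/-- successor on the cycles -/
def nxs {r : ℕ} {l : Fin r → ℕ} (p : Ix l) : Ix l := ⟨p.1, nx p.2⟩

/-- a colouring is monochromatic on some cycle -/
def mono {r : ℕ} {l : Fin r → ℕ} (χ : Ix l → Bool) : Prop :=
  ∃ t, ∀ s s' : Fin (l t), χ ⟨t, s⟩ = χ ⟨t, s'⟩

/-- the runs -/
def rn {r : ℕ} {l : Fin r → ℕ} (χ : Ix l → Bool) (p q : Ix l) : Prop := q = nxs p ∧ χ p = χ q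

noncomputable instance instFintypeRn {r : ℕ} {l : Fin r → ℕ} (χ : Ix l → Bool) :
    Fintype (Quot (rn χ)) := Fintype.ofFinite _

/-- product of the sizes of the runs -/
noncomputable def wt {r : ℕ} {l : Fin r → ℕ} (χ : Ix l → Bool) : ℕ :=
  ∏ K : Quot (rn χ), (univ.filter fun p => (Quot.mk (rn χ) p) = K).card

/-- number of colour changes -/
def ch {r : ℕ} {l : Fin r → ℕ} (χ : Ix l → Bool) : ℕ := (univ.filter fun p => χ p ≠ χ (nxs p)).card

/-- number of `p` with `χ p = χ (nxs p) = c` -/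
def sm {r : ℕ} {l : Fin r → ℕ} (χ : Ix l → Bool) (c : Bool) : ℕ :=
  (univ.filter fun p => χ p = c ∧ χ (nxs p) = c).card

/-- number of `p` of colour `c` -/
def cc {r : ℕ} {l : Fin r → ℕ} (χ : Ix l → Bool) (c : Bool) : ℕ := (univ.filter fun p => χ p = c).card

/-- number of the `σ` containing the cycles `F` for which `A` is good -/
noncomputable def cnt {V : Type} [Fintype V] {r : ℕ} (F : Fin r → Pt V → Pt V) (A : Finset V) : ℕ :=
  ((prs (Pt V)).filter fun σ => (∀ t, Sub (F t) σ) ∧ Jp σ A).card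

/-- COMPONENTS FOR DISJOINT CYCLES (one side `A`, colour `c`; use it for `A`, `true` and `Aᶜ`, `false`).

Proof.  Choose for every `t` a description of `F t` (`cyc`), which gives `v, a, b` on `Ix l`, `v` injective
because of disjointness.  `U = un F` has the pairs `(v p, b p) -- (v (nxs p), a (nxs p))` (`S_cyv`, `S_und`), each
vertex `v p` has exactly one free point, vertices outside the range of `v` have three.  A pair is inside `A`
iff `χ p = χ (nxs p) = c`, it leaves `A` iff `χ p ≠ χ (nxs p)` (one of its two points is in `A`).  So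
`fI U A = 2 sm χ c` (two points per pair; different `p` give different pairs) and `fX U A = ch χ`.
Components of `A` under `rs U`: single vertices `u ∈ A` not in the range of `v`, and for the others the class
of `v p` depends only on the class of `p` under `rn χ`, with `rn χ p q` (`q = nxs p`, same colour) iff `v p`,
`v q` are linked.  Number of free points: 3 for the first, the number of `p` in the class for the others.
`For`: the number of components is `(m - cc χ c) + #{classes of colour c}`, and `mv = 2 sm χ c`; a class of colour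
`c` inside a cycle which is not monochromatic is an arc, with one link less than elements; in a
monochromatic cycle of colour `c` the whole cycle is one class with as many links as elements.  So
`sm χ c + #classes ≥ cc χ c`, with equality iff no cycle is monochromatic of colour `c`. -/
def S_cyQ : Prop := ∀ (V : Type) [Fintype V] (r : ℕ) (l : Fin r → ℕ), (∀ t, 1 ≤ l t) →
  ∀ F ∈ dtu V l, ∃ v : Ix l → V, Function.Injective v ∧
  ∀ (A : Finset V) (χ : Ix l → Bool) (c : Bool), (∀ p, χ p = c ↔ v p ∈ A) →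
    fI (un F) A = 2 * sm χ c ∧ fX (un F) A = ch χ ∧
    (For (bl Prod.fst A) (rs (fun x : Pt V => x.1 ∈ A) (un F)) ↔
      ¬ ∃ t, ∀ s : Fin (l t), χ ⟨t, s⟩ = c) ∧
    ∏ K, DK (un F) A K = 3 ^ (A.card - cc χ c) *
      ∏ K ∈ univ.filter (fun K : Quot (rn χ) => χ (Quot.out K) = c),
        (univ.filter fun p => (Quot.mk (rn χ) p) = K).card

/-- NUMBER OF PAIRINGS, disjoint cycles and given colouring.

Proof.  `S_und`: `∀ t, Sub (F t) σ` iff `Sub (un F) σ`; `S_L3` for `un F` (`mv = 2 ∑ l t ≤ 2m`); the values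
`fI, fX, DK` and the forest condition from `S_cyQ` for `(A, true)` and `(Aᶜ, false)`; the product of the two
products over the classes is `wt χ` (`χ` is constant on classes), `3^(m - cc true) 3^(m - cc false) =
3^(2m - ∑ l t)`; `mono χ` iff some cycle is monochromatic of colour `true` or `false` (`l t ≥ 1`). -/
def S_cyD : Prop := ∀ (V : Type) [Fintype V] (m r : ℕ) (l : Fin r → ℕ), (∀ t, 1 ≤ l t) →
  ∑ t, l t ≤ m → 0 < m → Fintype.card V = 2 * m → ∀ F ∈ dtu V l, ∃ v : Ix l → V, Function.Injective v ∧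
  ∀ A : Finset V, A.card = m → ∀ χ : Ix l → Bool, (∀ p, χ p = true ↔ v p ∈ A) →
    (mono χ → cnt F A = 0) ∧
    (¬ mono χ → cnt F A * (m + 2 - ch χ).factorial =
      3 ^ (2 * m - ∑ t, l t) * wt χ *
        ((2 * m - sm χ true - ch χ).factorial * (2 * m - sm χ false - ch χ).factorial))

/-- the value of the probability -/
noncomputable def qp {r : ℕ} (l : Fin r → ℕ) (m : ℕ) : ℝ :=
  (∑ χ ∈ univ.filter (fun χ : Ix l → Bool => ¬ mono χ),
    ((2 * m - ∑ t, l t).choose (m - cc χ true) : ℝ) * 3 ^ (2 * m - ∑ t, l t) * (wt χ : ℝ) *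
      ((2 * m - sm χ true - ch χ).factorial : ℝ) * ((2 * m - sm χ false - ch χ).factorial : ℝ) /
      ((m + 2 - ch χ).factorial : ℝ)) / N1 m

/-- THE PROBABILITY.

Proof.  For `m ≥ ∑ l t`, `m ≥ 1`: `∑_{σ} wp m σ = (1/N1 m) ∑_A cnt F A`, only `|A| = m` counts (`S_Jc`).  Group the
sets `A` by the colouring `χ p = decide (v p ∈ A)`: the number of `A` with `|A| = m` and given trace on the
range of `v` (size `∑ l t`) is `C(2m - ∑ l t, m - cc χ true)`.  Insert `S_cyD`. -/
def S_Dq : Prop := ∀ (r : ℕ) (l : Fin r → ℕ), (∀ t, 1 ≤ l t) →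
  ∀ᶠ m in atTop, ∀ F ∈ dtu (Fin (2 * m)) l,
    ∑ σ ∈ univ.filter (fun σ => ∀ t, Sub (F t) σ), wp m σ = qp l m

/-- THE LIMIT.

Proof.  Finite sum over `χ`; for each `χ` let `L = ∑ l t`, `c = cc χ true`, `s1, s2 = sm χ true, sm χ false`,
`h = ch χ`; `s1 + s2 + h = L` (every `p` is of exactly one kind).  With
`N1 m = C(2m,m) 9^m (2m)!^2/(m+2)!` the term is `wt χ` times
`[C(2m-L,m-c)/C(2m,m)] 3^(-L) [(2m-s1-h)!/(2m)!] [(2m-s2-h)!/(2m)!] [(m+2)!/(m+2-h)!] (12m)^L`, and
`C(2m-L,m-c)/C(2m,m) → 2^(-L)` (quotient of descending factorials), `(2m)^(s+h) (2m-s-h)!/(2m)! → 1`,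
`m^(-h) (m+2)!/(m+2-h)! → 1`.  Total: `2^(-L) 3^(-L) (12m)^L (2m)^(-s1-s2-2h) m^h → 2^(-h)`. -/
def S_ql : Prop := ∀ (r : ℕ) (l : Fin r → ℕ), (∀ t, 1 ≤ l t) →
  Tendsto (fun m : ℕ => (12 * (m : ℝ)) ^ (∑ t, l t) * qp l m) atTop
    (𝓝 (∑ χ ∈ univ.filter (fun χ : Ix l → Bool => ¬ mono χ), (wt χ : ℝ) * (1 / 2) ^ ch χ))

/-- one cycle -/
noncomputable def psi (i : ℕ) : ℝ :=
  ∑ χ ∈ univ.filter (fun χ : Ix (fun _ : Fin 1 => i) → Bool => ¬ mono χ), (wt χ : ℝ) * (1 / 2) ^ ch χ

/-- MULTIPLICATIVITY.  Proof: a colouring `χ` of `Ix l` is a family of colourings `χ_t` of the single cycles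
(`Ix (fun _ : Fin 1 => l t) ≃ Fin (l t)`); `mono χ ↔ ∃ t, mono χ_t`, `Quot (rn χ) ≃ Σ t, Quot (rn χ_t)`, so
`wt χ = ∏ wt χ_t`, `ch χ = ∑ ch χ_t`.  `∑ ∏ = ∏ ∑` (`Finset.prod_univ_sum`).  Maybe convenient: induction on
`r` or a general lemma for disjoint unions. -/
def S_psp : Prop := ∀ (r : ℕ) (l : Fin r → ℕ), (∀ t, 1 ≤ l t) →
  (∑ χ ∈ univ.filter (fun χ : Ix l → Bool => ¬ mono χ), (wt χ : ℝ) * (1 / 2) ^ ch χ) = ∏ t, psi (l t)

/-- THE VALUE FOR ONE CYCLE.

Proof (transfer matrix).  `wt χ` is the number of ways to mark one element in every run.  Describe `χ` with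
its marks by a state for every `p`: (colour, position), position `0` = before the mark of its run, `1` = the
mark, `2` = after the mark.  Consecutive states (from `p` to `nx p`): same colour `0→0, 0→1, 1→2, 2→2` with
weight 1; different colours: from `1` or `2` to `0` or `1` with weight `1/2`; nothing else.  The closed
sequences of states (product of the weights along `p → nx p`, all `p`) with a non-constant colour
correspond to the marked non-monochromatic `χ` with weight `(1/2)^(ch χ)`; with constant colour only the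
four constant sequences (colour, 0), (colour, 2) are possible (from `0` one cannot come back after
leaving it, state `1` cannot be repeated).  So `psi i = tr (M^i) - 4`, `M = [[P, R], [R, P]]` with
`P = [[1,1,0],[0,0,1],[0,0,1]]`, `R = [[0,0,0],[1/2,1/2,0],[1/2,1/2,0]]`.  Conjugation with
`[[1,1],[1,-1]]` gives `tr (M^i) = tr ((P+R)^i) + tr ((P-R)^i)`;
`S = P + R = [[1,1,0],[1/2,1/2,1],[1/2,1/2,1]]` satisfies `S^3 = (5/2) S^2 - S`, `tr S = 5/2`, `tr S^2 = 17/4`, so
`tr S^i = 2^i + 2^(-i)` for `i ≥ 1`; `D = P - R = [[1,1,0],[-1/2,-1/2,1],[-1/2,-1/2,1]]` satisfies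
`D^3 = (3/2) D^2 - D`, `tr D = 3/2`, `tr D^2 = 1/4`, so `tr D^i = sq i` for `i ≥ 1`.
(Checks: `psi 1 = 0`, `psi 2 = 1/2`, `psi 3 = 3`.)  The sum over closed sequences `Fin i → states` of
`∏_p M (s p) (s (nx p))` equals `tr (M^i)`: induction on the number of steps for paths, then close up. -/
def S_psi : Prop := ∀ i : ℕ, 1 ≤ i → psi i = 2 ^ i + (1 / 2) ^ i + sq i - 4

/-- PLANTED MODEL, DISJOINT CYCLES.  Proof: `q = qp l`; `S_Dq`, `S_ql`, `S_psp`, `S_psi`, and
`psi i = 2 i mu i`. -/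
def S_Dp : Prop := WD wp mu

end Pool.Agent.ALM
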