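import Pool.Agent.Lib.MP_fc2a59_co.ALM.C.Stm

set_option autoImplicit false

namespace Pool.Agent.ALM

open Finset
open scoped Classical

namespace BnX

lemma II_pos (k : ℕ) : 0 < II k := by
  unfold II
  exact Finset.prod_pos fun i _ => by omega

lemma II_add (k f : ℕ) : II (k + f) = II k * ∏ i ∈ range f, (2 * (k + i) + 1) := by
  unfold II
  rw [Finset.prod_range_add]

lemma card_Pt (m : ℕ) : Fintype.card (Pt (Fin (2 * m))) = 2 * (3 * m) := by
  simp [Pt]; ring

lemma wn_nonneg (m : ℕ) (σ : Pt (Fin (2 * m)) → Pt (Fin (2 * m))) : 0 ≤ wn m σ := by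
  unfold wn MM
  split_ifs
  · positivity
  · exact le_refl _

/-- the sum of the weights over the pairings with a property -/
lemma sum_wn (m : ℕ) (P : Om m → Prop) :
    ∑ σ ∈ univ.filter (fun σ : Om m => P σ), wn m σ =
      (((prs (Pt (Fin (2 * m)))).filter fun σ => P σ).card : ℝ) / MM m := by
  have h1 : (prs (Pt (Fin (2 * m)))).filter (fun σ => P σ) =
      (univ.filter (fun σ : Om m => P σ)).filter (fun σ => IsPr σ) := by
    ext σ
    simp [prs, and_comm]
  rw [h1, Finset.card_filter]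
  push_cast
  rw [Finset.sum_div]
  refine Finset.sum_congr rfl fun σ _ => ?_
  unfold wn
  split_ifs <;> simp

lemma sum_sub (h2 : S_prF) (m f : ℕ) (F : Om m) (hF : Inv F) (hm : mv F = 2 * f) :
    ∑ σ ∈ univ.filter (fun σ : Om m => Sub F σ), wn m σ = (II (3 * m - f) : ℝ) / (II (3 * m) : ℝ) := by
  rw [sum_wn, h2 (Pt (Fin (2 * m))) (3 * m) f F (card_Pt m) hF hm]
  rfl

lemma ratio_eq (m f : ℕ) (hf : f ≤ 3 * m) :
    (II (3 * m - f) : ℝ) / (II (3 * m) : ℝ) =
      1 / ∏ i ∈ range f, (2 * ((3 * m - f : ℕ) + (i : ℝ)) + 1) := by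
  obtain ⟨k, hk⟩ : ∃ k, 3 * m = k + f := ⟨3 * m - f, by omega⟩
  have h1 : 3 * m - f = k := by omega
  rw [h1, hk, II_add]
  push_cast
  have hk0 : (II k : ℝ) ≠ 0 := by exact_mod_cast (II_pos k).ne'
  rw [div_mul_eq_div_div, div_self hk0]

lemma tendsto_factor (L i : ℕ) (_hi : i < L) :
    Filter.Tendsto (fun m : ℕ => 12 * (m : ℝ) / (2 * ((3 * m - L : ℕ) + (i : ℝ)) + 1)) Filter.atTop
      (nhds 2) := by
  have h1 : Filter.Tendsto (fun m : ℕ => (1 : ℝ) / (m : ℝ)) Filter.atTop (nhds 0) :=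
    tendsto_one_div_atTop_nhds_zero_nat
  have h2 : Filter.Tendsto (fun m : ℕ => 12 / (6 + (2 * (i : ℝ) - 2 * L + 1) * ((1 : ℝ) / (m : ℝ))))
      Filter.atTop (nhds (12 / (6 + (2 * (i : ℝ) - 2 * L + 1) * 0))) := by
    refine Filter.Tendsto.div tendsto_const_nhds (tendsto_const_nhds.add (tendsto_const_nhds.mul h1)) ?_
    norm_num
  have h3 : (12 : ℝ) / (6 + (2 * (i : ℝ) - 2 * L + 1) * 0) = 2 := by norm_num
  rw [h3] at h2
  refine h2.congr' ?_
  filter_upwards [Filter.eventually_ge_atTop (L + 1)] with m hm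
  have hm0 : (m : ℝ) ≠ 0 := by
    have : (0 : ℝ) < m := by exact_mod_cast (by omega : 0 < m)
    exact this.ne'
  have hc : ((3 * m - L : ℕ) : ℝ) = 3 * m - L := by
    rw [Nat.cast_sub (by omega)]; push_cast; ring
  rw [hc]
  have hpos : (2 * ((3 * (m : ℝ) - L) + (i : ℝ)) + 1) ≠ 0 := by
    have h4 : (L : ℝ) + 1 ≤ m := by exact_mod_cast hm
    have h5 : (0 : ℝ) ≤ i := by positivity
    have h6 : (0 : ℝ) ≤ L := by positivity
    nlinarith
  have e : 6 + (2 * (i : ℝ) - 2 * L + 1) * (1 / (m : ℝ)) = (2 * ((3 * (m : ℝ) - L) + (i : ℝ)) + 1) / m := by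
    field_simp
    ring
  rw [e, div_div_eq_mul_div]

end BnX

open BnX in
theorem p_Bn (h1 : S_pr) (h2 : S_prF) : S_Bn := by
  refine ⟨wn_nonneg, fun m σ h => by unfold wn; rw [if_neg h], fun f => ⟨1, ?_⟩⟩
  intro m hfm hm F hF hmv
  rw [sum_sub h2 m f F hF hmv, ratio_eq m f (by omega)]
  have hm0 : (0 : ℝ) < m := by exact_mod_cast (by omega : 0 < m)
  refine one_div_le_one_div_of_le (by positivity) ?_
  have h3 : ∏ _i ∈ range f, (m : ℝ) ≤ ∏ i ∈ range f, (2 * ((3 * m - f : ℕ) + (i : ℝ)) + 1) := by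
    refine Finset.prod_le_prod (fun _ _ => hm0.le) fun i _ => ?_
    have hc : ((3 * m - f : ℕ) : ℝ) = 3 * m - f := by
      rw [Nat.cast_sub (by omega)]; push_cast; ring
    rw [hc]
    have h4 : (f : ℝ) ≤ m := by exact_mod_cast hfm
    have h5 : (0 : ℝ) ≤ i := by positivity
    linarith
  simpa using h3

open BnX in
theorem p_Dn (h1 : S_und) (h2 : S_pr) (h3 : S_prF) : S_Dn := by
  intro r l hl
  set L := ∑ t, l t with hL
  refine ⟨fun m => (II (3 * m - L) : ℝ) / (II (3 * m) : ℝ), Filter.Eventually.of_forall ?_, ?_⟩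
  · intro m F hF
    obtain ⟨a1, a2, _, _, a5⟩ := h1 (Fin (2 * m)) r l F hl hF
    have : (univ.filter fun σ : Om m => ∀ t, Sub (F t) σ) = univ.filter fun σ : Om m => Sub (un F) σ := by
      ext σ
      simp only [mem_filter, mem_univ, true_and]
      exact (a5 σ).symm
    rw [this]
    exact sum_sub h3 m L (un F) a1 a2
  · have hprod : ∏ t, (2 * (l t : ℝ) * lam (l t)) = ∏ _i ∈ range L, (2 : ℝ) := by
      rw [Finset.prod_const, Finset.card_range, hL, ← Finset.prod_pow_eq_pow_sum]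
      refine Finset.prod_congr rfl fun t _ => ?_
      unfold lam
      have : (l t : ℝ) ≠ 0 := by
        have := hl t
        have h0 : (0 : ℝ) < l t := by exact_mod_cast (by omega : 0 < l t)
        exact h0.ne'
      field_simp
    rw [hprod]
    have ht : Filter.Tendsto (fun m : ℕ => ∏ i ∈ range L,
        (12 * (m : ℝ) / (2 * ((3 * m - L : ℕ) + (i : ℝ)) + 1))) Filter.atTop
        (nhds (∏ _i ∈ range L, (2 : ℝ))) :=
      tendsto_finset_prod _ fun i hi => tendsto_factor L i (mem_range.1 hi)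
    refine ht.congr' ?_
    filter_upwards [Filter.eventually_ge_atTop L] with m hm
    rw [ratio_eq m L (by omega), Finset.prod_div_distrib, Finset.prod_const, Finset.card_range]
    ring

end Pool.Agent.ALM
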