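import Pool.Agent.Lib.MP_fc2a59_co.ALM.C.Stm

set_option autoImplicit false

namespace Pool.Agent.ALM

open Finset
open scoped Classical

namespace BpX

theorem fc {X : Type} [Fintype X] (p : X → Prop) [DecidablePred p] :
    (univ.filter p).card = {x | p x}.ncard := by
  rw [← Set.ncard_coe_finset]
  congr 1
  ext x
  simp

theorem mv_fc {X : Type} [Fintype X] (ρ : X → X) : mv ρ = {x | ρ x ≠ x}.ncard := fc _

/-- the moved points of a restriction -/
theorem mv_rs {X : Type} [Fintype X] (P : X → Prop) [Fintype {x // P x}] (σ : X → X) :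
    mv (rs P σ) = {x | P x ∧ P (σ x) ∧ σ x ≠ x}.ncard := by
  rw [mv_fc, ← Set.ncard_image_of_injective _ Subtype.val_injective]
  congr 1
  ext x
  constructor
  · rintro ⟨y, hy, rfl⟩
    have h : rs P σ y ≠ y := hy
    rw [rs] at h
    split_ifs at h with h1
    · exact ⟨y.2, h1, fun h2 => h (Subtype.ext h2)⟩
    · exact absurd rfl h
  · rintro ⟨h1, h2, h3⟩
    refine ⟨⟨x, h1⟩, ?_, rfl⟩
    change rs P σ ⟨x, h1⟩ ≠ ⟨x, h1⟩
    rw [rs, dif_pos h2]
    exact fun h => h3 (congrArg Subtype.val h)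

/-- an involution moves an even number of points -/
theorem even_mv {X : Type} [Fintype X] (ρ : X → X) (h : Inv ρ) : 2 ∣ mv ρ := by
  have h1 : Function.Involutive ρ := h
  have h2 := Equiv.Perm.two_dvd_card_support (σ := h1.toPerm) (by
    ext x
    simp [pow_two, h x])
  have h3 : (h1.toPerm.support).card = mv ρ := by
    rw [mv]
    congr 1
  rwa [h3] at h2

theorem inv_rs {X : Type} (P : X → Prop) (σ : X → X) (h : Inv σ) : Inv (rs P σ) := by
  intro x
  by_cases h1 : P (σ x.1)
  · have h2 : rs P σ x = ⟨σ x.1, h1⟩ := by rw [rs, dif_pos h1]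
    rw [h2, rs, dif_pos (by rw [h x.1]; exact x.2)]
    exact Subtype.ext (h x.1)
  · have h2 : rs P σ x = x := by rw [rs, dif_neg h1]
    rw [h2, h2]

/-- the pairs inside, outside and between -/
theorem split {V : Type} [Fintype V] (F : Pt V → Pt V) (A : Finset V) (hF : Inv F) :
    mv F = fI F A + fI F Aᶜ + 2 * fX F A := by
  have e1 : fI F A = {x : Pt V | x.1 ∈ A ∧ (F x).1 ∈ A ∧ F x ≠ x}.ncard :=
    mv_rs (fun x : Pt V => x.1 ∈ A) F
  have e2 : fI F Aᶜ = {x : Pt V | x.1 ∈ Aᶜ ∧ (F x).1 ∈ Aᶜ ∧ F x ≠ x}.ncard :=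
    mv_rs (fun x : Pt V => x.1 ∈ Aᶜ) F
  have e3 : fX F A = {x : Pt V | x.1 ∈ A ∧ (F x).1 ∉ A}.ncard := by
    unfold fX
    exact fc (fun x : Pt V => x.1 ∈ A ∧ (F x).1 ∉ A)
  have e4 : fX F A = {x : Pt V | x.1 ∉ A ∧ (F x).1 ∈ A}.ncard := by
    have hi : Function.Injective F := fun x y h => by
      have := congrArg F h
      rwa [hF, hF] at this
    rw [e3, ← Set.ncard_image_of_injective _ hi]
    congr 1
    ext x
    constructor
    · rintro ⟨y, hy, rfl⟩
      exact ⟨hy.2, by rw [hF]; exact hy.1⟩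
    · rintro ⟨h1, h2⟩
      exact ⟨F x, ⟨h2, by rw [hF]; exact h1⟩, hF x⟩
  have e5 : {x : Pt V | F x ≠ x} =
      (({x : Pt V | x.1 ∈ A ∧ (F x).1 ∈ A ∧ F x ≠ x} ∪
      {x : Pt V | x.1 ∈ Aᶜ ∧ (F x).1 ∈ Aᶜ ∧ F x ≠ x}) ∪
      {x : Pt V | x.1 ∈ A ∧ (F x).1 ∉ A}) ∪
      {x : Pt V | x.1 ∉ A ∧ (F x).1 ∈ A} := by
    ext x
    simp only [Set.mem_ofPred_eq, Set.mem_union, mem_compl]
    constructor
    · intro h
      by_cases a : x.1 ∈ A <;> by_cases b : (F x).1 ∈ A <;> simp [a, b, h]
    · rintro (((h | h) | h) | h)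
      · exact h.2.2
      · exact h.2.2
      · intro h'
        rw [h'] at h
        exact h.2 h.1
      · intro h'
        rw [h'] at h
        exact h.1 h.2
  have e6 : mv F = {x : Pt V | F x ≠ x}.ncard := mv_fc F
  rw [e6, e5, Set.ncard_union_eq, Set.ncard_union_eq, Set.ncard_union_eq, ← e1, ← e2, ← e3, ← e4]
  · ring
  · rw [Set.disjoint_left]
    rintro x a b
    exact (mem_compl.1 b.1) a.1
  · rw [Set.disjoint_left]
    rintro x (a | a) b
    · exact b.2 a.2.1
    · exact (mem_compl.1 a.1) b.1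
  · rw [Set.disjoint_left]
    rintro x ((a | a) | a) b
    · exact b.1 a.1
    · exact (mem_compl.1 a.2.1) b.2
    · exact b.1 a.1

theorem card_compl' {V : Type} [Fintype V] (A : Finset V) :
    A.card + Aᶜ.card = Fintype.card V := Finset.card_add_card_compl A

theorem three_mul_le (k : ℕ) (hk : 0 < k) : 3 * k ≤ 3 ^ k := by
  obtain ⟨j, rfl⟩ : ∃ j, k = j + 1 := ⟨k - 1, by omega⟩
  have h : j < 3 ^ j := Nat.lt_pow_self (by norm_num)
  rw [pow_succ]
  omega

/-- the product of the numbers of free points -/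
theorem prod_DK {V : Type} [Fintype V] (F : Pt V → Pt V) (A : Finset V) :
    ∏ K, DK F A K ≤ 3 ^ A.card := by
  let ρ := rs (fun x : Pt V => x.1 ∈ A) F
  let k : Cm (bl (Prod.fst : Pt V → V) A) ρ → ℕ := fun K =>
    (univ.filter fun v : {v : V // v ∈ A} => (Quot.mk _ v : Cm (bl Prod.fst A) ρ) = K).card
  have h1 : ∀ K, DK F A K ≤ 3 ^ k K := by
    intro K
    have hk : 0 < k K := by
      obtain ⟨v, hv⟩ := Quot.exists_rep K
      exact Finset.card_pos.2 ⟨v, mem_filter.2 ⟨mem_univ _, hv⟩⟩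
    refine le_trans ?_ (three_mul_le _ hk)
    rw [DK]
    refine le_trans (Finset.card_le_mul_card_image (f := bl (Prod.fst : Pt V → V) A) _ 3 ?_) ?_
    · intro v _
      have := Finset.card_le_card_of_injOn (s := (univ.filter fun x : {x : Pt V // x.1 ∈ A} =>
        F x.1 = x.1 ∧ (Quot.mk _ (bl Prod.fst A x) : Cm (bl Prod.fst A) ρ) = K).filter
          fun x => bl Prod.fst A x = v) (t := (univ : Finset (Fin 3))) (fun x => x.1.2)
          (fun _ _ => mem_coe.2 (mem_univ _)) (by
            intro x hx y hy hxy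
            have a : bl Prod.fst A x = v := (mem_filter.1 (mem_coe.1 hx)).2
            have b : bl Prod.fst A y = v := (mem_filter.1 (mem_coe.1 hy)).2
            have c := congrArg Subtype.val (a.trans b.symm)
            exact Subtype.ext (Prod.ext c hxy))
      simpa using this
    · refine Nat.mul_le_mul_left 3 (Finset.card_le_card ?_)
      intro v hv
      obtain ⟨x, hx, rfl⟩ := Finset.mem_image.1 hv
      exact mem_filter.2 ⟨mem_univ _, (mem_filter.1 hx).2.2⟩
  calc ∏ K, DK F A K ≤ ∏ K, 3 ^ k K := Finset.prod_le_prod' fun K _ => h1 K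
    _ = 3 ^ ∑ K, k K := Finset.prod_pow_eq_pow_sum _ _ _
    _ = 3 ^ A.card := by
      congr 1
      have h2 := Finset.card_eq_sum_card_fiberwise
        (f := fun v : {v : V // v ∈ A} => (Quot.mk _ v : Cm (bl (Prod.fst : Pt V → V) A) ρ))
        (s := univ) (t := univ) (fun _ _ => mem_coe.2 (mem_univ _))
      rw [Finset.card_univ, Fintype.card_coe] at h2
      exact h2.symm

/-- the bound for one set -/
theorem key (h1 : S_L3) {V : Type} [Fintype V] (m f : ℕ) (F : Pt V → Pt V) (A : Finset V)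
    (hF : Inv F) (hm : 0 < m) (hfm : f ≤ m) (hA : A.card = m) (hA' : Aᶜ.card = m)
    (hmv : mv F = 2 * f) :
    ((prs (Pt V)).filter fun σ => Sub F σ ∧ Jp σ A).card * ((m + 2).factorial * m ^ f) ≤
      9 ^ m * 3 ^ f * ((2 * m).factorial * (2 * m).factorial) := by
  obtain ⟨h2, h3⟩ := h1 V m F A hF hm hA hA' (by omega)
  by_cases hff : FF2 F A
  swap
  · rw [h2 hff, zero_mul]
    exact Nat.zero_le _
  have h4 := h3 hff
  have hs := split F A hF
  obtain ⟨a, ha⟩ := even_mv _ (inv_rs (fun x : Pt V => x.1 ∈ A) F hF)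
  obtain ⟨b, hb⟩ := even_mv _ (inv_rs (fun x : Pt V => x.1 ∈ Aᶜ) F hF)
  have ha' : fI F A = 2 * a := ha
  have hb' : fI F Aᶜ = 2 * b := hb
  set x := fX F A with hx
  rw [ha', hb', hmv] at hs
  rw [ha', hb', Nat.mul_div_cancel_left _ (by norm_num), Nat.mul_div_cancel_left _ (by norm_num)] at h4
  have hf : f = a + b + x := by omega
  have hDK := prod_DK F A
  have hDK' := prod_DK F Aᶜ
  rw [hA] at hDK
  rw [hA'] at hDK'
  have e1 : (m + 2).factorial ≤ (m + 2 - x).factorial * (3 * m) ^ x := by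
    rw [← Nat.factorial_mul_descFactorial (show x ≤ m + 2 by omega)]
    refine Nat.mul_le_mul_left _ ((Nat.descFactorial_le_pow _ _).trans ?_)
    exact Nat.pow_le_pow_left (by omega) x
  have e2 : ∀ j, j ≤ m → (2 * m - j).factorial * m ^ j ≤ (2 * m).factorial := by
    intro j hj
    have h := Nat.factorial_mul_pow_sub_le_factorial (show 2 * m - j ≤ 2 * m by omega)
    rw [show 2 * m - (2 * m - j) = j by omega] at h
    refine le_trans (Nat.mul_le_mul_left _ (Nat.pow_le_pow_left (by omega) j)) h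
  have e3 := e2 (a + x) (by omega)
  have e4 := e2 (b + x) (by omega)
  rw [show 2 * m - (a + x) = 2 * m - a - x by omega] at e3
  rw [show 2 * m - (b + x) = 2 * m - b - x by omega] at e4
  set n := ((prs (Pt V)).filter fun σ => Sub F σ ∧ Jp σ A).card with hn
  calc n * ((m + 2).factorial * m ^ f)
      ≤ n * (((m + 2 - x).factorial * (3 * m) ^ x) * m ^ f) := by gcongr
    _ = (n * (m + 2 - x).factorial) * (3 ^ x * m ^ x * m ^ f) := by rw [mul_pow]; ring
    _ = ((∏ K, DK F A K) * (∏ K, DK F Aᶜ K) *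
        ((2 * m - a - x).factorial * (2 * m - b - x).factorial)) * (3 ^ x * m ^ x * m ^ f) := by
      rw [h4]
    _ ≤ (3 ^ m * 3 ^ m * ((2 * m - a - x).factorial * (2 * m - b - x).factorial)) *
        (3 ^ f * m ^ x * m ^ f) := by
      gcongr
      · norm_num
      · omega
    _ = 9 ^ m * 3 ^ f * (((2 * m - a - x).factorial * m ^ (a + x)) *
        ((2 * m - b - x).factorial * m ^ (b + x))) := by
      rw [hf, show (9 : ℕ) = 3 * 3 by norm_num, mul_pow]
      ring
    _ ≤ 9 ^ m * 3 ^ f * ((2 * m).factorial * (2 * m).factorial) := by gcongr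

end BpX

theorem p_Bp (h1 : S_L3) (h2 : S_Jc) : S_Bp := by
  have hN0 : ∀ m, 0 < N1 m := by
    intro m
    rw [N1]
    have h3 : 0 < ((2 * m).choose m : ℝ) := by
      exact_mod_cast Nat.choose_pos (by omega)
    have h4 : 0 < ((2 * m).factorial : ℝ) := by exact_mod_cast Nat.factorial_pos _
    have h5 : 0 < ((m + 2).factorial : ℝ) := by exact_mod_cast Nat.factorial_pos _
    positivity
  refine ⟨fun m σ => ?_, fun m σ h => if_neg h, fun f => ⟨3 ^ f, fun m hfm hm F hF hmv => ?_⟩⟩
  · rw [wp]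
    split_ifs
    · exact div_nonneg (Nat.cast_nonneg _) (hN0 m).le
    · exact le_refl _
  · -- the sum is `(∑ A, n_A) / N1 m`
    have e1 : ∑ σ ∈ univ.filter (fun σ => Sub F σ), wp m σ =
        ((∑ σ ∈ (prs (Pt (Fin (2 * m)))).filter (fun σ => Sub F σ), Y σ : ℕ) : ℝ) / N1 m := by
      have h3 : (prs (Pt (Fin (2 * m)))).filter (fun σ => Sub F σ) =
          (univ.filter (fun σ => Sub F σ)).filter fun σ => IsPr σ := by
        ext σ
        simp only [prs, mem_filter, mem_univ, true_and]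
        exact and_comm
      rw [h3, Nat.cast_sum, Finset.sum_div]
      conv_rhs => rw [Finset.sum_filter]
      refine Finset.sum_congr rfl fun σ _ => ?_
      rw [wp]
    have e2 : ∑ σ ∈ (prs (Pt (Fin (2 * m)))).filter (fun σ => Sub F σ), Y σ =
        ∑ A : Finset (Fin (2 * m)),
          ((prs (Pt (Fin (2 * m)))).filter fun σ => Sub F σ ∧ Jp σ A).card := by
      have h3 := Finset.sum_card_bipartiteAbove_eq_sum_card_bipartiteBelow
        (s := (prs (Pt (Fin (2 * m)))).filter (fun σ => Sub F σ))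
        (t := (univ : Finset (Finset (Fin (2 * m))))) (fun σ A => Jp σ A)
      refine Eq.trans ?_ (h3.trans ?_)
      · rfl
      · refine Finset.sum_congr rfl fun A _ => ?_
        rw [Finset.bipartiteBelow, Finset.filter_filter]
    have e3 : (∑ A : Finset (Fin (2 * m)),
          ((prs (Pt (Fin (2 * m)))).filter fun σ => Sub F σ ∧ Jp σ A).card) =
        ∑ A ∈ Finset.powersetCard m (univ : Finset (Fin (2 * m))),
          ((prs (Pt (Fin (2 * m)))).filter fun σ => Sub F σ ∧ Jp σ A).card := by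
      symm
      refine Finset.sum_subset (Finset.subset_univ _) fun A _ hA => ?_
      rw [Finset.card_eq_zero, Finset.filter_eq_empty_iff]
      rintro σ hσ ⟨-, hJ⟩
      apply hA
      obtain ⟨h3, -⟩ := h2 _ σ A (mem_filter.1 hσ).2 hJ
      have h4 := BpX.card_compl' A
      rw [Fintype.card_fin] at h4
      exact Finset.mem_powersetCard.2 ⟨Finset.subset_univ _, by omega⟩
    have e4 : (∑ A ∈ Finset.powersetCard m (univ : Finset (Fin (2 * m))),
          ((prs (Pt (Fin (2 * m)))).filter fun σ => Sub F σ ∧ Jp σ A).card) *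
          ((m + 2).factorial * m ^ f) ≤
        (2 * m).choose m * (9 ^ m * 3 ^ f * ((2 * m).factorial * (2 * m).factorial)) := by
      rw [Finset.sum_mul]
      have h3 : (Finset.powersetCard m (univ : Finset (Fin (2 * m)))).card = (2 * m).choose m := by
        rw [Finset.card_powersetCard, Finset.card_univ, Fintype.card_fin]
      rw [← h3, ← smul_eq_mul (Finset.card _)]
      refine Finset.sum_le_card_nsmul _ _ _ fun A hA => ?_
      have hA' := (Finset.mem_powersetCard.1 hA).2
      have h4 := BpX.card_compl' A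
      rw [Fintype.card_fin] at h4
      exact BpX.key h1 m f F A hF hm hfm hA' (by omega) hmv
    rw [e1, e2, e3, div_le_div_iff₀ (hN0 m) (by positivity)]
    set S := ∑ A ∈ Finset.powersetCard m (univ : Finset (Fin (2 * m))),
          ((prs (Pt (Fin (2 * m)))).filter fun σ => Sub F σ ∧ Jp σ A).card with hS
    have h5 : 0 < ((m + 2).factorial : ℝ) := by exact_mod_cast Nat.factorial_pos _
    have e5 : (S : ℝ) * (((m + 2).factorial : ℝ) * (m : ℝ) ^ f) ≤
        ((2 * m).choose m : ℝ) * (9 ^ m * 3 ^ f * (((2 * m).factorial : ℝ) * ((2 * m).factorial : ℝ))) := by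
      exact_mod_cast e4
    have e6 : N1 m * ((m + 2).factorial : ℝ) =
        ((2 * m).choose m : ℝ) * 9 ^ m * ((2 * m).factorial : ℝ) ^ 2 := by
      rw [N1, div_mul_cancel₀ _ h5.ne']
    have e7 : ((S : ℝ) * (m : ℝ) ^ f) * ((m + 2).factorial : ℝ) ≤
        (3 ^ f * N1 m) * ((m + 2).factorial : ℝ) := by
      rw [mul_assoc (3 ^ f), e6]
      calc ((S : ℝ) * (m : ℝ) ^ f) * ((m + 2).factorial : ℝ)
          = (S : ℝ) * (((m + 2).factorial : ℝ) * (m : ℝ) ^ f) := by ring
        _ ≤ _ := e5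
        _ = _ := by ring
    exact le_of_mul_le_mul_right e7 h5

end Pool.Agent.ALM
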