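import Pool.Agent.Lib.MP_fc2a59_co.ALM.C.Stm
set_option autoImplicit false
namespace Pool.Agent.ALM
open Finset Filter Topology
open scoped Classical

namespace CMX

lemma desc_lim (L : ℕ) :
    Tendsto (fun m : ℕ => ((2 * m).descFactorial L : ℝ) / ((2 * m : ℕ) : ℝ) ^ L) atTop (𝓝 1) := by
  have hlow : Tendsto (fun m : ℕ => (((2 * m + 1 - L : ℕ) : ℝ) / ((2 * m : ℕ) : ℝ)) ^ L) atTop (𝓝 1) := by
    have h1 : Tendsto (fun m : ℕ => ((2 * m + 1 - L : ℕ) : ℝ) / ((2 * m : ℕ) : ℝ)) atTop (𝓝 1) := by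
      have h2 : Tendsto (fun m : ℕ => 1 + (1 - (L : ℝ)) / 2 * (1 / (m : ℝ))) atTop (𝓝 (1 + (1 - (L : ℝ)) / 2 * 0)) :=
        tendsto_const_nhds.add (tendsto_const_nhds.mul tendsto_one_div_atTop_nhds_zero_nat)
      simp only [mul_zero, add_zero] at h2
      refine h2.congr' ?_
      filter_upwards [eventually_ge_atTop (L + 1)] with m hm
      have hm0 : (m : ℝ) ≠ 0 := by
        have : 0 < m := by omega
        positivity
      rw [Nat.cast_sub (by omega)]
      push_cast
      field_simp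
      ring
    have := h1.pow L
    simpa using this
  have hup : Tendsto (fun _ : ℕ => (1 : ℝ)) atTop (𝓝 1) := tendsto_const_nhds
  refine tendsto_of_tendsto_of_tendsto_of_le_of_le' hlow hup ?_ ?_
  · filter_upwards [eventually_ge_atTop 1] with m hm
    have hpos : (0 : ℝ) < ((2 * m : ℕ) : ℝ) ^ L := by
      have : 0 < 2 * m := by omega
      positivity
    rw [div_pow, div_le_div_iff_of_pos_right hpos]
    exact_mod_cast Nat.pow_sub_le_descFactorial (2 * m) L
  · filter_upwards [eventually_ge_atTop 1] with m hm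
    have hpos : (0 : ℝ) < ((2 * m : ℕ) : ℝ) ^ L := by
      have : 0 < 2 * m := by omega
      positivity
    rw [div_le_one hpos]
    exact_mod_cast Nat.descFactorial_le_pow (2 * m) L

/-- exchanging the sums -/
lemma swap {Ω A : Type} [Fintype Ω] (w : Ω → ℝ) (S : Finset A) (R : A → Ω → Prop)
    [∀ F σ, Decidable (R F σ)] :
    ∑ σ : Ω, w σ * (((S.filter fun F => R F σ).card : ℕ) : ℝ) =
      ∑ F ∈ S, ∑ σ ∈ univ.filter (fun σ => R F σ), w σ := by
  have h1 : ∀ σ : Ω, w σ * (((S.filter fun F => R F σ).card : ℕ) : ℝ) =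
      ∑ F ∈ S, if R F σ then w σ else 0 := by
    intro σ
    rw [← Finset.sum_filter, Finset.sum_const, nsmul_eq_mul, mul_comm]
  simp_rw [h1]
  rw [Finset.sum_comm]
  refine Finset.sum_congr rfl fun F _ => ?_
  rw [Finset.sum_filter]

/-- number of touched vertices -/
noncomputable def tc {V : Type} [Fintype V] {r : ℕ} (F : Fin r → Pt V → Pt V) : ℕ :=
  (univ.biUnion fun t => tch (F t)).card

end CMX

open CMX in
theorem p_CM (h1 : S_fac) (h2 : S_dtc) (h3 : S_ovl) (h4 : S_ovc) : S_CM := by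
  intro w θ hB hD k j
  obtain ⟨r, l, hl, hθ, hfac⟩ := h1 k j
  obtain ⟨hw0, hwn, hwB⟩ := hB
  obtain ⟨q, hq, hqlim⟩ := hD r l hl
  obtain ⟨C', hC'⟩ := h4 r l hl
  set L : ℕ := ∑ t, l t with hL
  -- the two parts
  set D : ℕ → ℝ := fun m => ∑ F ∈ dtu (Fin (2 * m)) l,
    ∑ σ ∈ univ.filter (fun σ : Om m => ∀ t, Sub (F t) σ), w m σ with hDdef
  set R : ℕ → ℝ := fun m => ∑ F ∈ otu (Fin (2 * m)) l,
    ∑ σ ∈ univ.filter (fun σ : Om m => ∀ t, Sub (F t) σ), w m σ with hRdef
  have hsplit : ∀ m, ∑ σ : Om m, w m σ * ∏ i : Fin k, ((X (i + 1) σ).descFactorial (j i) : ℝ) =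
      D m + R m := by
    intro m
    have hterm : ∀ σ : Om m, w m σ * ∏ i : Fin k, ((X (i + 1) σ).descFactorial (j i) : ℝ) =
        w m σ * ((((dtu (Fin (2 * m)) l).filter fun F => ∀ t, Sub (F t) σ).card : ℕ) : ℝ) +
        w m σ * ((((otu (Fin (2 * m)) l).filter fun F => ∀ t, Sub (F t) σ).card : ℕ) : ℝ) := by
      intro σ
      by_cases hσ : IsPr σ
      · have h := hfac (Fin (2 * m)) σ hσ
        rw [← mul_add]
        congr 1
        exact_mod_cast h
      · rw [hwn m σ hσ]; ring
    simp_rw [hterm]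
    rw [Finset.sum_add_distrib, swap (w m) (dtu (Fin (2 * m)) l) (fun F σ => ∀ t, Sub (F t) σ),
      swap (w m) (otu (Fin (2 * m)) l) (fun F σ => ∀ t, Sub (F t) σ)]
  simp only [hsplit]
  -- first part
  have hprod : (∏ t, (2 * (l t : ℝ))) ≠ 0 := by
    refine Finset.prod_ne_zero_iff.mpr fun t _ => ?_
    have := hl t
    positivity
  have hDlim : Tendsto D atTop (𝓝 (∏ i : Fin k, θ (i + 1) ^ j i)) := by
    have hA := (desc_lim L).mul hqlim
    have hA2 := hA.div_const (∏ t, (2 * (l t : ℝ)))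
    have hval : (1 * ∏ t, (2 * (l t : ℝ) * θ (l t))) / ∏ t, (2 * (l t : ℝ)) = ∏ i : Fin k, θ (i + 1) ^ j i := by
      rw [← hθ θ, one_mul, Finset.prod_mul_distrib]
      field_simp
    rw [hval] at hA2
    refine hA2.congr' ?_
    filter_upwards [hq, eventually_ge_atTop 1] with m hm hm1
    have hD1 : D m = ((dtu (Fin (2 * m)) l).card : ℝ) * q m := by
      rw [hDdef]
      simp only
      rw [Finset.sum_congr rfl hm, Finset.sum_const, nsmul_eq_mul]
    rw [hD1]
    have hc := h2 (Fin (2 * m)) r l hl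
    rw [Fintype.card_fin] at hc
    have hc' : ((dtu (Fin (2 * m)) l).card : ℝ) * ∏ t, (2 * (l t : ℝ)) =
        ((2 * m).descFactorial L : ℝ) * 6 ^ L := by
      have : (((dtu (Fin (2 * m)) l).card * ∏ t, (2 * l t) : ℕ) : ℝ) =
          (((2 * m).descFactorial (∑ t, l t) * 6 ^ (∑ t, l t) : ℕ) : ℝ) := by rw [hc]
      push_cast at this
      exact this
    have hm0 : (m : ℝ) ≠ 0 := by
      have : 0 < m := hm1
      positivity
    have hp : (12 * (m : ℝ)) ^ L = ((2 * m : ℕ) : ℝ) ^ L * 6 ^ L := by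
      rw [← mul_pow]; congr 1; push_cast; ring
    have hpow : ((2 * m : ℕ) : ℝ) ^ L ≠ 0 := by
      have : 0 < 2 * m := by omega
      positivity
    rw [hp, div_eq_iff hprod]
    have e1 : ((2 * m).descFactorial L : ℝ) / ((2 * m : ℕ) : ℝ) ^ L *
        (((2 * m : ℕ) : ℝ) ^ L * 6 ^ L * q m) = ((2 * m).descFactorial L : ℝ) * 6 ^ L * q m := by
      field_simp
    rw [e1, ← hc']; ring
  -- second part
  have hRlim : Tendsto R atTop (𝓝 0) := by
    choose Cf hCf using hwB
    set C : ℝ := ∑ f ∈ range (L + 1), |Cf f| with hCdef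
    have hC0 : 0 ≤ C := Finset.sum_nonneg fun _ _ => abs_nonneg _
    have hCle : ∀ f, f ≤ L → Cf f ≤ C := by
      intro f hf
      calc Cf f ≤ |Cf f| := le_abs_self _
        _ ≤ C := Finset.single_le_sum (f := fun f => |Cf f|) (fun _ _ => abs_nonneg _)
            (by rw [mem_range]; omega)
    set U : ∀ m, (Fin r → Om m) → ℕ := fun m F => tc F with hU
    have hinner : ∀ m, L ≤ m → 1 ≤ m → ∀ F ∈ otu (Fin (2 * m)) l,
        (∑ σ ∈ univ.filter (fun σ : Om m => ∀ t, Sub (F t) σ), w m σ) ≤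
          if U m F < L then C / (m : ℝ) ^ (U m F + 1) else 0 := by
      intro m hmL hm1 F hF
      have hmR : (1 : ℝ) ≤ (m : ℝ) := by exact_mod_cast hm1
      by_cases hex : ∃ σ : Om m, IsPr σ ∧ ∀ t, Sub (F t) σ
      · obtain ⟨σ, hσ, hsub⟩ := hex
        obtain ⟨hinv, hall, f, hf1, hf2, hf3⟩ := h3 (Fin (2 * m)) r l F σ hl hF hσ hsub
        have hUf : U m F + 1 ≤ f := hf3
        rw [if_pos (by omega)]
        calc (∑ σ ∈ univ.filter (fun σ : Om m => ∀ t, Sub (F t) σ), w m σ)
            ≤ ∑ σ ∈ univ.filter (fun σ : Om m => Sub (un F) σ), w m σ := by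
              refine Finset.sum_le_sum_of_subset_of_nonneg ?_ fun σ _ _ => hw0 m σ
              intro τ hτ
              rw [mem_filter] at hτ ⊢
              exact ⟨hτ.1, hall τ hτ.2⟩
          _ ≤ Cf f / (m : ℝ) ^ f := hCf f m (by omega) hm1 (un F) hinv hf1
          _ ≤ C / (m : ℝ) ^ f := by
              have := hCle f (by omega)
              gcongr
          _ ≤ C / (m : ℝ) ^ (U m F + 1) := by
              have hp : (m : ℝ) ^ (U m F + 1) ≤ (m : ℝ) ^ f := pow_le_pow_right₀ hmR hUf
              gcongr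
      · have hz : (∑ σ ∈ univ.filter (fun σ : Om m => ∀ t, Sub (F t) σ), w m σ) = 0 := by
          refine Finset.sum_eq_zero fun σ hσ => ?_
          rw [mem_filter] at hσ
          refine hwn m σ fun hp => hex ⟨σ, hp, hσ.2⟩
        rw [hz]
        split_ifs <;> positivity
    have hbound : ∀ m, L ≤ m → 1 ≤ m → R m ≤ (∑ k ∈ range L, (C' : ℝ) * C * 2 ^ k) * (1 / (m : ℝ)) := by
      intro m hmL hm1
      have hm0 : (0 : ℝ) < (m : ℝ) := by exact_mod_cast hm1
      calc R m ≤ ∑ F ∈ otu (Fin (2 * m)) l, (if U m F < L then C / (m : ℝ) ^ (U m F + 1) else 0) :=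
            Finset.sum_le_sum fun F hF => hinner m hmL hm1 F hF
        _ = ∑ F ∈ (otu (Fin (2 * m)) l).filter (fun F => U m F < L), C / (m : ℝ) ^ (U m F + 1) := by
            rw [Finset.sum_filter]
        _ = ∑ k ∈ range L, ∑ F ∈ ((otu (Fin (2 * m)) l).filter (fun F => U m F < L)).filter
              (fun F => U m F = k), C / (m : ℝ) ^ (U m F + 1) := by
            refine (Finset.sum_fiberwise_of_maps_to (fun F hF => ?_) _).symm
            rw [mem_filter] at hF
            exact mem_range.mpr hF.2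
        _ ≤ ∑ k ∈ range L, ((C' : ℝ) * ((2 * m : ℕ) : ℝ) ^ k) * (C / (m : ℝ) ^ (k + 1)) := by
            refine Finset.sum_le_sum fun k _ => ?_
            have e1 : ∑ F ∈ ((otu (Fin (2 * m)) l).filter (fun F => U m F < L)).filter
                (fun F => U m F = k), C / (m : ℝ) ^ (U m F + 1) =
                ∑ F ∈ ((otu (Fin (2 * m)) l).filter (fun F => U m F < L)).filter
                (fun F => U m F = k), C / (m : ℝ) ^ (k + 1) := by
              refine Finset.sum_congr rfl fun F hF => ?_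
              rw [mem_filter] at hF
              rw [hF.2]
            rw [e1, Finset.sum_const, nsmul_eq_mul]
            refine mul_le_mul_of_nonneg_right ?_ (by positivity)
            have hcard : (((otu (Fin (2 * m)) l).filter (fun F => U m F < L)).filter
                (fun F => U m F = k)).card ≤ C' * (2 * m) ^ k := by
              have h5 := hC' (Fin (2 * m)) k
              rw [Fintype.card_fin] at h5
              refine le_trans (Finset.card_le_card ?_) h5
              intro F hF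
              rw [mem_filter] at hF ⊢
              exact ⟨(mem_filter.mp hF.1).1, hF.2⟩
            exact_mod_cast hcard
        _ = (∑ k ∈ range L, (C' : ℝ) * C * 2 ^ k) * (1 / (m : ℝ)) := by
            rw [Finset.sum_mul]
            refine Finset.sum_congr rfl fun k _ => ?_
            push_cast
            rw [mul_pow, pow_succ]
            field_simp
    have hlim0 : Tendsto (fun m : ℕ => (∑ k ∈ range L, (C' : ℝ) * C * 2 ^ k) * (1 / (m : ℝ))) atTop (𝓝 0) := by
      have := tendsto_one_div_atTop_nhds_zero_nat (𝕜 := ℝ)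
      simpa using this.const_mul (∑ k ∈ range L, (C' : ℝ) * C * 2 ^ k)
    refine tendsto_of_tendsto_of_tendsto_of_le_of_le' tendsto_const_nhds hlim0 ?_ ?_
    · exact Filter.Eventually.of_forall fun m =>
        Finset.sum_nonneg fun F _ => Finset.sum_nonneg fun σ _ => hw0 m σ
    · filter_upwards [eventually_ge_atTop L, eventually_ge_atTop 1] with m h5 h6
      exact hbound m h5 h6
  simpa using hDlim.add hRlim

end Pool.Agent.ALM
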