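import Pool.Agent.Lib.MP_fc2a59_co.ALM.C.Stm

set_option autoImplicit false

namespace Pool.Agent.ALM

open Finset Filter Topology
open scoped Classical

/-- PLANTED MODEL, DISJOINT CYCLES -/
theorem p_Dp (h1 : S_Dq) (h2 : S_ql) (h3 : S_psp) (h4 : S_psi) : S_Dp := by
  intro r l hl
  refine ⟨fun m => qp l m, h1 r l hl, ?_⟩
  have h := h2 r l hl
  rw [h3 r l hl] at h
  have he : ∏ t, psi (l t) = ∏ t, (2 * (l t : ℝ) * mu (l t)) := by
    refine Finset.prod_congr rfl fun t _ => ?_
    rw [h4 (l t) (hl t), mu]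
    have hne : (l t : ℝ) ≠ 0 := by
      have := hl t
      positivity
    field_simp
  rw [he] at h
  exact h

end Pool.Agent.ALM
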