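import Pool.Agent.Lib.MP_fc2a59_co.ALM.C.Stm

set_option autoImplicit false

namespace Pool.Agent.ALM

open Finset Filter Topology
open scoped Classical

namespace DqX

theorem cnt_eq {V : Type} [Fintype V] {r : ℕ} (F : Fin r → Pt V → Pt V) (A : Finset V) :
    cnt F A = ∑ σ : Pt V → Pt V, if IsPr σ ∧ (∀ t, Sub (F t) σ) ∧ Jp σ A then 1 else 0 := by
  unfold cnt prs
  rw [Finset.filter_filter, Finset.card_filter]
  refine Finset.sum_congr (by ext x; simp) fun σ _ => ?_
  congr

theorem Y_eq {V : Type} [Fintype V] (σ : Pt V → Pt V) :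
    Y σ = ∑ A : Finset V, if Jp σ A then 1 else 0 := by
  unfold Y
  rw [Finset.card_filter]

theorem sum_wp (m r : ℕ) (F : Fin r → Om m) :
    ∑ σ ∈ univ.filter (fun σ : Om m => ∀ t, Sub (F t) σ), wp m σ =
      (∑ A : Finset (Fin (2 * m)), (cnt F A : ℝ)) / N1 m := by
  rw [Finset.sum_filter]
  have h1 : (∑ A : Finset (Fin (2 * m)), (cnt F A : ℝ)) =
      ∑ σ : Om m, ∑ A : Finset (Fin (2 * m)),
        (if IsPr σ ∧ (∀ t, Sub (F t) σ) ∧ Jp σ A then (1 : ℝ) else 0) := by
    rw [Finset.sum_comm]
    refine Finset.sum_congr rfl fun A _ => ?_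
    rw [cnt_eq]
    push_cast
    refine Finset.sum_congr (by ext x; simp) fun σ _ => ?_
    congr
  rw [h1, Finset.sum_div]
  refine Finset.sum_congr rfl fun σ _ => ?_
  by_cases hP : ∀ t, Sub (F t) σ
  · rw [if_pos hP]
    unfold wp
    by_cases hI : IsPr σ
    · rw [if_pos hI, Y_eq]
      congr 1
      push_cast
      refine Finset.sum_congr rfl fun A _ => ?_
      by_cases hJ : Jp σ A
      · rw [if_pos hJ, if_pos ⟨hI, hP, hJ⟩]
      · rw [if_neg hJ, if_neg (fun h => hJ h.2.2)]
    · rw [if_neg hI, Finset.sum_eq_zero, zero_div]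
      intro A _
      rw [if_neg (fun h => hI h.1)]
  · rw [if_neg hP, Finset.sum_eq_zero, zero_div]
    intro A _
    rw [if_neg (fun h => hP h.2.1)]

/-- number of sets with a given size and trace -/
theorem count_trace {V I : Type} [Fintype V] [Fintype I] (v : I → V) (hv : Function.Injective v)
    (χ : I → Bool) (k : ℕ) (hk : (univ.filter fun p => χ p = true).card ≤ k) :
    ((univ : Finset (Finset V)).filter fun A => A.card = k ∧ ∀ p, (χ p = true ↔ v p ∈ A)).card =
      (Fintype.card V - Fintype.card I).choose (k - (univ.filter fun p => χ p = true).card) := by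
  set T : Finset I := univ.filter fun p => χ p = true with hT
  have hTm : ∀ p, p ∈ T ↔ χ p = true := by intro p; simp [hT]
  set Rg : Finset V := univ.image v with hRg
  have hRm : ∀ x, x ∈ Rg ↔ ∃ p, v p = x := by intro x; simp [hRg]
  have hcR : (Rgᶜ : Finset V).card = Fintype.card V - Fintype.card I := by
    rw [Finset.card_compl, hRg, Finset.card_image_of_injective _ hv, Finset.card_univ]
  rw [← hcR, ← Finset.card_powersetCard]
  have hTi : (T.image v).card = T.card := Finset.card_image_of_injective _ hv
  refine Finset.card_nbij' (fun A => A \ Rg) (fun B => B ∪ T.image v) ?_ ?_ ?_ ?_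
  · intro A hA
    simp only [coe_filter, mem_univ, true_and, Set.mem_ofPred_eq] at hA
    obtain ⟨h1, h2⟩ := hA
    rw [Finset.mem_coe, Finset.mem_powersetCard]
    constructor
    · intro x hx
      rw [Finset.mem_sdiff] at hx
      rw [Finset.mem_compl]
      exact hx.2
    · have h3 : A ∩ Rg = T.image v := by
        ext x
        simp only [Finset.mem_inter, Finset.mem_image, hRm]
        constructor
        · rintro ⟨hx, p, rfl⟩
          exact ⟨p, (hTm p).2 ((h2 p).2 hx), rfl⟩
        · rintro ⟨p, hp, rfl⟩
          exact ⟨(h2 p).1 ((hTm p).1 hp), p, rfl⟩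
      have h4 := Finset.card_sdiff_add_card_inter A Rg
      rw [h3, hTi] at h4
      beta_reduce
      omega
  · intro B hB
    rw [Finset.mem_coe, Finset.mem_powersetCard] at hB
    obtain ⟨h1, h2⟩ := hB
    simp only [coe_filter, mem_univ, true_and, Set.mem_ofPred_eq]
    have hd : Disjoint B (T.image v) := by
      rw [Finset.disjoint_left]
      intro x hx hx'
      have := h1 hx
      rw [Finset.mem_compl, hRm] at this
      rw [Finset.mem_image] at hx'
      obtain ⟨p, _, hp⟩ := hx'
      exact this ⟨p, hp⟩
    constructor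
    · rw [Finset.card_union_of_disjoint hd, h2, hTi]
      omega
    · intro p
      rw [Finset.mem_union, Finset.mem_image, ← hTm]
      constructor
      · intro hp
        exact Or.inr ⟨p, hp, rfl⟩
      · rintro (hp | ⟨p', hp', he⟩)
        · have := h1 hp
          rw [Finset.mem_compl, hRm] at this
          exact absurd ⟨p, rfl⟩ this
        · rw [← hv he]
          exact hp'
  · intro A hA
    simp only [coe_filter, mem_univ, true_and, Set.mem_ofPred_eq] at hA
    obtain ⟨h1, h2⟩ := hA
    ext x
    simp only [Finset.mem_union, Finset.mem_sdiff, Finset.mem_image, hRm]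
    constructor
    · rintro (h | ⟨p, hp, rfl⟩)
      · exact h.1
      · exact (h2 p).1 ((hTm p).1 hp)
    · intro hx
      by_cases hx' : ∃ p, v p = x
      · obtain ⟨p, rfl⟩ := hx'
        exact Or.inr ⟨p, (hTm p).2 ((h2 p).2 hx), rfl⟩
      · exact Or.inl ⟨hx, hx'⟩
  · intro B hB
    rw [Finset.mem_coe, Finset.mem_powersetCard] at hB
    obtain ⟨h1, h2⟩ := hB
    ext x
    simp only [Finset.mem_union, Finset.mem_sdiff, Finset.mem_image, hRm]
    constructor
    · rintro ⟨h | ⟨p, _, rfl⟩, h3⟩
      · exact h
      · exact absurd ⟨p, rfl⟩ h3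
    · intro hx
      have := h1 hx
      rw [Finset.mem_compl, hRm] at this
      exact ⟨Or.inl hx, this⟩

theorem card_co {V : Type} [Fintype V] (A : Finset V) : A.card + Aᶜ.card = Fintype.card V :=
  Finset.card_add_card_compl A

theorem card_Ix {r : ℕ} (l : Fin r → ℕ) : Fintype.card (Ix l) = ∑ t, l t := by
  unfold Ix
  rw [Fintype.card_sigma]
  simp

end DqX

open DqX in
theorem p_Dq (h1 : S_cyD) (h2 : S_Jc) : S_Dq := by
  intro r l hl
  filter_upwards [eventually_ge_atTop (∑ t, l t), eventually_ge_atTop 1] with m hm hm1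
  intro F hF
  obtain ⟨v, hv, hA⟩ := h1 (Fin (2 * m)) m r l hl hm hm1 (Fintype.card_fin _) F hF
  have e0 : ∀ A : Finset (Fin (2 * m)), A.card ≠ m → cnt F A = 0 := by
    intro A hAm
    unfold cnt
    rw [Finset.card_eq_zero, Finset.filter_eq_empty_iff]
    intro σ hσ hJ
    have hσ' : IsPr σ := by simpa [prs] using hσ
    have h3 := (h2 (Fin (2 * m)) σ A hσ' hJ.2).1
    have h4 := card_co A
    rw [Fintype.card_fin] at h4
    omega
  rw [sum_wp]
  unfold qp
  congr 1
  have e1 : (∑ A : Finset (Fin (2 * m)), (cnt F A : ℝ)) =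
      ∑ A ∈ (univ : Finset (Finset (Fin (2 * m)))).filter (fun A => A.card = m), (cnt F A : ℝ) := by
    rw [Finset.sum_filter]
    refine Finset.sum_congr rfl fun A _ => ?_
    by_cases h : A.card = m
    · rw [if_pos h]
    · rw [if_neg h, e0 A h, Nat.cast_zero]
  rw [e1, ← Finset.sum_fiberwise _ (fun (A : Finset (Fin (2 * m))) (p : Ix l) => decide (v p ∈ A))]
  rw [Finset.sum_filter]
  refine Finset.sum_congr rfl fun χ _ => ?_
  by_cases hmono : mono χ
  · rw [if_neg (fun h => h hmono)]
    refine Finset.sum_eq_zero fun A hAf => ?_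
    rw [Finset.mem_filter, Finset.mem_filter] at hAf
    obtain ⟨⟨_, hAm⟩, hAχ⟩ := hAf
    have hχ : ∀ p, χ p = true ↔ v p ∈ A := by
      intro p
      rw [← hAχ]
      simp
    rw [(hA A hAm χ hχ).1 hmono, Nat.cast_zero]
  · rw [if_pos hmono]
    have hcc : cc χ true ≤ m := by
      unfold cc
      calc (univ.filter fun p => χ p = true).card ≤ (univ : Finset (Ix l)).card :=
            Finset.card_le_card (Finset.filter_subset _ _)
        _ = ∑ t, l t := by rw [Finset.card_univ, card_Ix]
        _ ≤ m := hm
    have hval : ∀ A ∈ ((univ : Finset (Finset (Fin (2 * m)))).filter (fun A => A.card = m)).filter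
        (fun A => (fun (p : Ix l) => decide (v p ∈ A)) = χ), (cnt F A : ℝ) =
        3 ^ (2 * m - ∑ t, l t) * (wt χ : ℝ) *
      ((2 * m - sm χ true - ch χ).factorial : ℝ) * ((2 * m - sm χ false - ch χ).factorial : ℝ) /
      ((m + 2 - ch χ).factorial : ℝ) := by
      intro A hAf
      rw [Finset.mem_filter, Finset.mem_filter] at hAf
      obtain ⟨⟨_, hAm⟩, hAχ⟩ := hAf
      have hχ : ∀ p, χ p = true ↔ v p ∈ A := by
        intro p
        rw [← hAχ]
        simp
      have h5 := (hA A hAm χ hχ).2 hmono
      have h6 : ((m + 2 - ch χ).factorial : ℝ) ≠ 0 := by positivity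
      rw [eq_div_iff h6]
      have h7 : ((cnt F A * (m + 2 - ch χ).factorial : ℕ) : ℝ) = ((3 ^ (2 * m - ∑ t, l t) * wt χ *
        ((2 * m - sm χ true - ch χ).factorial * (2 * m - sm χ false - ch χ).factorial) : ℕ) : ℝ) := by
        rw [h5]
      push_cast at h7
      rw [h7]
      ring
    rw [Finset.sum_congr rfl hval, Finset.sum_const, nsmul_eq_mul]
    have hcard : (((univ : Finset (Finset (Fin (2 * m)))).filter (fun A => A.card = m)).filter
        (fun A => (fun (p : Ix l) => decide (v p ∈ A)) = χ)).card =
        (2 * m - ∑ t, l t).choose (m - cc χ true) := by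
      have h8 := count_trace v hv χ m hcc
      rw [Fintype.card_fin, card_Ix] at h8
      unfold cc
      rw [← h8]
      congr 1
      ext A
      simp only [Finset.mem_filter, Finset.mem_univ, true_and]
      refine and_congr_right fun _ => ?_
      constructor
      · rintro rfl p
        simp
      · intro h
        funext p
        have := h p
        cases hχp : χ p
        · rw [hχp] at this
          simp only [Bool.false_eq_true, false_iff] at this
          simp [this]
        · rw [hχp] at this
          simp only [true_iff] at this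
          simp [this]
    rw [hcard]
    ring

end Pool.Agent.ALM
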