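import Pool.Agent.Lib.MP_fc2a59_co.ALM.C.Stm

set_option autoImplicit false

namespace Pool.Agent.ALM

open Finset
open scoped Classical

namespace cyDX

lemma cc_add {r : ℕ} {l : Fin r → ℕ} (χ : Ix l → Bool) : cc χ true + cc χ false = ∑ t, l t := by
  have h1 : cc χ false = (univ.filter fun p => ¬ χ p = true).card := by
    unfold cc
    congr 1
    apply Finset.filter_congr
    intro p _
    simp
  have h2 : cc χ true + cc χ false = (univ : Finset (Ix l)).card := by
    rw [h1]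
    unfold cc
    exact Finset.card_filter_add_card_filter_not _
  rw [h2, Finset.card_univ, Fintype.card_sigma]
  simp

lemma mono_iff {r : ℕ} {l : Fin r → ℕ} (hl : ∀ t, 1 ≤ l t) (χ : Ix l → Bool) :
    mono χ ↔ (∃ t, ∀ s : Fin (l t), χ ⟨t, s⟩ = true) ∨ (∃ t, ∀ s : Fin (l t), χ ⟨t, s⟩ = false) := by
  constructor
  · rintro ⟨t, ht⟩
    have s0 : Fin (l t) := ⟨0, hl t⟩
    rcases Bool.eq_false_or_eq_true (χ ⟨t, s0⟩) with h | h
    · exact Or.inl ⟨t, fun s => (ht s s0).trans h⟩
    · exact Or.inr ⟨t, fun s => (ht s s0).trans h⟩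
  · rintro (⟨t, ht⟩ | ⟨t, ht⟩)
    · exact ⟨t, fun s s' => (ht s).trans (ht s').symm⟩
    · exact ⟨t, fun s s' => (ht s).trans (ht s').symm⟩

lemma wt_split {r : ℕ} {l : Fin r → ℕ} (χ : Ix l → Bool) :
    (∏ K ∈ univ.filter (fun K : Quot (rn χ) => χ (Quot.out K) = true),
        (univ.filter fun p => (Quot.mk (rn χ) p) = K).card) *
      (∏ K ∈ univ.filter (fun K : Quot (rn χ) => χ (Quot.out K) = false),
        (univ.filter fun p => (Quot.mk (rn χ) p) = K).card) = wt χ := by
  have h : (univ.filter (fun K : Quot (rn χ) => χ (Quot.out K) = false)) =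
      univ.filter (fun K : Quot (rn χ) => ¬ χ (Quot.out K) = true) := by
    apply Finset.filter_congr
    intro p _
    simp
  rw [h]
  unfold wt
  exact Finset.prod_filter_mul_prod_filter_not _ _ _

end cyDX

open cyDX in
theorem p_cyD (h1 : S_cyQ) (h2 : S_L3) (h3 : S_und) : S_cyD := by
  intro V _ m r l hl hm hm0 hV F hF
  obtain ⟨v, hv, hq⟩ := h1 V r l hl F hF
  refine ⟨v, hv, ?_⟩
  intro A hA χ hχ
  obtain ⟨hInv, hmv, -, -, hSub⟩ := h3 V r l F hl hF
  have hAc : (Aᶜ).card = m := by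
    rw [Finset.card_compl, hV, hA]
    omega
  have hcnt : cnt F A = ((prs (Pt V)).filter fun σ => Sub (un F) σ ∧ Jp σ A).card := by
    unfold cnt
    congr 1
    apply Finset.filter_congr
    intro σ _
    rw [hSub σ]
  have hχ' : ∀ p, χ p = false ↔ v p ∈ Aᶜ := by
    intro p
    rw [Finset.mem_compl, ← hχ p]
    simp
  obtain ⟨t1, t2, t3, t4⟩ := hq A χ true hχ
  obtain ⟨f1, f2, f3, f4⟩ := hq Aᶜ χ false hχ'
  obtain ⟨L1, L2⟩ := h2 V m (un F) A hInv hm0 hA hAc (by rw [hmv]; omega)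
  have hFF : FF2 (un F) A ↔ ¬ mono χ := by
    unfold FF2
    rw [mono_iff hl χ, t3, f3]
    tauto
  constructor
  · intro hmono
    rw [hcnt]
    exact L1 (fun h => (hFF.1 h) hmono)
  · intro hmono
    have L := L2 (hFF.2 hmono)
    rw [← hcnt, t4, f4, t1, t2, f1, hA, hAc] at L
    have hadd := cc_add χ
    have e1 : 2 * sm χ true / 2 = sm χ true := by omega
    have e2 : 2 * sm χ false / 2 = sm χ false := by omega
    rw [e1, e2] at L
    have e3 : 3 ^ (2 * m - ∑ t, l t) = 3 ^ (m - cc χ true) * 3 ^ (m - cc χ false) := by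
      rw [← pow_add]
      congr 1
      omega
    rw [L, ← wt_split χ, e3]
    ring

end Pool.Agent.ALM
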