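import Pool.Agent.Lib.MP_fc2a59_co.ALM.C.Stm

set_option autoImplicit false

/-!
Project ALM, piece p_cyQ: the components of one side for a union of disjoint cycles.
-/

namespace Pool.Agent.ALM

open Finset
open scoped Classical

namespace cyQX

/-! ### restriction of an involution -/

private lemma rs_ne {X : Type} (P : X → Prop) (σ : X → X) (x : {x : X // P x}) :
    rs P σ x ≠ x ↔ P (σ x.1) ∧ σ x.1 ≠ x.1 := by
  unfold rs
  by_cases h : P (σ x.1)
  · rw [dif_pos h]
    constructor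
    · intro h1
      exact ⟨h, fun h2 => h1 (Subtype.ext h2)⟩
    · rintro ⟨_, h1⟩ h2
      exact h1 (congrArg Subtype.val h2)
  · rw [dif_neg h]
    constructor
    · intro h1
      exact absurd rfl h1
    · rintro ⟨h1, _⟩
      exact absurd h1 h

private lemma rs_pos {X : Type} (P : X → Prop) (σ : X → X) (x : {x : X // P x}) (h : P (σ x.1)) :
    rs P σ x = ⟨σ x.1, h⟩ := by
  unfold rs
  rw [dif_pos h]

private lemma rs_inv {X : Type} (P : X → Prop) (σ : X → X) (h : Inv σ) : Inv (rs P σ) := by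
  intro x
  by_cases hx : P (σ x.1)
  · rw [rs_pos P σ x hx]
    have h2 : P (σ (⟨σ x.1, hx⟩ : {x : X // P x}).1) := by
      change P (σ (σ x.1))
      rw [h]
      exact x.2
    rw [rs_pos P σ _ h2]
    exact Subtype.ext (h x.1)
  · have h1 : rs P σ x = x := by
      unfold rs
      rw [dif_neg hx]
    rw [h1, h1]

/-- cardinality of a filter, for any instances -/
private lemma cf {X : Type} {i1 : Fintype X} (P : X → Prop) {i2 : DecidablePred P} :
    (@Finset.filter X P i2 (@Finset.univ X i1)).card = Nat.card {x // P x} := by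
  rw [← Fintype.card_subtype, Nat.card_eq_fintype_card]

private lemma mv_nat {X : Type} {i1 : Fintype X} (ρ : X → X) : mv ρ = Nat.card {x // ρ x ≠ x} := by
  unfold mv
  rw [← Fintype.card_subtype, Nat.card_eq_fintype_card]

private lemma mv_rs {X : Type} (P : X → Prop) {i : Fintype {x : X // P x}} (σ : X → X) :
    mv (rs P σ) = Nat.card {x // σ x ≠ x ∧ (P x ∧ P (σ x))} := by
  rw [mv_nat]
  refine Nat.card_congr
    { toFun := fun x => ⟨x.1.1, ?_⟩
      invFun := fun x => ⟨⟨x.1, x.2.2.1⟩, (rs_ne P σ _).mpr ⟨x.2.2.2, x.2.1⟩⟩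
      left_inv := fun x => rfl
      right_inv := fun x => rfl }
  have := (rs_ne P σ x.1).mp x.2
  exact ⟨this.2, x.1.2, this.1⟩

/-- counting moved points with a property -/
private lemma cnt_moved {X P : Type} [Finite X] [Finite P] (U : X → X) (f1 f2 : P → X)
    (i1 : Function.Injective f1) (i2 : Function.Injective f2) (hd : ∀ p q, f1 p ≠ f2 q)
    (hm : ∀ x, U x ≠ x ↔ (∃ p, f1 p = x) ∨ ∃ p, f2 p = x) (Q : X → Prop) :
    Nat.card {x // U x ≠ x ∧ Q x} = Nat.card {p // Q (f1 p)} + Nat.card {p // Q (f2 p)} := by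
  rw [← Nat.card_sum]
  symm
  let β : {p // Q (f1 p)} ⊕ {p // Q (f2 p)} → {x // U x ≠ x ∧ Q x} := fun y => match y with
    | Sum.inl p => ⟨f1 p.1, (hm _).mpr (Or.inl ⟨p.1, rfl⟩), p.2⟩
    | Sum.inr p => ⟨f2 p.1, (hm _).mpr (Or.inr ⟨p.1, rfl⟩), p.2⟩
  refine Nat.card_congr (Equiv.ofBijective β ⟨?_, ?_⟩)
  · rintro (p | p) (q | q) h
    · rw [Subtype.ext (i1 (congrArg Subtype.val h))]
    · exact absurd (congrArg Subtype.val h) (hd _ _)
    · exact absurd (congrArg Subtype.val h).symm (hd _ _)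
    · rw [Subtype.ext (i2 (congrArg Subtype.val h))]
  · rintro ⟨x, h1, h2⟩
    rcases (hm x).mp h1 with ⟨p, rfl⟩ | ⟨p, rfl⟩
    · exact ⟨Sum.inl ⟨p, h2⟩, rfl⟩
    · exact ⟨Sum.inr ⟨p, h2⟩, rfl⟩

/-! ### the successor -/

private lemma nx_reach {i : ℕ} (s s' : Fin i) : ∃ k : ℕ, (nx (i := i))^[k] s = s' := by
  cases i with
  | zero => exact s.elim0
  | succ n =>
    have h : ∀ k : ℕ, ((nx (i := n + 1))^[k] s).val = (s.val + k) % (n + 1) := by
      intro k
      induction k with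
      | zero => exact (Nat.mod_eq_of_lt s.isLt).symm
      | succ k ih =>
        rw [Function.iterate_succ_apply']
        unfold nx at ih ⊢
        rw [finRotate_apply, Fin.val_add, ih, Fin.val_one', Nat.add_mod_mod, Nat.mod_add_mod]
        rfl
    refine ⟨s'.val + (n + 1) - s.val, Fin.ext ?_⟩
    have h1 := s.isLt
    have h2 := s'.isLt
    rw [h, show s.val + (s'.val + (n + 1) - s.val) = s'.val + (n + 1) by omega, Nat.add_mod_right,
      Nat.mod_eq_of_lt h2]

section nxs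

variable {r : ℕ} {l : Fin r → ℕ}

private lemma nxs_inj : Function.Injective (nxs : Ix l → Ix l) := by
  rintro ⟨t, s⟩ ⟨t', s'⟩ h
  unfold nxs at h
  simp only [Sigma.mk.injEq] at h
  obtain ⟨rfl, h⟩ := h
  have h1 := (finRotate (l t)).injective (eq_of_heq h)
  rw [h1]

private lemma nxs_it (t : Fin r) (s : Fin (l t)) (k : ℕ) :
    (nxs (l := l))^[k] ⟨t, s⟩ = ⟨t, (nx (i := l t))^[k] s⟩ := by
  induction k with
  | zero => rfl
  | succ k ih =>
    rw [Function.iterate_succ_apply', ih, Function.iterate_succ_apply']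
    rfl

private lemma nxs_fst (p : Ix l) (k : ℕ) : ((nxs (l := l))^[k] p).1 = p.1 := by
  obtain ⟨t, s⟩ := p
  rw [nxs_it]

/-! ### the number of runs -/

variable (χ : Ix l → Bool) (c : Bool)

private lemma chi_out (p : Ix l) : χ (Quot.out (Quot.mk (rn χ) p)) = χ p := by
  have h : ∀ q q', rn χ q q' → χ q = χ q' := fun q q' h => h.2
  exact congrArg (Quot.lift χ h) (Quot.out_eq (Quot.mk (rn χ) p))

/-- the end of the run of `p` (if there is one), and the cycle of `p` -/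
private noncomputable def en (p : Ix l) : Option (Ix l) × Fin r :=
  (if h : χ p = c ∧ ∃ k, χ ((nxs (l := l))^[k + 1] p) ≠ c then some ((nxs (l := l))^[Nat.find h.2] p) else none, p.1)

private lemma en_rn (p q : Ix l) (h : rn χ p q) : en χ c p = en χ c q := by
  obtain ⟨rfl, h⟩ := h
  unfold en
  refine Prod.ext ?_ rfl
  change (dite _ _ _ : Option (Ix l)) = dite _ _ _
  by_cases hc : χ p = c
  · by_cases h1 : ∃ k, χ ((nxs (l := l))^[k + 1] p) ≠ c
    · have h2 : ∃ k, χ ((nxs (l := l))^[k + 1] (nxs p)) ≠ c := by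
        obtain ⟨k, hk⟩ := h1
        cases k with
        | zero =>
          exfalso
          exact hk (h.symm.trans hc)
        | succ k => exact ⟨k, hk⟩
      rw [dif_pos ⟨hc, h1⟩, dif_pos ⟨h.symm.trans hc, h2⟩]
      have h3 : Nat.find h1 = Nat.find h2 + 1 := by
        refine Nat.find_comp_succ h1 h2 ?_
        intro h4
        exact h4 (h.symm.trans hc)
      rw [h3]
      rfl
    · have h2 : ¬ ∃ k, χ ((nxs (l := l))^[k + 1] (nxs p)) ≠ c := by
        rintro ⟨k, hk⟩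
        exact h1 ⟨k + 1, hk⟩
      rw [dif_neg (fun h3 => h1 h3.2), dif_neg (fun h3 => h2 h3.2)]
  · rw [dif_neg (fun h3 => hc h3.1), dif_neg (fun h3 => hc (h.trans h3.1))]

private lemma mk_it (p : Ix l) (k : ℕ) (h : ∀ j ≤ k, χ ((nxs (l := l))^[j] p) = c) :
    Quot.mk (rn χ) p = Quot.mk (rn χ) ((nxs (l := l))^[k] p) := by
  induction k with
  | zero => rfl
  | succ k ih =>
    rw [ih (fun j hj => h j (by omega)), Function.iterate_succ_apply']
    refine Quot.sound ⟨rfl, ?_⟩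
    rw [h k (by omega), ← Function.iterate_succ_apply' (f := nxs (l := l)), h (k + 1) le_rfl]

private lemma kc_card (hl : ∀ t, 1 ≤ l t) :
    Nat.card {K : Quot (rn χ) // χ (Quot.out K) = c} =
      Nat.card {p : Ix l // χ p = c ∧ χ (nxs p) ≠ c} +
        Nat.card {t : Fin r // ∀ s : Fin (l t), χ ⟨t, s⟩ = c} := by
  rw [← Nat.card_sum]
  symm
  let β : {p : Ix l // χ p = c ∧ χ (nxs p) ≠ c} ⊕ {t : Fin r // ∀ s : Fin (l t), χ ⟨t, s⟩ = c} →
      {K : Quot (rn χ) // χ (Quot.out K) = c} := fun x => match x with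
    | Sum.inl p => ⟨Quot.mk _ p.1, (chi_out χ p.1).trans p.2.1⟩
    | Sum.inr t => ⟨Quot.mk _ ⟨t.1, ⟨0, hl t.1⟩⟩, (chi_out χ _).trans (t.2 _)⟩
  let g : Quot (rn χ) → Option (Ix l) × Fin r := Quot.lift (en χ c) (en_rn χ c)
  have g1 : ∀ p : {p : Ix l // χ p = c ∧ χ (nxs p) ≠ c}, g (β (Sum.inl p)).1 = (some p.1, p.1.1) := by
    intro p
    change en χ c p.1 = _
    unfold en
    have h : χ p.1 = c ∧ ∃ k, χ ((nxs (l := l))^[k + 1] p.1) ≠ c := ⟨p.2.1, 0, p.2.2⟩
    rw [dif_pos h]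
    have h0 : Nat.find h.2 = 0 := by
      rw [Nat.find_eq_zero]
      exact p.2.2
    rw [h0]
    rfl
  have g2 : ∀ t : {t : Fin r // ∀ s : Fin (l t), χ ⟨t, s⟩ = c}, g (β (Sum.inr t)).1 = (none, t.1) := by
    intro t
    change en χ c ⟨t.1, ⟨0, hl t.1⟩⟩ = _
    unfold en
    rw [dif_neg]
    rintro ⟨_, k, hk⟩
    rw [nxs_it] at hk
    exact hk (t.2 _)
  refine Nat.card_congr (Equiv.ofBijective β ⟨?_, ?_⟩)
  · rintro (p | t) (q | u) h
    · have h1 := congrArg (fun K : {K : Quot (rn χ) // χ (Quot.out K) = c} => g K.1) h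
      simp only [g1] at h1
      have h2 : p.1 = q.1 := Option.some_injective _ (congrArg Prod.fst h1)
      rw [Subtype.ext h2]
    · have h1 := congrArg (fun K : {K : Quot (rn χ) // χ (Quot.out K) = c} => g K.1) h
      simp only [g1, g2] at h1
      exact absurd (congrArg Prod.fst h1) (by simp)
    · have h1 := congrArg (fun K : {K : Quot (rn χ) // χ (Quot.out K) = c} => g K.1) h
      simp only [g1, g2] at h1
      exact absurd (congrArg Prod.fst h1) (by simp)
    · have h1 := congrArg (fun K : {K : Quot (rn χ) // χ (Quot.out K) = c} => g K.1) h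
      simp only [g2] at h1
      have h2 : t.1 = u.1 := congrArg Prod.snd h1
      rw [Subtype.ext h2]
  · rintro ⟨K, hK⟩
    have hq : Quot.mk (rn χ) (Quot.out K) = K := Quot.out_eq K
    set q := Quot.out K with hqdef
    by_cases h : ∃ k, χ ((nxs (l := l))^[k + 1] q) ≠ c
    · have hmin : ∀ j < Nat.find h, χ ((nxs (l := l))^[j + 1] q) = c := by
        intro j hj
        have := Nat.find_min h hj
        push Not at this
        exact this
      have hall : ∀ j ≤ Nat.find h, χ ((nxs (l := l))^[j] q) = c := by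
        intro j hj
        cases j with
        | zero => exact hK
        | succ j => exact hmin j (by omega)
      refine ⟨Sum.inl ⟨(nxs (l := l))^[Nat.find h] q, hall _ le_rfl, ?_⟩, ?_⟩
      · have := Nat.find_spec h
        rwa [Function.iterate_succ_apply'] at this
      · apply Subtype.ext
        change Quot.mk (rn χ) ((nxs (l := l))^[Nat.find h] q) = K
        rw [← mk_it χ c q _ hall, hq]
    · push Not at h
      have hall : ∀ j, χ ((nxs (l := l))^[j] q) = c := by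
        intro j
        cases j with
        | zero => exact hK
        | succ j => exact h j
      have hm : ∀ s : Fin (l q.1), ∃ k, (nxs (l := l))^[k] q = ⟨q.1, s⟩ := by
        intro s
        obtain ⟨k, hk⟩ := nx_reach q.2 s
        refine ⟨k, ?_⟩
        have h3 := nxs_it q.1 q.2 k
        rw [hk] at h3
        exact h3
      refine ⟨Sum.inr ⟨q.1, ?_⟩, ?_⟩
      · intro s
        obtain ⟨k, hk⟩ := hm s
        rw [← hk]
        exact hall k
      · apply Subtype.ext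
        change Quot.mk (rn χ) ⟨q.1, ⟨0, hl q.1⟩⟩ = K
        obtain ⟨k, hk⟩ := hm ⟨0, hl q.1⟩
        rw [← hk, ← mk_it χ c q k (fun j _ => hall j), hq]

private lemma cc_eq : cc χ c = sm χ c + Nat.card {p : Ix l // χ p = c ∧ χ (nxs p) ≠ c} := by
  unfold cc sm
  rw [Nat.card_eq_fintype_card, Fintype.card_subtype,
    ← Finset.card_filter_add_card_filter_not (s := univ.filter fun p => χ p = c) (fun p => χ (nxs p) = c),
    Finset.filter_filter, Finset.filter_filter]

end nxs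

/-! ### the union of the cycles -/

section main

variable {V : Type} {r : ℕ} {l : Fin r → ℕ}

private structure Dat (v : Ix l → V) (a b : Ix l → Fin 3) (U : Pt V → Pt V) : Prop where
  inj : Function.Injective v
  ab : ∀ p, a p ≠ b p
  fb : ∀ p, U (v p, b p) = (v (nxs p), a (nxs p))
  fa : ∀ p, U (v (nxs p), a (nxs p)) = (v p, b p)
  fx : ∀ x, (∀ p, x ≠ (v p, b p)) → (∀ p, x ≠ (v (nxs p), a (nxs p))) → U x = x

variable {v : Ix l → V} {a b : Ix l → Fin 3} {U : Pt V → Pt V}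

private lemma Dat.i1 (D : Dat v a b U) : Function.Injective (fun p => (v p, b p)) :=
  fun _ _ h => D.inj (congrArg Prod.fst h)

private lemma Dat.i2 (D : Dat v a b U) : Function.Injective (fun p => (v (nxs p), a (nxs p))) :=
  fun _ _ h => nxs_inj (D.inj (congrArg Prod.fst h))

private lemma Dat.hd (D : Dat v a b U) (p q : Ix l) : (v p, b p) ≠ (v (nxs q), a (nxs q)) := by
  intro h
  have h1 : p = nxs q := D.inj (congrArg Prod.fst h)
  have h2 : b p = a (nxs q) := congrArg Prod.snd h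
  rw [← h1] at h2
  exact D.ab p h2.symm

private lemma Dat.nb (D : Dat v a b U) (p : Ix l) : U (v p, b p) ≠ (v p, b p) := by
  rw [D.fb]
  exact (D.hd p p).symm

private lemma Dat.na (D : Dat v a b U) (p : Ix l) :
    U (v (nxs p), a (nxs p)) ≠ (v (nxs p), a (nxs p)) := by
  rw [D.fa]
  exact D.hd p p

private lemma Dat.hm (D : Dat v a b U) (x : Pt V) :
    U x ≠ x ↔ (∃ p, (fun p => (v p, b p)) p = x) ∨ ∃ p, (fun p => (v (nxs p), a (nxs p))) p = x := by
  constructor
  · intro h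
    by_contra h1
    push Not at h1
    exact h (D.fx x (fun p hp => h1.1 p hp.symm) (fun p hp => h1.2 p hp.symm))
  · rintro (⟨p, rfl⟩ | ⟨p, rfl⟩)
    · exact D.nb p
    · exact D.na p

variable (A : Finset V) (χ : Ix l → Bool) (c : Bool)

private lemma fI_eq [Fintype V] (D : Dat v a b U) (hχ : ∀ p, χ p = c ↔ v p ∈ A) :
    fI U A = 2 * sm χ c := by
  unfold fI sm
  rw [mv_rs, cf, cnt_moved U _ _ D.i1 D.i2 D.hd D.hm (fun x => x.1 ∈ A ∧ (U x).1 ∈ A), two_mul]
  congr 1
  · refine Nat.card_congr (Equiv.subtypeEquivRight ?_)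
    intro p
    change (v p ∈ A ∧ (U (v p, b p)).1 ∈ A) ↔ _
    rw [D.fb, hχ, hχ]
  · refine Nat.card_congr (Equiv.subtypeEquivRight ?_)
    intro p
    change (v (nxs p) ∈ A ∧ (U (v (nxs p), a (nxs p))).1 ∈ A) ↔ _
    rw [D.fa, hχ, hχ]
    exact and_comm

private lemma fX_eq [Fintype V] (D : Dat v a b U) (hχ : ∀ p, χ p = c ↔ v p ∈ A) :
    fX U A = ch χ := by
  unfold fX ch
  rw [cf, cf]
  have h1 : Nat.card {x : Pt V // x.1 ∈ A ∧ (U x).1 ∉ A} =
      Nat.card {x : Pt V // U x ≠ x ∧ (x.1 ∈ A ∧ (U x).1 ∉ A)} := by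
    refine Nat.card_congr (Equiv.subtypeEquivRight ?_)
    intro x
    constructor
    · rintro ⟨h1, h2⟩
      refine ⟨?_, h1, h2⟩
      intro h3
      rw [h3] at h2
      exact h2 h1
    · rintro ⟨_, h⟩
      exact h
  rw [h1, cnt_moved U _ _ D.i1 D.i2 D.hd D.hm (fun x => x.1 ∈ A ∧ (U x).1 ∉ A), ← Nat.card_sum]
  have e1 : ∀ p, (v p ∈ A ∧ (U (v p, b p)).1 ∉ A) ↔ (χ p = c ∧ χ (nxs p) ≠ c) := by
    intro p
    rw [D.fb]
    change (v p ∈ A ∧ ¬ v (nxs p) ∈ A) ↔ _
    rw [← hχ, ← hχ]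
  have e2 : ∀ p, (v (nxs p) ∈ A ∧ (U (v (nxs p), a (nxs p))).1 ∉ A) ↔ (χ (nxs p) = c ∧ χ p ≠ c) := by
    intro p
    rw [D.fa]
    change (v (nxs p) ∈ A ∧ ¬ v p ∈ A) ↔ _
    rw [← hχ, ← hχ]
  have e3 : ∀ x y : Bool, x ≠ y ↔ (x = c ∧ y ≠ c) ∨ (y = c ∧ x ≠ c) := by
    cases c <;> decide
  let β : {p // v p ∈ A ∧ (U (v p, b p)).1 ∉ A} ⊕
      {p // v (nxs p) ∈ A ∧ (U (v (nxs p), a (nxs p))).1 ∉ A} → {p // χ p ≠ χ (nxs p)} :=
    fun y => match y with
    | Sum.inl p => ⟨p.1, (e3 _ _).mpr (Or.inl ((e1 _).mp p.2))⟩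
    | Sum.inr p => ⟨p.1, (e3 _ _).mpr (Or.inr ((e2 _).mp p.2))⟩
  refine Nat.card_congr (Equiv.ofBijective β ⟨?_, ?_⟩)
  · rintro (p | p) (q | q) h
    · have h2 := congrArg (fun z : {p : Ix l // χ p ≠ χ (nxs p)} => z.1) h
      rw [Subtype.ext (show p.1 = q.1 from h2)]
    · have h2 : p.1 = q.1 := congrArg Subtype.val h
      exact absurd ((e1 _).mp p.2).1 (h2 ▸ ((e2 _).mp q.2).2)
    · have h2 : p.1 = q.1 := congrArg Subtype.val h
      exact absurd ((e1 _).mp q.2).1 (h2 ▸ ((e2 _).mp p.2).2)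
    · have h2 := congrArg (fun z : {p : Ix l // χ p ≠ χ (nxs p)} => z.1) h
      rw [Subtype.ext (show p.1 = q.1 from h2)]
  · rintro ⟨p, hp⟩
    rcases (e3 _ _).mp hp with h | h
    · exact ⟨Sum.inl ⟨p, (e1 p).mpr h⟩, rfl⟩
    · exact ⟨Sum.inr ⟨p, (e2 p).mpr h⟩, rfl⟩

/-! ### the components -/

/-- the target of the classification of the components -/
private abbrev Tg (v : Ix l → V) (A : Finset V) (χ : Ix l → Bool) (c : Bool) : Type :=
  {u : V // u ∈ A ∧ ∀ p, v p ≠ u} ⊕ {K : Quot (rn χ) // χ (Quot.out K) = c}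

private noncomputable def ph (hχ : ∀ p, χ p = c ↔ v p ∈ A) (u : {u : V // u ∈ A}) : Tg v A χ c :=
  if h : ∃ p, v p = u.1 then Sum.inr ⟨Quot.mk _ h.choose, (chi_out χ _).trans ((hχ _).mpr (by
    rw [h.choose_spec]
    exact u.2))⟩
  else Sum.inl ⟨u.1, u.2, fun p hp => h ⟨p, hp⟩⟩

private lemma ph_v (hv : Function.Injective v) (hχ : ∀ p, χ p = c ↔ v p ∈ A) (p : Ix l) (hp : v p ∈ A) :
    ph A χ c hχ ⟨v p, hp⟩ = Sum.inr ⟨Quot.mk _ p, (chi_out χ p).trans ((hχ p).mpr hp)⟩ := by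
  unfold ph
  have h : ∃ q, v q = (⟨v p, hp⟩ : {u : V // u ∈ A}).1 := ⟨p, rfl⟩
  rw [dif_pos h]
  have h1 : h.choose = p := hv h.choose_spec
  congr 1
  apply Subtype.ext
  change Quot.mk _ h.choose = Quot.mk _ p
  rw [h1]

private lemma ph_n (hχ : ∀ p, χ p = c ↔ v p ∈ A) (u : {u : V // u ∈ A}) (h : ∀ p, v p ≠ u.1) :
    ph A χ c hχ u = Sum.inl ⟨u.1, u.2, h⟩ := by
  unfold ph
  rw [dif_neg]
  rintro ⟨p, hp⟩
  exact h p hp

private lemma ph_lk (D : Dat v a b U) (hχ : ∀ p, χ p = c ↔ v p ∈ A) (x : {x : Pt V // x.1 ∈ A}) :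
    ph A χ c hχ (bl Prod.fst A x) =
      ph A χ c hχ (bl Prod.fst A (rs (fun x : Pt V => x.1 ∈ A) U x)) := by
  by_cases hx : rs (fun x : Pt V => x.1 ∈ A) U x = x
  · rw [hx]
  · obtain ⟨h1, h2⟩ := (rs_ne _ _ _).mp hx
    rw [rs_pos _ _ _ h1]
    obtain ⟨x, hxA⟩ := x
    rcases (D.hm x).mp h2 with ⟨p, rfl⟩ | ⟨p, rfl⟩
    · have h4 : U (v p, b p) = (v (nxs p), a (nxs p)) := D.fb p
      have h5 : v (nxs p) ∈ A := by
        have : (U (v p, b p)).1 ∈ A := h1
        rwa [h4] at this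
      have e1 : bl Prod.fst A (⟨U (v p, b p), h1⟩ : {x : Pt V // x.1 ∈ A}) = ⟨v (nxs p), h5⟩ :=
        Subtype.ext (congrArg Prod.fst h4)
      change ph A χ c hχ ⟨v p, hxA⟩ = ph A χ c hχ (bl Prod.fst A (⟨U (v p, b p), h1⟩ : {x : Pt V // x.1 ∈ A}))
      rw [e1, ph_v A χ c D.inj hχ, ph_v A χ c D.inj hχ]
      congr 1
      apply Subtype.ext
      exact Quot.sound ⟨rfl, ((hχ p).mpr hxA).trans ((hχ (nxs p)).mpr h5).symm⟩
    · have h4 : U (v (nxs p), a (nxs p)) = (v p, b p) := D.fa p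
      have h5 : v p ∈ A := by
        have : (U (v (nxs p), a (nxs p))).1 ∈ A := h1
        rwa [h4] at this
      have e1 : bl Prod.fst A (⟨U (v (nxs p), a (nxs p)), h1⟩ : {x : Pt V // x.1 ∈ A}) = ⟨v p, h5⟩ :=
        Subtype.ext (congrArg Prod.fst h4)
      change ph A χ c hχ ⟨v (nxs p), hxA⟩ =
        ph A χ c hχ (bl Prod.fst A (⟨U (v (nxs p), a (nxs p)), h1⟩ : {x : Pt V // x.1 ∈ A}))
      rw [e1, ph_v A χ c D.inj hχ, ph_v A χ c D.inj hχ]
      congr 1
      apply Subtype.ext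
      exact (Quot.sound ⟨rfl, ((hχ p).mpr h5).trans ((hχ (nxs p)).mpr hxA).symm⟩).symm

private noncomputable def cmE (D : Dat v a b U) (hχ : ∀ p, χ p = c ↔ v p ∈ A) :
    Cm (bl Prod.fst A) (rs (fun x : Pt V => x.1 ∈ A) U) ≃ Tg v A χ c :=
  Equiv.ofBijective (Quot.lift (ph A χ c hχ) (by
    rintro u w ⟨x, rfl, rfl⟩
    exact ph_lk A χ c D hχ x)) (by
    constructor
    · -- injective
      let G : Quot (rn χ) → Option (Cm (bl Prod.fst A) (rs (fun x : Pt V => x.1 ∈ A) U)) :=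
        Quot.lift (fun p => if h : v p ∈ A then some (Quot.mk _ ⟨v p, h⟩) else none) (by
          rintro p q ⟨rfl, hpq⟩
          by_cases h : v p ∈ A
          · have h' : v (nxs p) ∈ A := by
              rw [← hχ] at h ⊢
              exact hpq.symm.trans h
            rw [dif_pos h, dif_pos h']
            congr 1
            refine Quot.sound ⟨⟨(v p, b p), h⟩, rfl, ?_⟩
            have h1 : (U (v p, b p)).1 ∈ A := by
              rw [D.fb]
              exact h'
            rw [rs_pos (fun x : Pt V => x.1 ∈ A) U ⟨(v p, b p), h⟩ h1]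
            exact Subtype.ext (congrArg Prod.fst (D.fb p))
          · have h' : ¬ v (nxs p) ∈ A := by
              rw [← hχ] at h ⊢
              exact fun h2 => h (hpq.trans h2)
            rw [dif_neg h, dif_neg h'])
      intro K K' hK
      induction K using Quot.ind with
      | mk u =>
      induction K' using Quot.ind with
      | mk w =>
        change ph A χ c hχ u = ph A χ c hχ w at hK
        by_cases hu : ∃ p, v p = u.1
        · by_cases hw : ∃ p, v p = w.1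
          · obtain ⟨p, hp⟩ := hu
            obtain ⟨q, hq⟩ := hw
            obtain ⟨u, hu⟩ := u
            obtain ⟨w, hw⟩ := w
            subst hp
            subst hq
            rw [ph_v A χ c D.inj hχ, ph_v A χ c D.inj hχ] at hK
            have h1 : Quot.mk (rn χ) p = Quot.mk (rn χ) q := congrArg Subtype.val (Sum.inr_injective hK)
            have h2 := congrArg G h1
            change (dite _ _ _ : Option _) = dite _ _ _ at h2
            rw [dif_pos hu, dif_pos hw] at h2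
            exact Option.some_injective _ h2
          · push Not at hw
            obtain ⟨p, hp⟩ := hu
            obtain ⟨u, hu⟩ := u
            subst hp
            rw [ph_v A χ c D.inj hχ, ph_n A χ c hχ w hw] at hK
            exact absurd hK (by simp)
        · push Not at hu
          by_cases hw : ∃ p, v p = w.1
          · obtain ⟨q, hq⟩ := hw
            obtain ⟨w, hw⟩ := w
            subst hq
            rw [ph_v A χ c D.inj hχ, ph_n A χ c hχ u hu] at hK
            exact absurd hK (by simp)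
          · push Not at hw
            rw [ph_n A χ c hχ u hu, ph_n A χ c hχ w hw] at hK
            have h0 := Sum.inl_injective hK
            have h1 : u.1 = w.1 := congrArg (fun z => z.1) h0
            rw [Subtype.ext h1]
    · -- surjective
      rintro (⟨u, hu, hu'⟩ | ⟨K, hK⟩)
      · refine ⟨Quot.mk _ ⟨u, hu⟩, ?_⟩
        exact ph_n A χ c hχ ⟨u, hu⟩ hu'
      · have h1 : v (Quot.out K) ∈ A := (hχ _).mp hK
        refine ⟨Quot.mk _ ⟨v (Quot.out K), h1⟩, ?_⟩
        change ph A χ c hχ ⟨v (Quot.out K), h1⟩ = _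
        rw [ph_v A χ c D.inj hχ]
        congr 1
        exact Subtype.ext (Quot.out_eq K))

private lemma cmE_mk (D : Dat v a b U) (hχ : ∀ p, χ p = c ↔ v p ∈ A) (u : {u : V // u ∈ A}) :
    cmE A χ c D hχ (Quot.mk _ u) = ph A χ c hχ u := rfl

/-! ### free points of a component -/

private lemma third : ∀ x y : Fin 3, x ≠ y → (-(x + y) ≠ x ∧ -(x + y) ≠ y ∧
    ∀ z, z ≠ x → z ≠ y → z = -(x + y)) := by decide

private lemma Dat.fxv (D : Dat v a b U) (p : Ix l) (j : Fin 3) (ha : j ≠ a p) (hb : j ≠ b p) :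
    U (v p, j) = (v p, j) := by
  refine D.fx _ ?_ ?_
  · intro q hq
    have h1 : p = q := D.inj (congrArg Prod.fst hq)
    subst h1
    exact hb (congrArg Prod.snd hq)
  · intro q hq
    have h1 : p = nxs q := D.inj (congrArg Prod.fst hq)
    subst h1
    exact ha (congrArg Prod.snd hq)

private lemma nxs_surj (p : Ix l) : ∃ q, nxs q = p := by
  refine ⟨⟨p.1, (finRotate (l p.1)).symm p.2⟩, ?_⟩
  change (⟨p.1, finRotate (l p.1) ((finRotate (l p.1)).symm p.2)⟩ : Ix l) = p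
  rw [Equiv.apply_symm_apply]

private lemma Dat.fxr (D : Dat v a b U) (p : Ix l) (j : Fin 3) (h : U (v p, j) = (v p, j)) :
    j ≠ a p ∧ j ≠ b p := by
  constructor
  · rintro rfl
    obtain ⟨q, rfl⟩ := nxs_surj p
    exact D.na q h
  · rintro rfl
    exact D.nb p h

private lemma DK_inl [Fintype V] (D : Dat v a b U) (hχ : ∀ p, χ p = c ↔ v p ∈ A)
    (K : Cm (bl Prod.fst A) (rs (fun x : Pt V => x.1 ∈ A) U)) (u : {u : V // u ∈ A ∧ ∀ p, v p ≠ u})
    (hK : cmE A χ c D hχ K = Sum.inl u) : DK U A K = 3 := by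
  unfold DK
  rw [cf]
  refine Eq.trans ?_ (Nat.card_fin 3)
  symm
  have hfix : ∀ j, U (u.1, j) = (u.1, j) := by
    intro j
    refine D.fx _ ?_ ?_
    · intro q hq
      exact u.2.2 q (congrArg Prod.fst hq).symm
    · intro q hq
      exact u.2.2 (nxs q) (congrArg Prod.fst hq).symm
  refine Nat.card_congr (Equiv.ofBijective (fun j => ⟨⟨(u.1, j), u.2.1⟩, hfix j, ?_⟩) ⟨?_, ?_⟩)
  · apply (cmE A χ c D hχ).injective
    rw [hK]
    exact ph_n A χ c hχ ⟨u.1, u.2.1⟩ u.2.2
  · intro j j' h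
    exact congrArg (fun z => z.1.1.2) h
  · rintro ⟨⟨⟨w, j⟩, hw⟩, h1, h2⟩
    refine ⟨j, ?_⟩
    have h3 : ph A χ c hχ ⟨w, hw⟩ = Sum.inl u := by
      rw [← hK, ← h2]
      rfl
    have h4 : w = u.1 := by
      by_cases h5 : ∃ p, v p = w
      · obtain ⟨p, rfl⟩ := h5
        rw [ph_v A χ c D.inj hχ] at h3
        exact absurd h3 (by simp)
      · push Not at h5
        rw [ph_n A χ c hχ ⟨w, hw⟩ h5] at h3
        exact congrArg Subtype.val (Sum.inl_injective h3)
    subst h4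
    rfl

private lemma DK_inr [Fintype V] (D : Dat v a b U) (hχ : ∀ p, χ p = c ↔ v p ∈ A)
    (K : Cm (bl Prod.fst A) (rs (fun x : Pt V => x.1 ∈ A) U)) (K1 : {K : Quot (rn χ) // χ (Quot.out K) = c})
    (hK : cmE A χ c D hχ K = Sum.inr K1) :
    DK U A K = (univ.filter fun p => (Quot.mk (rn χ) p) = K1.1).card := by
  unfold DK
  rw [cf, cf]
  symm
  have hc : ∀ p, Quot.mk (rn χ) p = K1.1 → v p ∈ A := by
    intro p hp
    rw [← hχ, ← chi_out χ p, hp]
    exact K1.2
  refine Nat.card_congr (Equiv.ofBijective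
    (fun p => ⟨⟨(v p.1, -(a p.1 + b p.1)), hc p.1 p.2⟩,
      D.fxv p.1 _ (third _ _ (D.ab p.1)).1 (third _ _ (D.ab p.1)).2.1, ?_⟩) ⟨?_, ?_⟩)
  · apply (cmE A χ c D hχ).injective
    rw [hK]
    refine (ph_v A χ c D.inj hχ p.1 (hc p.1 p.2)).trans ?_
    congr 1
    exact Subtype.ext p.2
  · intro p q h
    exact Subtype.ext (D.inj (congrArg (fun z => z.1.1.1) h))
  · rintro ⟨⟨⟨w, j⟩, hw⟩, h1, h2⟩
    have h3 : ph A χ c hχ ⟨w, hw⟩ = Sum.inr K1 := by
      rw [← hK, ← h2]
      rfl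
    by_cases h5 : ∃ p, v p = w
    · obtain ⟨p, rfl⟩ := h5
      rw [ph_v A χ c D.inj hχ] at h3
      have h6 : Quot.mk (rn χ) p = K1.1 := congrArg Subtype.val (Sum.inr_injective h3)
      refine ⟨⟨p, h6⟩, ?_⟩
      have h7 := D.fxr p j h1
      have h8 := (third _ _ (D.ab p)).2.2 j h7.1 h7.2
      apply Subtype.ext
      apply Subtype.ext
      change (v p, -(a p + b p)) = (v p, j)
      rw [h8]
    · push Not at h5
      rw [ph_n A χ c hχ ⟨w, hw⟩ h5] at h3
      exact absurd h3 (by simp)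

private lemma out_card [Fintype V] (D : Dat v a b U) (hχ : ∀ p, χ p = c ↔ v p ∈ A) :
    Nat.card {u : V // u ∈ A ∧ ∀ p, v p ≠ u} + cc χ c = A.card := by
  have h1 : cc χ c = Nat.card {u : V // u ∈ A ∧ ∃ p, v p = u} := by
    unfold cc
    rw [cf]
    refine Nat.card_congr (Equiv.ofBijective (fun p => ⟨v p.1, (hχ _).mp p.2, p.1, rfl⟩) ⟨?_, ?_⟩)
    · intro p q h
      exact Subtype.ext (D.inj (congrArg (fun z => z.1) h))
    · rintro ⟨u, hu, p, rfl⟩
      exact ⟨⟨p, (hχ _).mpr hu⟩, rfl⟩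
  have h2 : A.card = Nat.card {u : V // u ∈ A} := by
    rw [Nat.card_eq_fintype_card, Fintype.card_coe]
  rw [h1, h2, ← Nat.card_sum]
  let β : {u : V // u ∈ A ∧ ∀ p, v p ≠ u} ⊕ {u : V // u ∈ A ∧ ∃ p, v p = u} → {u : V // u ∈ A} :=
    fun y => match y with
    | Sum.inl u => ⟨u.1, u.2.1⟩
    | Sum.inr u => ⟨u.1, u.2.1⟩
  refine Nat.card_congr (Equiv.ofBijective β ⟨?_, ?_⟩)
  · rintro (u | u) (w | w) h
    · have h3 := congrArg (fun z : {u : V // u ∈ A} => z.1) h
      rw [Subtype.ext (show u.1 = w.1 from h3)]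
    · have h3 := congrArg (fun z : {u : V // u ∈ A} => z.1) h
      obtain ⟨p, hp⟩ := w.2.2
      exact absurd (hp.trans (show w.1 = u.1 from h3.symm)) (u.2.2 p)
    · have h3 := congrArg (fun z : {u : V // u ∈ A} => z.1) h
      obtain ⟨p, hp⟩ := u.2.2
      exact absurd (hp.trans (show u.1 = w.1 from h3)) (w.2.2 p)
    · have h3 := congrArg (fun z : {u : V // u ∈ A} => z.1) h
      rw [Subtype.ext (show u.1 = w.1 from h3)]
  · rintro ⟨u, hu⟩
    by_cases h : ∃ p, v p = u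
    · exact ⟨Sum.inr ⟨u, hu, h⟩, rfl⟩
    · push Not at h
      exact ⟨Sum.inl ⟨u, hu, h⟩, rfl⟩

private lemma nc_eq [Fintype V] (D : Dat v a b U) (hχ : ∀ p, χ p = c ↔ v p ∈ A) (hl : ∀ t, 1 ≤ l t) :
    nc (bl Prod.fst A) (rs (fun x : Pt V => x.1 ∈ A) U) =
      Nat.card {u : V // u ∈ A ∧ ∀ p, v p ≠ u} +
        (Nat.card {p : Ix l // χ p = c ∧ χ (nxs p) ≠ c} +
          Nat.card {t : Fin r // ∀ s : Fin (l t), χ ⟨t, s⟩ = c}) := by
  unfold nc
  rw [Nat.card_congr (cmE A χ c D hχ), Nat.card_sum, kc_card χ c hl]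

private lemma forest [Fintype V] (D : Dat v a b U) (hχ : ∀ p, χ p = c ↔ v p ∈ A) (hl : ∀ t, 1 ≤ l t)
    (hU : Inv U) : For (bl Prod.fst A) (rs (fun x : Pt V => x.1 ∈ A) U) ↔
      ¬ ∃ t, ∀ s : Fin (l t), χ ⟨t, s⟩ = c := by
  have h1 := fI_eq A χ c D hχ
  have h2 := nc_eq A χ c D hχ hl
  have h3 := cc_eq χ c
  have h4 := out_card A χ c D hχ
  unfold fI at h1
  have h5 : Nat.card {t : Fin r // ∀ s : Fin (l t), χ ⟨t, s⟩ = c} = 0 ↔
      ¬ ∃ t, ∀ s : Fin (l t), χ ⟨t, s⟩ = c := by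
    rw [Finite.card_eq_zero_iff, isEmpty_subtype]
    push Not
    rfl
  rw [← h5]
  unfold For
  rw [h1, h2]
  have h6 : Fintype.card {u : V // u ∈ A} = A.card := Fintype.card_coe A
  constructor
  · rintro ⟨_, h7⟩
    rw [h6] at h7
    omega
  · intro h7
    refine ⟨rs_inv _ _ hU, ?_⟩
    rw [h6]
    omega

private lemma prodDK [Fintype V] (D : Dat v a b U) (hχ : ∀ p, χ p = c ↔ v p ∈ A) :
    ∏ K, DK U A K = 3 ^ (A.card - cc χ c) *
      ∏ K ∈ univ.filter (fun K : Quot (rn χ) => χ (Quot.out K) = c),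
        (univ.filter fun p => (Quot.mk (rn χ) p) = K).card := by
  rw [Fintype.prod_equiv (cmE A χ c D hχ) (fun K => DK U A K)
    (Sum.elim (fun _ => 3) (fun K1 => (univ.filter fun p => (Quot.mk (rn χ) p) = K1.1).card)) ?_]
  · rw [Fintype.prod_sum_type]
    congr 1
    · simp only [Sum.elim_inl, Finset.prod_const, Finset.card_univ]
      congr 1
      have h4 := out_card A χ c D hχ
      rw [Nat.card_eq_fintype_card] at h4
      omega
    · simp only [Sum.elim_inr]
      rw [Finset.prod_subtype (univ.filter fun K : Quot (rn χ) => χ (Quot.out K) = c)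
        (p := fun K => χ (Quot.out K) = c) (fun K => by rw [mem_filter]; exact ⟨fun h => h.2, fun h => ⟨mem_univ _, h⟩⟩)]
  · intro K
    rcases hK : cmE A χ c D hχ K with u | K1
    · exact DK_inl A χ c D hχ K u hK
    · exact DK_inr A χ c D hχ K K1 hK

end main

end cyQX

theorem p_cyQ (h1 : S_cyv) (_h2 : S_cyb) (h3 : S_und) : S_cyQ := by
  intro V _ r l hl F hF
  obtain ⟨hInv, _, hmov, hfix, _⟩ := h3 V r l F hl hF
  unfold dtu at hF
  rw [mem_filter] at hF
  obtain ⟨_, hF1, hF2⟩ := hF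
  have hd : ∀ t, ∃ (v : Fin (l t) → V) (a b : Fin (l t) → Fin 3),
      Function.Injective v ∧ (∀ t, a t ≠ b t) ∧ F t = cyF v a b := by
    intro t
    have := hF1 t
    unfold cyc at this
    rw [mem_filter] at this
    exact this.2
  choose v0 a0 b0 hinj hab hFeq using hd
  have hv1 : ∀ t s, F t (v0 t s, b0 t s) = (v0 t (nx s), a0 t (nx s)) := by
    intro t s
    rw [hFeq t]
    exact (h1 V (l t) (v0 t) (a0 t) (b0 t) (hinj t) (hab t)).1 s
  have hv2 : ∀ t s, F t (v0 t (nx s), a0 t (nx s)) = (v0 t s, b0 t s) := by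
    intro t s
    rw [hFeq t]
    exact (h1 V (l t) (v0 t) (a0 t) (b0 t) (hinj t) (hab t)).2.1 s
  have hv3 : ∀ t x, (∀ s, x ≠ (v0 t s, b0 t s)) → (∀ s, x ≠ (v0 t s, a0 t s)) → F t x = x := by
    intro t x hx hx'
    rw [hFeq t]
    exact (h1 V (l t) (v0 t) (a0 t) (b0 t) (hinj t) (hab t)).2.2 x hx hx'
  have hne : ∀ t s, (v0 t (nx s), a0 t (nx s)) ≠ (v0 t s, b0 t s) := by
    intro t s h
    have h4 : nx s = s := hinj t (congrArg Prod.fst h)
    have h5 : a0 t (nx s) = b0 t s := congrArg Prod.snd h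
    rw [h4] at h5
    exact hab t s h5
  have htch : ∀ t s, v0 t s ∈ tch (F t) := by
    intro t s
    unfold tch
    rw [mem_filter]
    refine ⟨mem_univ _, b0 t s, ?_⟩
    rw [hv1]
    exact hne t s
  let v : Ix l → V := fun p => v0 p.1 p.2
  let a : Ix l → Fin 3 := fun p => a0 p.1 p.2
  let b : Ix l → Fin 3 := fun p => b0 p.1 p.2
  have hvinj : Function.Injective v := by
    rintro ⟨t, s⟩ ⟨t', s'⟩ h
    by_cases ht : t = t'
    · subst ht
      have h4 : s = s' := hinj t h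
      rw [h4]
    · have h4 := hF2 t t' ht
      rw [Finset.disjoint_left] at h4
      refine absurd ?_ (h4 (htch t s))
      have h5 : v0 t s = v0 t' s' := h
      rw [h5]
      exact htch t' s'
  have D : cyQX.Dat v a b (un F) := by
    refine ⟨hvinj, fun p => hab p.1 p.2, ?_, ?_, ?_⟩
    · intro p
      have h4 : F p.1 (v p, b p) ≠ (v p, b p) := by
        have := hv1 p.1 p.2
        change F p.1 (v0 p.1 p.2, b0 p.1 p.2) ≠ _
        rw [this]
        exact hne p.1 p.2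
      rw [hmov p.1 _ h4]
      exact hv1 p.1 p.2
    · intro p
      have h4 : F p.1 (v (nxs p), a (nxs p)) ≠ (v (nxs p), a (nxs p)) := by
        have := hv2 p.1 p.2
        change F p.1 (v0 p.1 (nx p.2), a0 p.1 (nx p.2)) ≠ _
        rw [this]
        exact (hne p.1 p.2).symm
      rw [hmov p.1 _ h4]
      exact hv2 p.1 p.2
    · intro x hx hx'
      refine hfix x ?_
      intro t
      refine hv3 t x (fun s => hx ⟨t, s⟩) ?_
      intro s
      obtain ⟨q, hq⟩ := cyQX.nxs_surj (⟨t, s⟩ : Ix l)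
      have := hx' q
      rw [hq] at this
      exact this
  refine ⟨v, hvinj, ?_⟩
  intro A χ c hχ
  exact ⟨cyQX.fI_eq A χ c D hχ, cyQX.fX_eq A χ c D hχ, cyQX.forest A χ c D hχ hl hInv,
    cyQX.prodDK A χ c D hχ⟩

end Pool.Agent.ALM
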