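import Pool.Agent.Lib.MP_fc2a59_co.ALM.C.Stm

set_option autoImplicit false

/-!
# Project ALM, piece cyb: basic facts on cycles
-/

namespace Pool.Agent.ALM

open Finset
open scoped Classical

/-- the number of moved points is the cardinality of any set with the right members -/
theorem cybX.mv_eq {X : Type} [Fintype X] (ρ : X → X) (s : Finset X) (h : ∀ x, x ∈ s ↔ ρ x ≠ x) :
    mv ρ = s.card := by
  unfold mv
  congr 1
  ext x
  rw [mem_filter, h x]
  simp only [mem_univ, true_and]

theorem p_cyb (h1 : S_cyv) : S_cyb := by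
  intro V _ i F hi hF
  unfold cyc at hF
  rw [mem_filter] at hF
  obtain ⟨-, v, a, b, hv, hab, rfl⟩ := hF
  obtain ⟨hb, ha, ho⟩ := h1 V i v a b hv hab
  -- the points `(v t, a t)` and `(v t, b t)` are moved
  have hmb : ∀ t, cyF v a b (v t, b t) ≠ (v t, b t) := by
    intro t h
    rw [hb t] at h
    have h2 := Prod.ext_iff.mp h
    have h3 : nx t = t := hv h2.1
    have h4 : a (nx t) = b t := h2.2
    rw [h3] at h4
    exact hab t h4
  have hma' : ∀ t, cyF v a b (v (nx t), a (nx t)) ≠ (v (nx t), a (nx t)) := by
    intro t h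
    rw [ha t] at h
    have h2 := Prod.ext_iff.mp h
    have h3 : t = nx t := hv h2.1
    have h4 : b t = a (nx t) := h2.2
    rw [← h3] at h4
    exact hab t h4.symm
  have hsurj : ∀ t : Fin i, ∃ s, nx s = t := fun t => (finRotate i).surjective t
  have hma : ∀ t, cyF v a b (v t, a t) ≠ (v t, a t) := by
    intro t
    obtain ⟨s, rfl⟩ := hsurj t
    exact hma' s
  have hmv : ∀ x, cyF v a b x ≠ x ↔ (∃ t, (v t, b t) = x) ∨ (∃ t, (v t, a t) = x) := by
    intro x
    constructor
    · intro hx
      by_contra hcon
      push Not at hcon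
      exact hx (ho x (fun t h => hcon.1 t h.symm) (fun t h => hcon.2 t h.symm))
    · rintro (⟨t, rfl⟩ | ⟨t, rfl⟩)
      · exact hmb t
      · exact hma t
  refine ⟨?_, ?_, ?_, ?_⟩
  · intro x
    by_cases hx : cyF v a b x = x
    · rw [hx, hx]
    · rcases (hmv x).mp hx with ⟨t, rfl⟩ | ⟨t, rfl⟩
      · rw [hb t, ha t]
      · obtain ⟨s, rfl⟩ := hsurj t
        rw [ha s, hb s]
  · have hset : mv (cyF v a b) =
        ((univ.image fun t => (v t, b t)) ∪ (univ.image fun t => (v t, a t))).card := by
      refine cybX.mv_eq _ _ fun x => ?_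
      rw [mem_union, mem_image, mem_image]
      have := hmv x
      simp only [mem_univ, true_and]
      exact this.symm
    rw [hset, card_union_of_disjoint, card_image_of_injective, card_image_of_injective, card_univ,
      Fintype.card_fin]
    · omega
    · intro s t hst
      exact hv (Prod.ext_iff.mp hst).1
    · intro s t hst
      exact hv (Prod.ext_iff.mp hst).1
    · rw [disjoint_left]
      intro x hx hy
      rw [mem_image] at hx hy
      obtain ⟨s, -, rfl⟩ := hx
      obtain ⟨t, -, ht⟩ := hy
      have h2 := Prod.ext_iff.mp ht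
      have h3 : t = s := hv h2.1
      subst h3
      exact hab t h2.2
  · have hset : tch (cyF v a b) = univ.image v := by
      ext w
      unfold tch
      rw [mem_filter, mem_image]
      simp only [mem_univ, true_and]
      constructor
      · rintro ⟨j, hj⟩
        rcases (hmv (w, j)).mp hj with ⟨t, ht⟩ | ⟨t, ht⟩
        · exact ⟨t, (Prod.ext_iff.mp ht).1⟩
        · exact ⟨t, (Prod.ext_iff.mp ht).1⟩
      · rintro ⟨t, rfl⟩
        exact ⟨b t, hmb t⟩
    rw [hset, card_image_of_injective _ hv, card_univ, Fintype.card_fin]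
  · intro w hw
    unfold tch at hw
    rw [mem_filter] at hw
    obtain ⟨-, j, hj⟩ := hw
    obtain ⟨s, rfl⟩ : ∃ s, v s = w := by
      rcases (hmv (w, j)).mp hj with ⟨t, ht⟩ | ⟨t, ht⟩
      · exact ⟨t, (Prod.ext_iff.mp ht).1⟩
      · exact ⟨t, (Prod.ext_iff.mp ht).1⟩
    have hset : (univ.filter fun j : Fin 3 => cyF v a b (v s, j) ≠ (v s, j)) = {a s, b s} := by
      ext j
      rw [mem_filter, mem_insert, mem_singleton]
      simp only [mem_univ, true_and]
      constructor
      · intro hj
        rcases (hmv (v s, j)).mp hj with ⟨t, ht⟩ | ⟨t, ht⟩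
        · have h2 := Prod.ext_iff.mp ht
          have h3 : t = s := hv h2.1
          subst h3
          exact Or.inr h2.2.symm
        · have h2 := Prod.ext_iff.mp ht
          have h3 : t = s := hv h2.1
          subst h3
          exact Or.inl h2.2.symm
      · rintro (rfl | rfl)
        · exact hma s
        · exact hmb s
    rw [hset, card_pair (hab s)]

end Pool.Agent.ALM
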