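import Pool.Agent.Lib.MP_fc2a59_co.ALM.C.Stm

set_option autoImplicit false

/-!
# Project ALM, piece cyv: explicit values of `cyF`
-/

namespace Pool.Agent.ALM

open Finset
open scoped Classical

theorem p_cyv : S_cyv := by
  intro V i v a b hv hab
  -- first branch
  have h1 : ∀ t, cyF v a b (v t, b t) = (v (nx t), a (nx t)) := by
    intro t
    have hex : ∃ s, (v t, b t) = (v s, b s) := ⟨t, rfl⟩
    have hs : hex.choose = t := by
      have := hex.choose_spec
      exact (hv (Prod.ext_iff.mp this).1).symm
    unfold cyF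
    rw [dif_pos hex, hs]
  have hne : ∀ s, ¬ ∃ t, (v s, a s) = (v t, b t) := by
    rintro s ⟨t, ht⟩
    have h := Prod.ext_iff.mp ht
    have hst : s = t := hv h.1
    subst hst
    exact hab s h.2
  refine ⟨h1, ?_, ?_⟩
  · intro t
    have hex : ∃ s, (v (nx t), a (nx t)) = (v (nx s), a (nx s)) := ⟨t, rfl⟩
    have hs : hex.choose = t := by
      have := hex.choose_spec
      have h2 : nx t = nx hex.choose := hv (Prod.ext_iff.mp this).1
      exact ((finRotate i).injective h2).symm
    unfold cyF
    rw [dif_neg (hne (nx t)), dif_pos hex, hs]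
  · intro x hb ha
    unfold cyF
    rw [dif_neg, dif_neg]
    · rintro ⟨t, ht⟩
      exact ha (nx t) ht
    · rintro ⟨t, ht⟩
      exact hb t ht

end Pool.Agent.ALM
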