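import Pool.Agent.Lib.MP_fc2a59_co.ALM.C.Stm

set_option autoImplicit false

/-!
# Project ALM, piece p_dtc: number of disjoint tuples of cycles
-/

namespace Pool.Agent.ALM

open Finset
open scoped Classical

namespace dtcX

/-- data of one rooted oriented cycle -/
abbrev Dat (V : Type) (i : ℕ) : Type := (Fin i → V) × (Fin i → Fin 3) × (Fin i → Fin 3)

theorem tch_cyF (h3 : S_cyv) {V : Type} [Fintype V] {i : ℕ} (v : Fin i → V) (a b : Fin i → Fin 3)
    (hv : Function.Injective v) (hab : ∀ t, a t ≠ b t) (u : V) :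
    u ∈ tch (cyF v a b) ↔ ∃ t, v t = u := by
  obtain ⟨h1, h2, h3⟩ := h3 V i v a b hv hab
  constructor
  · intro hu
    by_contra hne
    push Not at hne
    obtain ⟨j, hj⟩ := (mem_filter.1 hu).2
    apply hj
    apply h3
    · intro t ht
      exact hne t (congrArg Prod.fst ht).symm
    · intro t ht
      exact hne t (congrArg Prod.fst ht).symm
  · rintro ⟨t, rfl⟩
    refine mem_filter.2 ⟨mem_univ _, b t, ?_⟩
    rw [h1]
    intro h
    have h' : nx t = t := hv (congrArg Prod.fst h)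
    have h'' : a (nx t) = b t := congrArg Prod.snd h
    rw [h'] at h''
    exact hab t h''

/-- all the data -/
noncomputable def DD (V : Type) [Fintype V] {r : ℕ} (l : Fin r → ℕ) :
    Finset (∀ t : Fin r, Dat V (l t)) :=
  univ.filter fun d => (∀ t s, (d t).2.1 s ≠ (d t).2.2 s) ∧
    Function.Injective fun p : Ix l => (d p.1).1 p.2

theorem card_DD (V : Type) [Fintype V] {r : ℕ} (l : Fin r → ℕ) :
    (DD V l).card = (Fintype.card V).descFactorial (∑ t, l t) * 6 ^ (∑ t, l t) := by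
  have hI : Fintype.card (Ix l) = ∑ t, l t := by simp [Ix]
  let e : {d // d ∈ DD V l} ≃ (Ix l ↪ V) × (Ix l → {c : Fin 3 × Fin 3 // c.1 ≠ c.2}) :=
    { toFun := fun d => (⟨fun p => (d.1 p.1).1 p.2, (mem_filter.1 d.2).2.2⟩,
        fun p => ⟨((d.1 p.1).2.1 p.2, (d.1 p.1).2.2 p.2), (mem_filter.1 d.2).2.1 p.1 p.2⟩)
      invFun := fun q => ⟨fun t => (fun s => q.1 ⟨t, s⟩, fun s => (q.2 ⟨t, s⟩).1.1,
        fun s => (q.2 ⟨t, s⟩).1.2), mem_filter.2 ⟨mem_univ _, fun t s => (q.2 ⟨t, s⟩).2,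
          q.1.injective⟩⟩
      left_inv := fun d => rfl
      right_inv := fun q => rfl }
  have h1 := Fintype.card_congr e
  have h6 : Fintype.card {c : Fin 3 × Fin 3 // c.1 ≠ c.2} = 6 := by
    rw [Fintype.card_subtype]
    decide
  rw [Fintype.card_prod, Fintype.card_embedding_eq, Fintype.card_fun, hI, h6] at h1
  rw [← h1, Fintype.card_coe]

/-- the descriptions of one cycle -/
noncomputable def fb (V : Type) [Fintype V] (i : ℕ) (F : Pt V → Pt V) : Finset (Dat V i) :=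
  univ.filter fun d : (Fin i → V) × (Fin i → Fin 3) × (Fin i → Fin 3) =>
    Function.Injective d.1 ∧ (∀ t, d.2.1 t ≠ d.2.2 t) ∧ F = cyF d.1 d.2.1 d.2.2

/-- the tuple of a system of data -/
noncomputable def ph {V : Type} {r : ℕ} {l : Fin r → ℕ} (d : ∀ t : Fin r, Dat V (l t)) :
    Fin r → Pt V → Pt V := fun t => cyF (d t).1 (d t).2.1 (d t).2.2

theorem inj_iff (h3 : S_cyv) {V : Type} [Fintype V] {r : ℕ} {l : Fin r → ℕ}
    (d : ∀ t : Fin r, Dat V (l t)) (hd : ∀ t, Function.Injective (d t).1)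
    (hab : ∀ t s, (d t).2.1 s ≠ (d t).2.2 s) :
    (Function.Injective fun p : Ix l => (d p.1).1 p.2) ↔
      ∀ s t, s ≠ t → Disjoint (tch (ph d s)) (tch (ph d t)) := by
  constructor
  · intro hi s t hst
    rw [Finset.disjoint_left]
    intro u hu hu'
    obtain ⟨x, hx⟩ := (tch_cyF h3 _ _ _ (hd s) (hab s) u).1 hu
    obtain ⟨y, hy⟩ := (tch_cyF h3 _ _ _ (hd t) (hab t) u).1 hu'
    have : (⟨s, x⟩ : Ix l) = ⟨t, y⟩ := hi (hx.trans hy.symm)
    exact hst (congrArg Sigma.fst this)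
  · rintro hD ⟨s, x⟩ ⟨t, y⟩ hxy
    change (d s).1 x = (d t).1 y at hxy
    by_cases hst : s = t
    · subst hst
      rw [hd s hxy]
    · exfalso
      refine Finset.disjoint_left.1 (hD s t hst)
        ((tch_cyF h3 _ _ _ (hd s) (hab s) ((d s).1 x)).2 ⟨x, rfl⟩) ?_
      exact (tch_cyF h3 _ _ _ (hd t) (hab t) ((d s).1 x)).2 ⟨y, hxy.symm⟩

theorem inj_each {V : Type} {r : ℕ} {l : Fin r → ℕ} (d : ∀ t : Fin r, Dat V (l t))
    (h : Function.Injective fun p : Ix l => (d p.1).1 p.2) (t : Fin r) :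
    Function.Injective (d t).1 := by
  intro x y hxy
  have : (⟨t, x⟩ : Ix l) = ⟨t, y⟩ := h hxy
  simpa using this

theorem maps (h3 : S_cyv) {V : Type} [Fintype V] {r : ℕ} (l : Fin r → ℕ)
    (d : ∀ t : Fin r, Dat V (l t)) (hd : d ∈ DD V l) : ph d ∈ dtu V l := by
  obtain ⟨-, hab, hi⟩ := mem_filter.1 hd
  refine mem_filter.2 ⟨mem_univ _, fun t => ?_, ?_⟩
  · exact mem_filter.2 ⟨mem_univ _, (d t).1, (d t).2.1, (d t).2.2, inj_each d hi t, hab t, rfl⟩
  · exact (inj_iff h3 d (inj_each d hi) hab).1 hi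

theorem fibre (h3 : S_cyv) {V : Type} [Fintype V] {r : ℕ} (l : Fin r → ℕ)
    (F : Fin r → Pt V → Pt V) (hF : F ∈ dtu V l) :
    (DD V l).filter (fun d => ph d = F) = Fintype.piFinset fun t => fb V (l t) (F t) := by
  obtain ⟨-, -, hD⟩ := mem_filter.1 hF
  ext d
  rw [mem_filter, Fintype.mem_piFinset]
  constructor
  · rintro ⟨hd, rfl⟩ t
    obtain ⟨-, hab, hi⟩ := mem_filter.1 hd
    exact mem_filter.2 ⟨mem_univ _, inj_each d hi t, hab t, rfl⟩
  · intro h
    have h1 : ∀ t, Function.Injective (d t).1 := fun t => (mem_filter.1 (h t)).2.1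
    have h2 : ∀ t s, (d t).2.1 s ≠ (d t).2.2 s := fun t => (mem_filter.1 (h t)).2.2.1
    have h4 : ph d = F := funext fun t => ((mem_filter.1 (h t)).2.2.2).symm
    refine ⟨mem_filter.2 ⟨mem_univ _, h2, ?_⟩, h4⟩
    rw [inj_iff h3 d h1 h2, h4]
    exact hD

end dtcX

open dtcX in
/-- NUMBER OF DISJOINT TUPLES -/
theorem p_dtc (h1 : S_fib) (_h2 : S_cyb) (h3 : S_cyv) : S_dtc := by
  intro V _ r l hl
  have hc : (DD V l).card = ∑ F ∈ dtu V l, ((DD V l).filter (fun d => ph d = F)).card :=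
    Finset.card_eq_sum_card_fiberwise fun d hd => maps h3 l d hd
  rw [← card_DD V l, hc, Finset.card_eq_sum_ones, Finset.sum_mul]
  refine Finset.sum_congr rfl fun F hF => ?_
  rw [fibre h3 l F hF, Fintype.card_piFinset, one_mul]
  refine Finset.prod_congr rfl fun t _ => ?_
  have := h1 V (l t) (F t) (hl t) ((mem_filter.1 hF).2.1 t)
  rw [← this]
  rfl

end Pool.Agent.ALM
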