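import Pool.Agent.Lib.MP_fc2a59_co.ALM.C.Stm

set_option autoImplicit false

/-!
# Project ALM, piece fac: factorial moments and tuples
-/

namespace Pool.Agent.ALM

open Finset
open scoped Classical

namespace facX

/-- the cycles of length `i + 1` contained in `σ` -/
noncomputable def Cs (V : Type) [Fintype V] (σ : Pt V → Pt V) (i : ℕ) : Finset (Pt V → Pt V) :=
  (cyc V (i + 1)).filter fun F => Sub F σ

theorem card_Cs {V : Type} [Fintype V] (σ : Pt V → Pt V) (i : ℕ) :
    (Cs V σ i).card = X (i + 1) σ := rfl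

/-- injective tuples of cycles contained in `σ` -/
noncomputable def Ts (V : Type) [Fintype V] (σ : Pt V → Pt V) {r : ℕ} (l : Fin r → ℕ) :
    Finset (Fin r → Pt V → Pt V) :=
  univ.filter fun F => (∀ t, F t ∈ cyc V (l t)) ∧ Function.Injective F ∧ ∀ t, Sub (F t) σ

theorem card_split (h1 : S_cyb) {V : Type} [Fintype V] (σ : Pt V → Pt V) {r : ℕ} (l : Fin r → ℕ)
    (hl : ∀ t, 1 ≤ l t) :
    (Ts V σ l).card = ((dtu V l).filter fun F => ∀ t, Sub (F t) σ).card +
        ((otu V l).filter fun F => ∀ t, Sub (F t) σ).card := by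
  have hsplit := Finset.card_filter_add_card_filter_not (s := Ts V σ l)
    (fun F => ∀ s t, s ≠ t → Disjoint (tch (F s)) (tch (F t)))
  rw [← hsplit]
  congr 1
  · congr 1
    ext F
    unfold Ts dtu
    simp only [mem_filter, mem_univ, true_and]
    constructor
    · rintro ⟨⟨ha, -, hc⟩, hd⟩
      exact ⟨⟨ha, hd⟩, hc⟩
    · rintro ⟨⟨ha, hd⟩, hc⟩
      refine ⟨⟨ha, ?_, hc⟩, hd⟩
      intro s t hst
      by_contra hne
      have h2 := hd s t hne
      rw [hst] at h2
      have h3 : tch (F t) = ∅ := by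
        rw [disjoint_self] at h2
        exact h2
      have h4 := (h1 V (l t) (F t) (hl t) (ha t)).2.2.1
      rw [h3, card_empty] at h4
      have := hl t
      omega
  · congr 1
    ext F
    unfold Ts otu
    simp only [mem_filter, mem_univ, true_and]
    constructor
    · rintro ⟨⟨ha, hb, hc⟩, hd⟩
      exact ⟨⟨ha, hb, hd⟩, hc⟩
    · rintro ⟨⟨ha, hb, hd⟩, hc⟩
      exact ⟨⟨ha, hb, hc⟩, hd⟩

theorem card_tuples (h1 : S_cyb) {V : Type} [Fintype V] (σ : Pt V → Pt V) {k r : ℕ} (j : Fin k → ℕ)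
    (e : Fin r ≃ Σ i : Fin k, Fin (j i)) :
    Fintype.card (∀ i : Fin k, Fin (j i) ↪ {F // F ∈ Cs V σ i}) =
      (Ts V σ (fun t => ((e t).1 : ℕ) + 1)).card := by
  rw [← Finset.card_univ]
  refine Finset.card_bij (fun G _ => fun t => (G (e t).1 (e t).2).1) ?_ ?_ ?_
  · intro G _
    have hmem : ∀ t, (G (e t).1 (e t).2).1 ∈ cyc V (((e t).1 : ℕ) + 1) ∧
        Sub (G (e t).1 (e t).2).1 σ := by
      intro t
      have h := (G (e t).1 (e t).2).2
      unfold Cs at h
      rw [mem_filter] at h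
      exact h
    unfold Ts
    rw [mem_filter]
    refine ⟨mem_univ _, fun t => (hmem t).1, ?_, fun t => (hmem t).2⟩
    intro s t hst
    have hst' : (G (e s).1 (e s).2).1 = (G (e t).1 (e t).2).1 := hst
    have hs := (h1 V _ _ (Nat.le_add_left 1 _) (hmem s).1).2.1
    have ht := (h1 V _ _ (Nat.le_add_left 1 _) (hmem t).1).2.1
    rw [hst', ht] at hs
    have hi : (e s).1 = (e t).1 := by
      apply Fin.ext
      omega
    have key : ∀ p q : (Σ i : Fin k, Fin (j i)), p.1 = q.1 →
        (G p.1 p.2).1 = (G q.1 q.2).1 → p = q := by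
      rintro ⟨i, a⟩ ⟨i', a'⟩ h h'
      change i = i' at h
      subst h
      have h2 : G i a = G i a' := Subtype.ext h'
      rw [(G i).injective h2]
    exact e.injective (key _ _ hi hst')
  · intro G _ G' _ h
    funext i
    ext a : 1
    have h2 : (fun p : Σ i : Fin k, Fin (j i) => (G p.1 p.2).1) (e (e.symm ⟨i, a⟩)) =
        (fun p : Σ i : Fin k, Fin (j i) => (G' p.1 p.2).1) (e (e.symm ⟨i, a⟩)) := congrFun h _
    rw [Equiv.apply_symm_apply] at h2
    exact Subtype.ext h2
  · intro F hF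
    unfold Ts at hF
    rw [mem_filter] at hF
    obtain ⟨-, ha, hb, hc⟩ := hF
    have hmem : ∀ (i : Fin k) (a : Fin (j i)), F (e.symm ⟨i, a⟩) ∈ Cs V σ i := by
      intro i a
      unfold Cs
      rw [mem_filter]
      refine ⟨?_, hc _⟩
      have : F (e.symm ⟨i, a⟩) ∈ cyc V (((e (e.symm ⟨i, a⟩)).1 : ℕ) + 1) := ha _
      rw [Equiv.apply_symm_apply] at this
      exact this
    refine ⟨fun i => ⟨fun a => ⟨F (e.symm ⟨i, a⟩), hmem i a⟩, ?_⟩, mem_univ _, ?_⟩
    · intro a a' haa
      have h2 : F (e.symm ⟨i, a⟩) = F (e.symm ⟨i, a'⟩) := Subtype.ext_iff.mp haa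
      have h3 := e.symm.injective (hb h2)
      simpa using h3
    · funext t
      change F (e.symm ⟨(e t).1, (e t).2⟩) = F t
      congr 1
      exact e.symm_apply_apply t

end facX

theorem p_fac (h1 : S_cyb) : S_fac := by
  intro k j
  let e : Fin (Fintype.card (Σ i : Fin k, Fin (j i))) ≃ (Σ i : Fin k, Fin (j i)) :=
    (Fintype.equivFin _).symm
  refine ⟨Fintype.card (Σ i : Fin k, Fin (j i)), fun t => ((e t).1 : ℕ) + 1, ?_, ?_, ?_⟩
  · intro t
    exact Nat.le_add_left 1 _
  · intro θ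
    rw [Fintype.prod_equiv e (fun t => θ (((e t).1 : ℕ) + 1)) (fun p => θ ((p.1 : ℕ) + 1))
      (fun t => rfl), Fintype.prod_sigma]
    refine Finset.prod_congr rfl fun i _ => ?_
    change ∏ _y : Fin (j i), θ ((i : ℕ) + 1) = _
    rw [Finset.prod_const, Finset.card_univ, Fintype.card_fin]
  · intro V _ σ _
    rw [← facX.card_split h1 σ _ (fun t => Nat.le_add_left 1 _), ← facX.card_tuples h1 σ j e,
      Fintype.card_pi]
    refine Finset.prod_congr rfl fun i _ => ?_
    rw [Fintype.card_embedding_eq, Fintype.card_coe, Fintype.card_fin]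
    rfl

end Pool.Agent.ALM
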