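import Pool.Agent.Lib.MP_fc2a59_co.ALM.C.Stm

set_option autoImplicit false

/-! # Project ALM, section C: every cycle has `2i` descriptions -/

namespace Pool.Agent.ALM

open Finset
open scoped Classical

namespace fibX

private lemma mv_eq {X : Type} [Fintype X] (F : X → X) :
    ∃ T : Finset X, mv F = T.card ∧ ∀ x, x ∈ T ↔ F x ≠ x :=
  ⟨univ.filter fun x => F x ≠ x, rfl, by simp⟩

private lemma nx_surj {i : ℕ} (t : Fin i) : ∃ s, nx s = t := (finRotate i).surjective t

private lemma nx_eq {n : ℕ} (t : Fin (n + 1)) : nx t = t + 1 := finRotate_succ_apply t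

private lemma uniq (h1 : S_cyv) {V : Type} {i : ℕ} {v : Fin i → V} {a b : Fin i → Fin 3}
    (hv : Function.Injective v) (hab : ∀ t, a t ≠ b t) {F : Pt V → Pt V}
    (hF1 : ∀ t, F (v t, b t) = (v (nx t), a (nx t)))
    (hF2 : ∀ t, F (v (nx t), a (nx t)) = (v t, b t))
    (hF3 : ∀ x, (∀ t, x ≠ (v t, b t)) → (∀ t, x ≠ (v t, a t)) → F x = x) :
    F = cyF v a b := by
  obtain ⟨c1, c2, c3⟩ := h1 V i v a b hv hab
  funext x
  by_cases hb : ∃ t, x = (v t, b t)
  · obtain ⟨t, rfl⟩ := hb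
    rw [hF1, c1]
  · by_cases ha : ∃ t, x = (v t, a t)
    · obtain ⟨t, rfl⟩ := ha
      obtain ⟨s, rfl⟩ := nx_surj t
      rw [hF2, c2]
    · have hb' : ∀ t, x ≠ (v t, b t) := fun t ht => hb ⟨t, ht⟩
      have ha' : ∀ t, x ≠ (v t, a t) := fun t ht => ha ⟨t, ht⟩
      rw [hF3 x hb' ha', c3 x hb' ha']

/-- the leaving points are moved -/
private lemma moved (h1 : S_cyv) {V : Type} {i : ℕ} {v : Fin i → V} {a b : Fin i → Fin 3}
    (hv : Function.Injective v) (hab : ∀ t, a t ≠ b t) (t : Fin i) :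
    cyF v a b (v t, b t) ≠ (v t, b t) := by
  rw [(h1 V i v a b hv hab).1 t]
  intro h
  have e1 : v (nx t) = v t := congrArg Prod.fst h
  have e2 : a (nx t) = b t := congrArg Prod.snd h
  rw [hv e1] at e2
  exact hab t e2

private lemma moved_iff (h1 : S_cyv) {V : Type} {i : ℕ} {v : Fin i → V} {a b : Fin i → Fin 3}
    (hv : Function.Injective v) (hab : ∀ t, a t ≠ b t) {x : Pt V} (hx : cyF v a b x ≠ x) :
    (∃ t, x = (v t, b t)) ∨ (∃ t, x = (v t, a t)) := by
  by_contra hc
  rw [not_or] at hc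
  exact hx ((h1 V i v a b hv hab).2.2 x (fun t ht => hc.1 ⟨t, ht⟩) (fun t ht => hc.2 ⟨t, ht⟩))

private lemma step (h1 : S_cyv) {V : Type} {i : ℕ} {v v' : Fin i → V} {a a' b b' : Fin i → Fin 3}
    (hv : Function.Injective v) (hab : ∀ t, a t ≠ b t)
    (hv' : Function.Injective v') (hab' : ∀ t, a' t ≠ b' t)
    (he : cyF v a b = cyF v' a' b') (t : Fin i) (hvt : v t = v' t) (hbt : b t = b' t) :
    v (nx t) = v' (nx t) ∧ a (nx t) = a' (nx t) ∧ b (nx t) = b' (nx t) := by
  have e1 := (h1 V i v a b hv hab).1 t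
  have e2 := (h1 V i v' a' b' hv' hab').1 t
  rw [← he, ← hvt, ← hbt, e1] at e2
  have e3 : v (nx t) = v' (nx t) := congrArg Prod.fst e2
  have e4 : a (nx t) = a' (nx t) := congrArg Prod.snd e2
  refine ⟨e3, e4, ?_⟩
  have m := moved h1 hv' hab' (nx t)
  rw [← he, ← e3] at m
  rcases moved_iff h1 hv hab m with ⟨s, hs⟩ | ⟨s, hs⟩
  · have f1 : v (nx t) = v s := congrArg Prod.fst hs
    have f2 : b' (nx t) = b s := congrArg Prod.snd hs
    rw [← hv f1] at f2
    exact f2.symm
  · have f1 : v (nx t) = v s := congrArg Prod.fst hs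
    have f2 : b' (nx t) = a s := congrArg Prod.snd hs
    rw [← hv f1, e4] at f2
    exact absurd f2.symm (hab' _)

private lemma inj (h1 : S_cyv) {V : Type} {n : ℕ} {v v' : Fin (n + 1) → V}
    {a a' b b' : Fin (n + 1) → Fin 3}
    (hv : Function.Injective v) (hab : ∀ t, a t ≠ b t)
    (hv' : Function.Injective v') (hab' : ∀ t, a' t ≠ b' t)
    (he : cyF v a b = cyF v' a' b') (hv0 : v 0 = v' 0) (hb0 : b 0 = b' 0) :
    v = v' ∧ a = a' ∧ b = b' := by
  have key' : ∀ t : Fin (n + 1), v t = v' t ∧ b t = b' t := by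
    intro t
    induction t using Fin.induction with
    | zero => exact ⟨hv0, hb0⟩
    | succ k ih =>
      have := step h1 hv hab hv' hab' he _ ih.1 ih.2
      rw [nx_eq, Fin.coeSucc_eq_succ] at this
      exact ⟨this.1, this.2.2⟩
  refine ⟨funext fun t => (key' t).1, funext fun t => ?_, funext fun t => (key' t).2⟩
  obtain ⟨s, rfl⟩ := nx_surj t
  exact (step h1 hv hab hv' hab' he s (key' s).1 (key' s).2).2.1

/-- the rotated description -/
private lemma rot (h1 : S_cyv) {V : Type} {n : ℕ} {v : Fin (n + 1) → V}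
    {a b : Fin (n + 1) → Fin 3}
    (hv : Function.Injective v) (hab : ∀ t, a t ≠ b t) (s : Fin (n + 1)) :
    cyF v a b = cyF (fun t => v (s + t)) (fun t => a (s + t)) (fun t => b (s + t)) := by
  obtain ⟨c1, c2, c3⟩ := h1 V (n + 1) v a b hv hab
  refine uniq h1 (fun t t' h => add_left_cancel (hv h)) (fun t => hab _) ?_ ?_ ?_
  · intro t
    have := c1 (s + t)
    rw [nx_eq] at this ⊢
    simpa [add_assoc] using this
  · intro t
    have := c2 (s + t)
    rw [nx_eq] at this ⊢
    simpa [add_assoc] using this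
  · intro x hx1 hx2
    apply c3
    · intro t ht
      apply hx1 (t - s)
      simpa using ht
    · intro t ht
      apply hx2 (t - s)
      simpa using ht

/-- the reversed description -/
private lemma rev (h1 : S_cyv) {V : Type} {n : ℕ} {v : Fin (n + 1) → V}
    {a b : Fin (n + 1) → Fin 3}
    (hv : Function.Injective v) (hab : ∀ t, a t ≠ b t) (s : Fin (n + 1)) :
    cyF v a b = cyF (fun t => v (s - t)) (fun t => b (s - t)) (fun t => a (s - t)) := by
  obtain ⟨c1, c2, c3⟩ := h1 V (n + 1) v a b hv hab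
  refine uniq h1 (fun t t' h => sub_right_injective (hv h)) (fun t => (hab _).symm) ?_ ?_ ?_
  · intro t
    have := c2 (s - (t + 1))
    rw [nx_eq] at this ⊢
    have e : s - (t + 1) + 1 = s - t := by rw [← sub_sub, sub_add_cancel]
    rw [e] at this
    exact this
  · intro t
    have := c1 (s - (t + 1))
    rw [nx_eq] at this ⊢
    have e : s - (t + 1) + 1 = s - t := by rw [← sub_sub, sub_add_cancel]
    rw [e] at this
    exact this
  · intro x hx1 hx2
    apply c3
    · intro t ht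
      apply hx2 (s - t)
      simpa using ht
    · intro t ht
      apply hx1 (s - t)
      simpa using ht

end fibX

/-- every cycle has `2i` descriptions -/
theorem p_fib (h1 : S_cyv) (h2 : S_cyb) : S_fib := by
  intro V _ i F hi hF
  obtain ⟨n, rfl⟩ : ∃ n, i = n + 1 := ⟨i - 1, by omega⟩
  have hmv := (h2 V (n + 1) F hi hF).2.1
  obtain ⟨T, hT1, hT2⟩ := fibX.mv_eq F
  rw [← hmv, hT1]
  obtain ⟨v0, a0, b0, hv0, hab0, hF0⟩ := (Finset.mem_filter.mp hF).2
  refine Finset.card_bij (fun d _ => (d.1 0, d.2.2 0)) ?_ ?_ ?_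
  · intro d hd
    obtain ⟨hd1, hd2, hd3⟩ := (Finset.mem_filter.mp hd).2
    rw [hT2, hd3]
    exact fibX.moved h1 hd1 hd2 0
  · intro d hd d' hd' hh
    obtain ⟨hd1, hd2, hd3⟩ := (Finset.mem_filter.mp hd).2
    obtain ⟨hd1', hd2', hd3'⟩ := (Finset.mem_filter.mp hd').2
    obtain ⟨e1, e2, e3⟩ := fibX.inj h1 hd1 hd2 hd1' hd2' (hd3.symm.trans hd3')
      (congrArg Prod.fst hh) (congrArg Prod.snd hh)
    exact Prod.ext e1 (Prod.ext e2 e3)
  · intro x hx
    have hx' := (hT2 x).mp hx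
    rw [hF0] at hx'
    rcases fibX.moved_iff h1 hv0 hab0 hx' with ⟨s, rfl⟩ | ⟨s, rfl⟩
    · refine ⟨(fun t => v0 (s + t), fun t => a0 (s + t), fun t => b0 (s + t)), ?_, ?_⟩
      · refine Finset.mem_filter.mpr ⟨Finset.mem_univ _, ?_, ?_, ?_⟩
        · exact fun t t' h => add_left_cancel (hv0 h)
        · exact fun t => hab0 _
        · rw [hF0]
          exact fibX.rot h1 hv0 hab0 s
      · simp
    · refine ⟨(fun t => v0 (s - t), fun t => b0 (s - t), fun t => a0 (s - t)), ?_, ?_⟩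
      · refine Finset.mem_filter.mpr ⟨Finset.mem_univ _, ?_, ?_, ?_⟩
        · exact fun t t' h => sub_right_injective (hv0 h)
        · exact fun t => (hab0 _).symm
        · rw [hF0]
          exact fibX.rev h1 hv0 hab0 s
      · simp

end Pool.Agent.ALM
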