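import Pool.Agent.Lib.MP_fc2a59_co.ALM.C.Stm

set_option autoImplicit false

namespace Pool.Agent.ALM

open Finset
open scoped Classical

namespace ovcX

private theorem tch_cyF (h1 : S_cyv) (V : Type) [Fintype V] (i : ℕ) (v : Fin i → V)
    (a b : Fin i → Fin 3) (hv : Function.Injective v) (hab : ∀ t, a t ≠ b t) :
    tch (cyF v a b) = univ.image v := by
  obtain ⟨hb, _, hfix⟩ := h1 V i v a b hv hab
  ext w
  simp only [tch, mem_filter, mem_univ, true_and, mem_image]
  constructor
  · rintro ⟨j, hj⟩
    by_contra hne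
    push Not at hne
    apply hj
    apply hfix
    · intro t h
      exact hne t (congrArg Prod.fst h).symm
    · intro t h
      exact hne t (congrArg Prod.fst h).symm
  · rintro ⟨t, rfl⟩
    refine ⟨b t, ?_⟩
    rw [hb t]
    intro h
    have h1' : v (nx t) = v t := congrArg Prod.fst h
    have h2' : a (nx t) = b t := congrArg Prod.snd h
    have h3 : nx t = t := hv h1'
    rw [h3] at h2'
    exact hab t h2'

private theorem card_fun_image (X V : Type) [DecidableEq X] [Fintype X] [Fintype V] (k : ℕ) :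
    ((univ : Finset (X → V)).filter fun v => (univ.image v).card = k).card ≤
      Fintype.card X ^ Fintype.card X * Fintype.card V ^ k := by
  by_cases hk : k ≤ Fintype.card X
  · have hsub : ((univ : Finset (X → V)).filter fun v => (univ.image v).card = k) ⊆
        (univ : Finset ((X → Fin k) × (Fin k → V))).image (fun p => p.2 ∘ p.1) := by
      intro v hv
      simp only [mem_filter, mem_univ, true_and] at hv
      let e := (univ.image v).equivFinOfCardEq hv
      refine mem_image.2 ⟨(fun x => e ⟨v x, mem_image_of_mem _ (mem_univ _)⟩,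
        fun j => (e.symm j).1), mem_univ _, ?_⟩
      funext x
      simp
    calc _ ≤ _ := card_le_card hsub
      _ ≤ _ := card_image_le
      _ = k ^ Fintype.card X * Fintype.card V ^ k := by
        rw [card_univ, Fintype.card_prod, Fintype.card_fun, Fintype.card_fun, Fintype.card_fin]
      _ ≤ _ := Nat.mul_le_mul_right _ (Nat.pow_le_pow_left hk _)
  · have h0 : ((univ : Finset (X → V)).filter fun v => (univ.image v).card = k) = ∅ := by
      rw [filter_eq_empty_iff]
      intro v _ h
      apply hk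
      rw [← h]
      exact card_image_le
    rw [h0]
    simp

private noncomputable def Phi (V : Type) [Fintype V] {r : ℕ} (l : Fin r → ℕ)
    (d : (Ix l → V) × ((Ix l → Fin 3) × (Ix l → Fin 3))) : Fin r → Pt V → Pt V :=
  fun t => cyF (fun s => d.1 ⟨t, s⟩) (fun s => d.2.1 ⟨t, s⟩) (fun s => d.2.2 ⟨t, s⟩)

private theorem key (h1 : S_cyv) (V : Type) [Fintype V] {r : ℕ} (l : Fin r → ℕ) (k : ℕ)
    (F : Fin r → Pt V → Pt V) (hF : F ∈ otu V l)
    (hk : (univ.biUnion fun t => tch (F t)).card = k) :
    ∃ v : Ix l → V, (univ.image v).card = k ∧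
      ∃ ab : (Ix l → Fin 3) × (Ix l → Fin 3), Phi V l (v, ab) = F := by
  have hF' : ∀ t, F t ∈ cyc V (l t) := by
    rw [otu, mem_filter] at hF
    exact hF.2.1
  have hd : ∀ t, ∃ (v : Fin (l t) → V) (a b : Fin (l t) → Fin 3),
      Function.Injective v ∧ (∀ s, a s ≠ b s) ∧ F t = cyF v a b := by
    intro t
    have := hF' t
    rw [cyc, mem_filter] at this
    exact this.2
  choose v a b hv hab hFe using hd
  refine ⟨fun p => v p.1 p.2, ?_, (fun p => a p.1 p.2, fun p => b p.1 p.2), ?_⟩
  · rw [← hk]
    congr 1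
    ext w
    rw [mem_image, mem_biUnion]
    constructor
    · rintro ⟨p, _, rfl⟩
      refine ⟨p.1, mem_univ _, ?_⟩
      rw [hFe, tch_cyF h1 V _ _ _ _ (hv p.1) (hab p.1)]
      exact mem_image_of_mem _ (mem_univ _)
    · rintro ⟨t, _, ht⟩
      rw [hFe, tch_cyF h1 V _ _ _ _ (hv t) (hab t)] at ht
      obtain ⟨s, _, rfl⟩ := mem_image.1 ht
      exact ⟨⟨t, s⟩, mem_univ _, rfl⟩
  · funext t
    exact (hFe t).symm

private theorem bound (V : Type) [Fintype V] {r : ℕ} (l : Fin r → ℕ) (k : ℕ) (h1 : S_cyv) :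
    ((otu V l).filter fun F => (univ.biUnion fun t => tch (F t)).card = k).card ≤
      ((univ : Finset (Ix l → V)).filter fun v => (univ.image v).card = k).card *
        Fintype.card ((Ix l → Fin 3) × (Ix l → Fin 3)) := by
  have hsub : ((otu V l).filter fun F => (univ.biUnion fun t => tch (F t)).card = k) ⊆
      (((univ : Finset (Ix l → V)).filter fun v => (univ.image v).card = k) ×ˢ
        (univ : Finset ((Ix l → Fin 3) × (Ix l → Fin 3)))).image (Phi V l) := by
    intro F hF
    rw [mem_filter] at hF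
    obtain ⟨v, hv, ab, he⟩ := key h1 V l k F hF.1 hF.2
    exact mem_image.2 ⟨(v, ab), mem_product.2 ⟨mem_filter.2 ⟨mem_univ _, hv⟩, mem_univ _⟩, he⟩
  refine (card_le_card hsub).trans (card_image_le.trans ?_)
  rw [card_product, card_univ]

end ovcX

theorem p_ovc (h1 : S_cyv) (_h2 : S_cyb) : S_ovc := by
  intro r l hl
  refine ⟨Fintype.card (Ix l) ^ Fintype.card (Ix l) *
    Fintype.card ((Ix l → Fin 3) × (Ix l → Fin 3)), ?_⟩
  intro V _ k
  have h := ovcX.bound V l k h1
  have h' := ovcX.card_fun_image (Ix l) V k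
  refine h.trans ((Nat.mul_le_mul_right _ h').trans (le_of_eq ?_))
  exact Nat.mul_right_comm _ _ _

end Pool.Agent.ALM
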