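import Pool.Agent.Lib.MP_fc2a59_co.ALM.C.Stm

set_option autoImplicit false

namespace Pool.Agent.ALM

open Finset
open scoped Classical

/-- a property closed under the cyclic successor holds everywhere -/
private lemma ovlX_cyc {i : ℕ} (P : Fin i → Prop) (p0 : Fin i) (h0 : P p0)
    (hs : ∀ p, P p → P (nx p)) : ∀ p, P p := by
  match i, P, p0, h0, hs with
  | 0, P, p0, h0, hs => exact fun p => p.elim0
  | n + 1, P, p0, h0, hs =>
    have h1 : ∀ k : ℕ, ∀ p : Fin (n + 1), p.val = (p0.val + k) % (n + 1) → P p := by
      intro k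
      induction k with
      | zero =>
        intro p hp
        have : p = p0 := by
          apply Fin.ext
          rw [hp, Nat.add_zero, Nat.mod_eq_of_lt p0.isLt]
        rw [this]; exact h0
      | succ k ih =>
        intro p hp
        have h2 := hs _ (ih ⟨(p0.val + k) % (n + 1), Nat.mod_lt _ (Nat.succ_pos n)⟩ rfl)
        unfold nx at h2
        rw [finRotate_apply] at h2
        have h3 : p = (⟨(p0.val + k) % (n + 1), Nat.mod_lt _ (Nat.succ_pos n)⟩ : Fin (n + 1)) + 1 := by
          apply Fin.ext
          rw [hp, Fin.val_add]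
          have h4 : ((1 : Fin (n + 1)).val) = 1 % (n + 1) := rfl
          rw [h4]
          simp only
          rw [← Nat.add_mod, Nat.add_assoc]
        rw [h3]; exact h2
    intro p
    apply h1 (p.val + (n + 1 - p0.val)) p
    have h5 := p0.isLt
    have h6 : p0.val + (p.val + (n + 1 - p0.val)) = p.val + (n + 1) := by omega
    rw [h6, Nat.add_mod_right, Nat.mod_eq_of_lt p.isLt]

private lemma ovlX_mv {X : Type} [Fintype X] (g : X → X) (s : Finset X)
    (h : ∀ x, x ∈ s ↔ g x ≠ x) : mv g = s.card := by
  unfold mv
  congr 1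
  ext x
  simp only [Finset.mem_filter, Finset.mem_univ, true_and]
  exact (h x).symm

private lemma ovlX_even {X : Type} [Fintype X] (g : X → X) (hg : Inv g) : ∃ f, mv g = 2 * f := by
  have h : ∑ x ∈ univ.filter (fun x => g x ≠ x), (1 : ZMod 2) = 0 := by
    apply Finset.sum_involution (fun x _ => g x)
    · intro a _; decide
    · intro a ha _
      simp only [Finset.mem_filter, Finset.mem_univ, true_and] at ha
      exact ha
    · intro a ha
      simp only [Finset.mem_filter, Finset.mem_univ, true_and] at ha ⊢
      rw [hg a]; exact fun h => ha h.symm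
    · intro a _; exact hg a
  rw [Finset.sum_const, nsmul_eq_mul, mul_one] at h
  have h2 : Even (mv g) := by
    unfold mv
    exact (ZMod.natCast_eq_zero_iff_even).1 h
  obtain ⟨f, hf⟩ := h2
  exact ⟨f, by omega⟩

/-- closure of the common touched set along the cycle -/
private lemma ovlX_sub (h1 : S_cyv) {V : Type} [Fintype V] {i : ℕ} (F G σ : Pt V → Pt V)
    (hF : F ∈ cyc V i) (hG : Inv G) (hFs : Sub F σ) (hGs : Sub G σ)
    (hm : ∀ v, v ∈ tch F → v ∈ tch G → ∀ j, F (v, j) ≠ (v, j) → G (v, j) ≠ (v, j))
    (v0 : V) (hv0 : v0 ∈ tch F) (hv0' : v0 ∈ tch G) : tch F ⊆ tch G := by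
  unfold cyc at hF
  simp only [Finset.mem_filter, Finset.mem_univ, true_and] at hF
  obtain ⟨v, a, b, hinj, hab, rfl⟩ := hF
  obtain ⟨e1, e2, e3⟩ := h1 V i v a b hinj hab
  -- touched vertices are the `v t`
  have ht : ∀ u, u ∈ tch (cyF v a b) → ∃ t, u = v t := by
    intro u hu
    unfold tch at hu
    simp only [Finset.mem_filter, Finset.mem_univ, true_and] at hu
    obtain ⟨j, hj⟩ := hu
    by_contra hc
    push Not at hc
    apply hj
    apply e3
    · intro t h
      exact hc t (congrArg Prod.fst h)
    · intro t h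
      exact hc t (congrArg Prod.fst h)
  have hmv : ∀ t, cyF v a b (v t, b t) ≠ (v t, b t) := by
    intro t h
    rw [e1 t] at h
    have h5 : v (nx t) = v t := congrArg Prod.fst h
    have h6 : nx t = t := hinj h5
    rw [h6] at h
    exact hab t (congrArg Prod.snd h)
  have htv : ∀ t, v t ∈ tch (cyF v a b) := by
    intro t
    unfold tch
    simp only [Finset.mem_filter, Finset.mem_univ, true_and]
    exact ⟨b t, hmv t⟩
  obtain ⟨t0, ht0⟩ := ht v0 hv0
  have hall : ∀ t, v t ∈ tch G := by
    apply ovlX_cyc (fun t => v t ∈ tch G) t0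
    · rw [← ht0]; exact hv0'
    · intro t hvt
      have h5 := hm (v t) (htv t) hvt (b t) (hmv t)
      have h6 : G (v t, b t) = (v (nx t), a (nx t)) := by
        rw [← hGs _ h5, hFs _ (hmv t), e1 t]
      unfold tch
      simp only [Finset.mem_filter, Finset.mem_univ, true_and]
      refine ⟨a (nx t), ?_⟩
      rw [← h6, hG (v t, b t)]
      exact fun h => h5 h.symm
  intro u hu
  obtain ⟨t, rfl⟩ := ht u hu
  exact hall t

theorem p_ovl (h1 : S_cyv) (h2 : S_cyb) : S_ovl := by
  intro V _ r l F σ hl hF hσ hsub
  unfold otu at hF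
  simp only [Finset.mem_filter, Finset.mem_univ, true_and] at hF
  obtain ⟨hFc, hFi, hFd⟩ := hF
  have hin : ∀ t, Inv (F t) := fun t => (h2 V (l t) (F t) (hl t) (hFc t)).1
  have hmt : ∀ t, mv (F t) = 2 * l t := fun t => (h2 V (l t) (F t) (hl t) (hFc t)).2.1
  have h2p : ∀ t, ∀ v ∈ tch (F t), (univ.filter fun j : Fin 3 => F t (v, j) ≠ (v, j)).card = 2 :=
    fun t => (h2 V (l t) (F t) (hl t) (hFc t)).2.2.2
  have A2 : ∀ x, (∃ t, F t x ≠ x) → un F x = σ x := by
    intro x h
    unfold un
    rw [dif_pos h]
    exact (hsub _ x h.choose_spec).symm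
  have A3 : ∀ x, (¬ ∃ t, F t x ≠ x) → un F x = x := by
    intro x h
    unfold un
    rw [dif_neg h]
  have A4 : ∀ x, un F x ≠ x ↔ ∃ t, F t x ≠ x := by
    intro x
    constructor
    · intro h
      by_contra hc
      exact h (A3 x hc)
    · intro h
      rw [A2 x h]
      exact (hσ x).2
  have hInv : Inv (un F) := by
    intro x
    by_cases h : ∃ t, F t x ≠ x
    · obtain ⟨t, ht⟩ := h
      have e : un F x = F t x := by rw [A2 x ⟨t, ht⟩, hsub t x ht]
      have ht' : F t (F t x) ≠ F t x := by
        rw [hin t x]; exact fun h => ht h.symm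
      rw [e, A2 (F t x) ⟨t, ht'⟩, hsub t _ ht', hin t x]
    · rw [A3 x h, A3 x h]
  refine ⟨hInv, ?_, ?_⟩
  · intro τ hτ x hx
    have h := (A4 x).1 hx
    unfold un
    rw [dif_pos h]
    exact hτ _ x h.choose_spec
  · obtain ⟨f, hf⟩ := ovlX_even (un F) hInv
    refine ⟨f, hf, ?_, ?_⟩
    · -- upper bound
      have hs : (univ.filter fun x => un F x ≠ x) ⊆
          (univ : Finset (Fin r)).biUnion fun t => univ.filter fun x => F t x ≠ x := by
        intro x hx
        simp only [Finset.mem_filter, Finset.mem_univ, true_and] at hx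
        simp only [Finset.mem_biUnion, Finset.mem_filter, Finset.mem_univ, true_and]
        exact (A4 x).1 hx
      have h3 : mv (un F) ≤ ∑ t, mv (F t) := by
        rw [ovlX_mv (un F) (univ.filter fun x => un F x ≠ x) (by simp)]
        refine (Finset.card_le_card hs).trans (Finset.card_biUnion_le.trans ?_)
        apply Finset.sum_le_sum
        intro t _
        rw [ovlX_mv (F t) (univ.filter fun x => F t x ≠ x) (by simp)]
      simp only [hmt] at h3
      rw [← Finset.mul_sum] at h3
      omega
    · -- lower bound
      set U := (univ : Finset (Fin r)).biUnion fun t => tch (F t) with hU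
      let c : V → ℕ := fun v => (univ.filter fun j : Fin 3 => un F (v, j) ≠ (v, j)).card
      have hsum : mv (un F) = ∑ v, c v := by
        rw [ovlX_mv (un F) (univ.filter fun x : Pt V => un F x ≠ x) (by simp)]
        have e : (univ.filter fun x : Pt V => un F x ≠ x) =
            (univ : Finset V).biUnion fun v =>
              (univ.filter fun j : Fin 3 => un F (v, j) ≠ (v, j)).image fun j => (v, j) := by
          ext x
          obtain ⟨v, j⟩ := x
          simp only [Finset.mem_filter, Finset.mem_univ, true_and, Finset.mem_biUnion,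
            Finset.mem_image, Prod.mk.injEq]
          constructor
          · intro h
            exact ⟨v, j, h, rfl, rfl⟩
          · rintro ⟨w, k, h, rfl, rfl⟩
            exact h
        rw [e, Finset.card_biUnion]
        · apply Finset.sum_congr rfl
          intro v _
          apply Finset.card_image_of_injective
          intro j k h
          exact (Prod.mk.injEq _ _ _ _ ▸ h : v = v ∧ j = k).2
        · intro v _ w _ hvw
          rw [Function.onFun, Finset.disjoint_left]
          rintro ⟨u, k⟩ h3 h4
          simp only [Finset.mem_image, Prod.mk.injEq] at h3 h4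
          obtain ⟨_, _, h3, _⟩ := h3
          obtain ⟨_, _, h4, _⟩ := h4
          exact hvw (h3.trans h4.symm)
      have hle : ∀ t, ∀ v, (univ.filter fun j : Fin 3 => F t (v, j) ≠ (v, j)) ⊆
          (univ.filter fun j : Fin 3 => un F (v, j) ≠ (v, j)) := by
        intro t v j hj
        simp only [Finset.mem_filter, Finset.mem_univ, true_and] at hj ⊢
        exact (A4 _).2 ⟨t, hj⟩
      have hc2 : ∀ v ∈ U, 2 ≤ c v := by
        intro v hv
        rw [hU, Finset.mem_biUnion] at hv
        obtain ⟨t, _, ht⟩ := hv
        rw [← h2p t v ht]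
        exact Finset.card_le_card (hle t v)
      have hclaim : ∃ v ∈ U, 3 ≤ c v := by
        by_contra hcon
        push Not at hcon
        have hc2' : ∀ v ∈ U, c v = 2 := fun v hv => by
          have := hc2 v hv; have := hcon v hv; omega
        have hUt : ∀ t, ∀ v ∈ tch (F t), v ∈ U := by
          intro t v hv
          rw [hU, Finset.mem_biUnion]
          exact ⟨t, Finset.mem_univ t, hv⟩
        -- moved points of F t at a touched vertex
        have heq : ∀ t, ∀ v ∈ tch (F t), (univ.filter fun j : Fin 3 => F t (v, j) ≠ (v, j)) =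
            (univ.filter fun j : Fin 3 => un F (v, j) ≠ (v, j)) := by
          intro t v hv
          apply Finset.eq_of_subset_of_card_le (hle t v)
          rw [h2p t v hv]
          exact (hc2' v (hUt t v hv)).le
        have heq' : ∀ s t, ∀ v, v ∈ tch (F s) → v ∈ tch (F t) → ∀ j,
            F s (v, j) ≠ (v, j) → F t (v, j) ≠ (v, j) := by
          intro s t v hs ht j hj
          have h5 : j ∈ (univ.filter fun j : Fin 3 => F s (v, j) ≠ (v, j)) := by
            simp only [Finset.mem_filter, Finset.mem_univ, true_and]; exact hj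
          rw [heq s v hs, ← heq t v ht] at h5
          simp only [Finset.mem_filter, Finset.mem_univ, true_and] at h5
          exact h5
        push Not at hFd
        obtain ⟨s, t, hst, hd⟩ := hFd
        rw [Finset.not_disjoint_iff] at hd
        obtain ⟨v0, hs0, ht0⟩ := hd
        have hA : tch (F s) ⊆ tch (F t) :=
          ovlX_sub h1 (F s) (F t) σ (hFc s) (hin t) (hsub s) (hsub t) (heq' s t) v0 hs0 ht0
        have hB : tch (F t) ⊆ tch (F s) :=
          ovlX_sub h1 (F t) (F s) σ (hFc t) (hin s) (hsub t) (hsub s) (heq' t s) v0 ht0 hs0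
        have hmem : ∀ (p : Fin r) (v : V) (j : Fin 3), F p (v, j) ≠ (v, j) → v ∈ tch (F p) := by
          intro p v j h
          unfold tch
          simp only [Finset.mem_filter, Finset.mem_univ, true_and]
          exact ⟨j, h⟩
        apply hst
        apply hFi
        funext x
        obtain ⟨v, j⟩ := x
        by_cases h5 : F s (v, j) = (v, j)
        · by_cases h6 : F t (v, j) = (v, j)
          · rw [h5, h6]
          · exact absurd h5 (heq' t s v (hmem t v j h6) (hB (hmem t v j h6)) j h6)
        · have h6 := heq' s t v (hmem s v j h5) (hA (hmem s v j h5)) j h5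
          rw [← hsub s _ h5, ← hsub t _ h6]
      obtain ⟨w, hwU, hw3⟩ := hclaim
      have h7 : 2 * U.card + 1 ≤ ∑ v ∈ U, c v := by
        rw [← Finset.add_sum_erase U c hwU]
        have h8 : ∑ _v ∈ U.erase w, 2 ≤ ∑ v ∈ U.erase w, c v :=
          Finset.sum_le_sum fun v hv => hc2 v (Finset.mem_of_mem_erase hv)
        rw [Finset.sum_const, smul_eq_mul, Finset.card_erase_of_mem hwU] at h8
        have h9 : 1 ≤ U.card := Finset.card_pos.2 ⟨w, hwU⟩
        omega
      have h8 : ∑ v ∈ U, c v ≤ ∑ v, c v :=
        Finset.sum_le_sum_of_subset (Finset.subset_univ U)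
      rw [← hsum, hf] at h8
      omega

end Pool.Agent.ALM
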