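import Pool.Agent.Lib.MP_fc2a59_co.ALM.C.Stm

set_option autoImplicit false

namespace Pool.Agent.ALM

open Finset Filter Topology
open scoped Classical

namespace psiX

/-! ### marks -/

section marks

variable {X : Type} (f : X → X) (E : X → Prop)

/-- steps to the end of the run -/
noncomputable def d (hE : ∀ p, ∃ n, E (f^[n] p)) (p : X) : ℕ := Nat.find (hE p)

lemma d_zero (hE : ∀ p, ∃ n, E (f^[n] p)) (p : X) (h : E p) : d f E hE p = 0 := by
  unfold d
  rw [Nat.find_eq_zero]
  exact h

lemma d_succ (hE : ∀ p, ∃ n, E (f^[n] p)) (p : X) (h : ¬ E p) :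
    d f E hE p = d f E hE (f p) + 1 := by
  unfold d
  have hn : ∃ n, E (f^[n + 1] p) := by
    obtain ⟨n, hn⟩ := hE (f p)
    exact ⟨n, hn⟩
  rw [Nat.find_comp_succ (hE p) hn h]
  rfl

/-- the end of the run -/
noncomputable def e (hE : ∀ p, ∃ n, E (f^[n] p)) (p : X) : X := f^[d f E hE p] p

lemma e_succ (hE : ∀ p, ∃ n, E (f^[n] p)) (p : X) (h : ¬ E p) :
    e f E hE (f p) = e f E hE p := by
  unfold e
  rw [d_succ f E hE p h, Function.iterate_succ_apply]

lemma e_of_mk (hE : ∀ p, ∃ n, E (f^[n] p)) (r : X → X → Prop)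
    (hr : ∀ p q, r p q ↔ q = f p ∧ ¬ E p) (p q : X) (h : Quot.mk r p = Quot.mk r q) :
    e f E hE p = e f E hE q := by
  have key : ∀ a b : X, r a b → e f E hE a = e f E hE b := by
    intro a b hab
    obtain ⟨rfl, hn⟩ := (hr a b).1 hab
    exact (e_succ f E hE a hn).symm
  exact congrArg (Quot.lift (e f E hE) key) h

lemma move (hf : Function.Injective f) (hE : ∀ p, ∃ n, E (f^[n] p)) (p q : X)
    (h : e f E hE p = e f E hE q) (hd : d f E hE q ≤ d f E hE p) :
    f^[d f E hE p - d f E hE q] p = q := by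
  apply (hf.iterate (d f E hE q))
  rw [← Function.iterate_add_apply, Nat.add_sub_cancel' hd]
  exact h

lemma mono_j (hE : ∀ p, ∃ n, E (f^[n] p)) (j : X → Bool)
    (hj : ∀ p, ¬ E p → j p = true → j (f p) = true) :
    ∀ (n : ℕ) (p : X), n ≤ d f E hE p → j p = true → j (f^[n] p) = true := by
  intro n
  induction n with
  | zero =>
    intro p _ h
    exact h
  | succ n ih =>
    intro p hn h
    have hnE : ¬ E p := by
      intro hp
      rw [d_zero f E hE p hp] at hn
      omega
    rw [Function.iterate_succ_apply]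
    refine ih (f p) ?_ (hj p hnE h)
    have := d_succ f E hE p hnE
    omega

lemma count [Fintype X] (hf : Function.Injective f) (hE : ∀ p, ∃ n, E (f^[n] p))
    (r : X → X → Prop) (hr : ∀ p q, r p q ↔ q = f p ∧ ¬ E p) [Fintype (Quot r)] :
    ∏ K : Quot r, (univ.filter fun p => Quot.mk r p = K).card =
      (univ.filter fun j : X → Bool => (∀ p, E p → j (f p) = false) ∧
        (∀ p, ¬ E p → j p = true → j (f p) = true)).card := by
  rw [← Fintype.card_piFinset]
  -- the first element of a run has the largest distance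
  have hfirst : ∀ p m : X, E p → Quot.mk r m = Quot.mk r (f p) →
      d f E hE m ≤ d f E hE (f p) := by
    intro p m hp hm
    by_contra hlt
    push Not at hlt
    have he := e_of_mk f E hE r hr _ _ hm
    have hmv := move f E hf hE m (f p) he hlt.le
    obtain ⟨k, hk⟩ : ∃ k, d f E hE m - d f E hE (f p) = k + 1 := ⟨_, (Nat.succ_pred_eq_of_pos (by omega)).symm⟩
    rw [hk, Function.iterate_succ_apply'] at hmv
    have hp' : f^[k] m = p := hf hmv
    have : d f E hE m ≤ k := Nat.find_min' (hE m) (by rw [hp']; exact hp)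
    omega
  refine Finset.card_bij (fun g _ => fun p => decide (d f E hE p < d f E hE (g (Quot.mk r p)))) ?_ ?_ ?_
  · intro g hg
    rw [Fintype.mem_piFinset] at hg
    simp only [mem_filter, mem_univ, true_and] at hg ⊢
    refine ⟨?_, ?_⟩
    · intro p hp
      rw [decide_eq_false_iff_not, not_lt]
      exact hfirst p _ hp (hg _)
    · intro p hp h
      rw [decide_eq_true_eq] at h ⊢
      have h1 : Quot.mk r p = Quot.mk r (f p) := Quot.sound ((hr _ _).2 ⟨rfl, hp⟩)
      rw [← h1]
      have := d_succ f E hE p hp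
      omega
  · intro g hg g' hg' hgg
    rw [Fintype.mem_piFinset] at hg hg'
    simp only [mem_filter, mem_univ, true_and] at hg hg'
    funext K
    have e1 := hg K
    have e2 := hg' K
    have q1 := congrFun hgg (g K)
    have q2 := congrFun hgg (g' K)
    simp only [e1, e2, decide_eq_decide] at q1 q2
    have hd : d f E hE (g K) = d f E hE (g' K) := by omega
    have he := e_of_mk f E hE r hr (g K) (g' K) (by rw [e1, e2])
    have := move f E hf hE (g K) (g' K) he hd.ge
    rw [hd, Nat.sub_self] at this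
    exact this
  · intro j hj
    simp only [mem_filter, mem_univ, true_and] at hj
    obtain ⟨hj1, hj2⟩ := hj
    have hbij : Function.Bijective f := Finite.injective_iff_bijective.1 hf
    -- every class has an element with j = false
    have hex : ∀ K : Quot r, ∃ p, Quot.mk r p = K ∧ j p = false := by
      intro K
      obtain ⟨p0, rfl⟩ := Quot.exists_rep K
      have hne : (univ.filter fun p => Quot.mk r p = Quot.mk r p0).Nonempty :=
        ⟨p0, by simp⟩
      obtain ⟨q, hq, hmax⟩ := Finset.exists_max_image _ (d f E hE) hne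
      simp only [mem_filter, mem_univ, true_and] at hq hmax
      obtain ⟨s, hs⟩ := hbij.2 q
      refine ⟨q, hq, ?_⟩
      by_cases hsE : E s
      · rw [← hs]
        exact hj1 s hsE
      · exfalso
        have h1 : Quot.mk r s = Quot.mk r (f s) := Quot.sound ((hr _ _).2 ⟨rfl, hsE⟩)
        have h2 := hmax s (by rw [h1, hs, hq])
        have h3 := d_succ f E hE s hsE
        rw [hs] at h3
        omega
    have hex2 : ∀ K : Quot r, ∃ m, (Quot.mk r m = K ∧ j m = false) ∧
        ∀ p, Quot.mk r p = K → j p = false → d f E hE m ≤ d f E hE p := by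
      intro K
      obtain ⟨p0, hp0⟩ := hex K
      have hne : (univ.filter fun p => Quot.mk r p = K ∧ j p = false).Nonempty :=
        ⟨p0, by simp [hp0]⟩
      obtain ⟨m, hm, hmin⟩ := Finset.exists_min_image _ (d f E hE) hne
      simp only [mem_filter, mem_univ, true_and] at hm hmin
      exact ⟨m, hm, fun p h1 h2 => hmin p ⟨h1, h2⟩⟩
    choose g hg hgmin using hex2
    refine ⟨g, ?_, ?_⟩
    · rw [Fintype.mem_piFinset]
      intro K
      simp only [mem_filter, mem_univ, true_and]
      exact (hg K).1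
    · funext p
      by_cases hlt : d f E hE p < d f E hE (g (Quot.mk r p))
      · rw [decide_eq_true hlt]
        by_contra hne
        have hfalse : j p = false := by
          cases h : j p
          · rfl
          · exact absurd h.symm hne
        have := hgmin (Quot.mk r p) p rfl hfalse
        omega
      · rw [decide_eq_false hlt]
        push Not at hlt
        by_contra hne
        have htrue : j p = true := by
          cases h : j p
          · exact absurd h.symm hne
          · rfl
        have he := e_of_mk f E hE r hr p (g (Quot.mk r p)) (hg (Quot.mk r p)).1.symm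
        have hmv := move f E hf hE p (g (Quot.mk r p)) he hlt
        have := mono_j f E hE j hj2 (d f E hE p - d f E hE (g (Quot.mk r p))) p (by omega) htrue
        rw [hmv, (hg (Quot.mk r p)).2] at this
        exact absurd this (by decide)

end marks

/-! ### the transfer matrix -/

/-- states: colour, mark passed -/
abbrev St : Type := Bool × Bool

/-- weights -/
noncomputable def W (s t : St) : ℝ :=
  if s.1 = t.1 then (if s.2 = true → t.2 = true then 1 else 0) else (if t.2 = false then 1 / 2 else 0)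

/-- the transfer matrix -/
noncomputable def M : Matrix St St ℝ := Matrix.of W

lemma path_sum (n : ℕ) : ∀ F : St → St → ℝ,
    ∑ s : Fin (n + 1) → St, (∏ p : Fin n, W (s p.castSucc) (s p.succ)) * F (s (Fin.last n)) (s 0) =
      ∑ a : St, ∑ b : St, (M ^ n) a b * F b a := by
  induction n with
  | zero =>
    intro F
    rw [← (Equiv.funUnique (Fin 1) St).symm.sum_comp]
    simp only [pow_zero, Matrix.one_apply, ite_mul, one_mul, zero_mul, Finset.sum_ite_eq, mem_univ,
      if_true]
    refine Finset.sum_congr rfl fun a _ => ?_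
    simp [Equiv.funUnique]
  | succ n ih =>
    intro F
    rw [← (Fin.consEquiv (fun _ : Fin (n + 2) => St)).sum_comp, Fintype.sum_prod_type,
      Finset.sum_comm]
    have h1 : ∀ t : Fin (n + 1) → St, ∑ a : St,
        (∏ p : Fin (n + 1), W ((Fin.consEquiv (fun _ : Fin (n + 2) => St)) (a, t) p.castSucc)
          ((Fin.consEquiv (fun _ : Fin (n + 2) => St)) (a, t) p.succ)) *
          F ((Fin.consEquiv (fun _ : Fin (n + 2) => St)) (a, t) (Fin.last (n + 1)))
            ((Fin.consEquiv (fun _ : Fin (n + 2) => St)) (a, t) 0) =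
        (∏ p : Fin n, W (t p.castSucc) (t p.succ)) *
          (fun x y => ∑ a : St, W a y * F x a) (t (Fin.last n)) (t 0) := by
      intro t
      simp only [Finset.mul_sum]
      refine Finset.sum_congr rfl fun a _ => ?_
      rw [Fin.prod_univ_succ]
      have e0 : (Fin.consEquiv (fun _ : Fin (n + 2) => St)) (a, t) 0 = a := rfl
      have e1 : ∀ p : Fin (n + 1), (Fin.consEquiv (fun _ : Fin (n + 2) => St)) (a, t) p.succ = t p :=
        fun p => rfl
      have e2 : (Fin.consEquiv (fun _ : Fin (n + 2) => St)) (a, t) (Fin.last (n + 1)) = t (Fin.last n) := by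
        rw [← Fin.succ_last]
        exact e1 _
      have e3 : ∀ p : Fin n, (Fin.consEquiv (fun _ : Fin (n + 2) => St)) (a, t) p.succ.castSucc =
          t p.castSucc := by
        intro p
        rw [← Fin.succ_castSucc]
        exact e1 _
      rw [Fin.castSucc_zero, e0, e2, e1]
      have e4 : ∏ p : Fin n, W ((Fin.consEquiv (fun _ : Fin (n + 2) => St)) (a, t) p.succ.castSucc)
          ((Fin.consEquiv (fun _ : Fin (n + 2) => St)) (a, t) p.succ.succ) =
          ∏ p : Fin n, W (t p.castSucc) (t p.succ) := by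
        refine Finset.prod_congr rfl fun p _ => ?_
        rw [e3, e1]
      rw [e4]
      ring
    refine (Finset.sum_congr rfl fun t _ => h1 t).trans
      ((ih (fun x y => ∑ a : St, W a y * F x a)).trans ?_)
    have h2 : ∀ a b : St, (M ^ (n + 1)) a b = ∑ a' : St, W a a' * (M ^ n) a' b := by
      intro a b
      rw [pow_succ', Matrix.mul_apply]
      rfl
    simp only [h2, Finset.mul_sum, Finset.sum_mul]
    rw [Finset.sum_comm]
    have h3 : ∀ b : St, ∑ a' : St, ∑ a : St, (M ^ n) a' b * (W a a' * F b a) =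
        ∑ a : St, ∑ a' : St, W a a' * (M ^ n) a' b * F b a := by
      intro b
      rw [Finset.sum_comm]
      refine Finset.sum_congr rfl fun a _ => Finset.sum_congr rfl fun a' _ => ?_
      ring
    rw [Finset.sum_congr rfl fun b _ => h3 b, Finset.sum_comm]

lemma cyc_sum (n : ℕ) :
    ∑ s : Fin (n + 1) → St, ∏ p : Fin (n + 1), W (s p) (s (nx p)) = (M ^ (n + 1)).trace := by
  have h1 : ∀ s : Fin (n + 1) → St, ∏ p : Fin (n + 1), W (s p) (s (nx p)) =
      (∏ p : Fin n, W (s p.castSucc) (s p.succ)) * W (s (Fin.last n)) (s 0) := by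
    intro s
    rw [Fin.prod_univ_castSucc]
    congr 1
    · refine Finset.prod_congr rfl fun p _ => ?_
      have : nx p.castSucc = p.succ := by
        rw [nx, finRotate_succ_apply]
        ext
        rw [Fin.val_add_one_of_lt (Fin.castSucc_lt_last p)]
        simp
      rw [this]
    · have : nx (Fin.last n) = 0 := by
        rw [nx, finRotate_last]
      rw [this]
  rw [Finset.sum_congr rfl fun s _ => h1 s, path_sum n W, pow_succ, Matrix.trace]
  refine Finset.sum_congr rfl fun a _ => ?_
  rw [Matrix.diag_apply, Matrix.mul_apply]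
  rfl

/-! ### powers of the matrix -/

/-- traces -/
noncomputable def Mt (n : ℕ) : ℝ := (M ^ n).trace

/-- explicit square -/
noncomputable def M2 : Matrix St St ℝ := Matrix.of fun s t =>
  match s, t with
  | (false, false), (false, false) => 5 / 4
  | (false, false), (false, true) => 2
  | (false, false), (true, false) => 3 / 2
  | (false, false), (true, true) => 1 / 2
  | (false, true), (false, false) => 1 / 4
  | (false, true), (false, true) => 1
  | (false, true), (true, false) => 1
  | (false, true), (true, true) => 1 / 2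
  | (true, false), (true, false) => 5 / 4
  | (true, false), (true, true) => 2
  | (true, false), (false, false) => 3 / 2
  | (true, false), (false, true) => 1 / 2
  | (true, true), (true, false) => 1 / 4
  | (true, true), (true, true) => 1
  | (true, true), (false, false) => 1
  | (true, true), (false, true) => 1 / 2

lemma M_sq : M * M = M2 := by
  ext ⟨a, b⟩ ⟨c, d⟩
  rw [Matrix.mul_apply, Fintype.sum_prod_type, Fintype.sum_bool, Fintype.sum_bool, Fintype.sum_bool]
  rcases a <;> rcases b <;> rcases c <;> rcases d <;> norm_num [M, M2, W]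

lemma char : M2 * M2 = 4 • (M2 * M) - (23 / 4 : ℝ) • M2 + 4 • M - 1 := by
  ext ⟨a, b⟩ ⟨c, d⟩
  rw [Matrix.sub_apply, Matrix.add_apply, Matrix.sub_apply, Matrix.smul_apply, Matrix.smul_apply,
    Matrix.smul_apply, Matrix.mul_apply, Matrix.mul_apply, Fintype.sum_prod_type, Fintype.sum_bool,
    Fintype.sum_bool, Fintype.sum_bool, Fintype.sum_prod_type, Fintype.sum_bool,
    Fintype.sum_bool, Fintype.sum_bool, Matrix.one_apply]
  rcases a <;> rcases b <;> rcases c <;> rcases d <;> norm_num [M, M2, W]

lemma Mt_rec (n : ℕ) : Mt (n + 4) = 4 * Mt (n + 3) - 23 / 4 * Mt (n + 2) + 4 * Mt (n + 1) - Mt n := by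
  have h4 : M ^ (n + 4) = M ^ n * (M2 * M2) := by
    rw [pow_add, ← M_sq]
    congr 1
    simp only [pow_succ, pow_zero, one_mul, mul_assoc]
  have h3 : M ^ (n + 3) = M ^ n * (M2 * M) := by
    rw [pow_add, ← M_sq]
    congr 1
    simp only [pow_succ, pow_zero, one_mul, mul_assoc]
  have h2 : M ^ (n + 2) = M ^ n * M2 := by
    rw [pow_add, ← M_sq]
    congr 1
    simp only [pow_succ, pow_zero, one_mul]
  have h1 : M ^ (n + 1) = M ^ n * M := pow_succ _ _
  unfold Mt
  rw [h4, h3, h2, h1, char, mul_sub, mul_add, mul_sub, Matrix.trace_sub, Matrix.trace_add,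
    Matrix.trace_sub, Matrix.mul_smul, Matrix.mul_smul, Matrix.mul_smul, Matrix.trace_smul,
    Matrix.trace_smul, Matrix.trace_smul, mul_one]
  simp only [smul_eq_mul, nsmul_eq_mul]
  norm_num

lemma Mt0 : Mt 0 = 4 := by
  unfold Mt
  rw [pow_zero, Matrix.trace_one]
  simp

lemma Mt1 : Mt 1 = 4 := by
  unfold Mt
  rw [pow_one, Matrix.trace, Fintype.sum_prod_type, Fintype.sum_bool, Fintype.sum_bool,
    Fintype.sum_bool]
  norm_num [M, W, Matrix.diag]

lemma Mt2 : Mt 2 = 9 / 2 := by
  unfold Mt
  rw [pow_two, M_sq, Matrix.trace, Fintype.sum_prod_type, Fintype.sum_bool, Fintype.sum_bool,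
    Fintype.sum_bool]
  norm_num [M2, Matrix.diag]

lemma Mt3 : Mt 3 = 7 := by
  unfold Mt
  rw [pow_succ, pow_two, M_sq, Matrix.trace, Fintype.sum_prod_type, Fintype.sum_bool,
    Fintype.sum_bool, Fintype.sum_bool]
  simp only [Matrix.diag_apply, Matrix.mul_apply, Fintype.sum_prod_type, Fintype.sum_bool]
  norm_num [M2, M, W]

lemma Mt_eq (n : ℕ) : Mt n = 2 ^ n + (1 / 2) ^ n + sq n := by
  have key : ∀ n, (Mt n = 2 ^ n + (1 / 2) ^ n + sq n ∧ Mt (n + 1) = 2 ^ (n + 1) + (1 / 2) ^ (n + 1) + sq (n + 1)) ∧
      (Mt (n + 2) = 2 ^ (n + 2) + (1 / 2) ^ (n + 2) + sq (n + 2) ∧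
        Mt (n + 3) = 2 ^ (n + 3) + (1 / 2) ^ (n + 3) + sq (n + 3)) := by
    intro n
    induction n with
    | zero =>
      have q0 : sq 0 = 2 := rfl
      have q1 : sq 1 = 3 / 2 := rfl
      have q2 : sq 2 = 3 / 2 * sq 1 - sq 0 := rfl
      have q3 : sq 3 = 3 / 2 * sq 2 - sq 1 := rfl
      refine ⟨⟨?_, ?_⟩, ?_, ?_⟩
      · rw [Mt0, q0]; norm_num
      · rw [zero_add, Mt1, q1]; norm_num
      · rw [zero_add, Mt2, q2, q1, q0]; norm_num
      · rw [zero_add, Mt3, q3, q2, q1, q0]; norm_num
    | succ n ih =>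
      obtain ⟨⟨i0, i1⟩, i2, i3⟩ := ih
      refine ⟨⟨i1, i2⟩, i3, ?_⟩
      have e4 : sq (n + 4) = 3 / 2 * sq (n + 3) - sq (n + 2) := rfl
      have e3 : sq (n + 3) = 3 / 2 * sq (n + 2) - sq (n + 1) := rfl
      have e2 : sq (n + 2) = 3 / 2 * sq (n + 1) - sq n := rfl
      have : Mt (n + 4) = 2 ^ (n + 4) + (1 / 2) ^ (n + 4) + sq (n + 4) := by
        rw [Mt_rec, i0, i1, i2, i3, e4, e3, e2]
        ring
      exact this
  exact (key n).1.1

/-! ### assembling -/

/-- the index type -/
abbrev XX (i : ℕ) : Type := Ix (fun _ : Fin 1 => i)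

/-- the index type is `Fin i` -/
def eqX (i : ℕ) : XX i ≃ Fin i where
  toFun p := p.2
  invFun s := ⟨0, s⟩
  left_inv := by
    rintro ⟨t, s⟩
    obtain rfl : t = 0 := Subsingleton.elim _ _
    rfl
  right_inv _ := rfl

lemma eqX_nxs (i : ℕ) (p : XX i) : eqX i (nxs p) = nx (eqX i p) := rfl

lemma nxs_inj (i : ℕ) : Function.Injective (nxs : XX i → XX i) := by
  intro p q h
  have h1 := congrArg (eqX i) h
  rw [eqX_nxs, eqX_nxs] at h1
  exact (eqX i).injective ((finRotate i).injective h1)

lemma iter_nx (n k : ℕ) (t : Fin (n + 1)) : (nx^[k] t).val = (t.val + k) % (n + 1) := by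
  induction k with
  | zero => simp [Nat.mod_eq_of_lt t.isLt]
  | succ k ih =>
    rw [Function.iterate_succ_apply', nx, finRotate_succ_apply, Fin.val_add, ih, Fin.val_one',
      ← Nat.add_mod, add_assoc]

lemma reach (n : ℕ) (p q : XX (n + 1)) : ∃ k, nxs^[k] p = q := by
  refine ⟨(eqX (n + 1) q).val + (n + 1 - (eqX (n + 1) p).val), ?_⟩
  apply (eqX (n + 1)).injective
  have hs : ∀ k, eqX (n + 1) (nxs^[k] p) = nx^[k] (eqX (n + 1) p) := by
    intro k
    induction k with
    | zero => rfl
    | succ k ih => rw [Function.iterate_succ_apply', Function.iterate_succ_apply', eqX_nxs, ih]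
  rw [hs]
  ext
  have h1 := (eqX (n + 1) p).isLt
  have h2 := (eqX (n + 1) q).isLt
  rw [iter_nx]
  have h3 : (eqX (n + 1) p).val + ((eqX (n + 1) q).val + (n + 1 - (eqX (n + 1) p).val)) =
      (eqX (n + 1) q).val + (n + 1) := by omega
  rw [h3, Nat.add_mod_right, Nat.mod_eq_of_lt h2]

/-- valid functions -/
noncomputable def vd {i : ℕ} (χ : XX i → Bool) : Finset (XX i → Bool) :=
  univ.filter fun j : XX i → Bool => (∀ p, χ p ≠ χ (nxs p) → j (nxs p) = false) ∧
    (∀ p, ¬ χ p ≠ χ (nxs p) → j p = true → j (nxs p) = true)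

lemma prod_W {i : ℕ} (χ j : XX i → Bool) :
    ∏ p : XX i, W (χ p, j p) (χ (nxs p), j (nxs p)) =
      if j ∈ vd χ then (1 / 2 : ℝ) ^ ch χ else 0 := by
  split_ifs with h
  · simp only [vd, mem_filter, mem_univ, true_and] at h
    have h1 : ∀ p : XX i, W (χ p, j p) (χ (nxs p), j (nxs p)) =
        if χ p ≠ χ (nxs p) then (1 / 2 : ℝ) else 1 := by
      intro p
      unfold W
      by_cases hp : χ p = χ (nxs p)
      · rw [if_pos hp, if_neg (not_not.2 hp), if_pos (h.2 p (not_not.2 hp))]
      · rw [if_neg hp, if_pos hp, if_pos (h.1 p hp)]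
    rw [Finset.prod_congr rfl fun p _ => h1 p, Finset.prod_ite, Finset.prod_const, Finset.prod_const,
      one_pow, mul_one]
    rfl
  · simp only [vd, mem_filter, mem_univ, true_and] at h
    by_cases h1 : ∀ p, χ p ≠ χ (nxs p) → j (nxs p) = false
    · have h2 : ¬ ∀ p, ¬ χ p ≠ χ (nxs p) → j p = true → j (nxs p) = true := fun h2 => h ⟨h1, h2⟩
      push Not at h2
      obtain ⟨p, hp, hjp, hjn⟩ := h2
      refine Finset.prod_eq_zero (mem_univ p) ?_
      unfold W
      rw [if_pos hp, if_neg]
      intro hh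
      exact hjn (hh hjp)
    · push Not at h1
      obtain ⟨p, hp, hjn⟩ := h1
      refine Finset.prod_eq_zero (mem_univ p) ?_
      unfold W
      rw [if_neg hp, if_neg hjn]

lemma sum_j {i : ℕ} (χ : XX i → Bool) :
    ∑ j : XX i → Bool, ∏ p : XX i, W (χ p, j p) (χ (nxs p), j (nxs p)) =
      ((vd χ).card : ℝ) * (1 / 2 : ℝ) ^ ch χ := by
  rw [Finset.sum_congr rfl fun j _ => prod_W χ j, Finset.sum_ite_mem, Finset.univ_inter,
    Finset.sum_const, nsmul_eq_mul]

lemma card_vd {n : ℕ} (χ : XX (n + 1) → Bool) (h : ¬ mono χ) : (vd χ).card = wt χ := by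
  have hE : ∀ p : XX (n + 1), ∃ k, χ (nxs^[k] p) ≠ χ (nxs (nxs^[k] p)) := by
    intro p
    by_contra hcon
    push Not at hcon
    apply h
    have hk : ∀ k, χ (nxs^[k] p) = χ p := by
      intro k
      induction k with
      | zero => rfl
      | succ k ih => rw [Function.iterate_succ_apply', ← hcon k, ih]
    have hall : ∀ q, χ q = χ p := by
      intro q
      obtain ⟨k, rfl⟩ := reach n p q
      exact hk k
    exact ⟨0, fun s s' => (hall _).trans (hall _).symm⟩
  unfold wt vd
  have hc := count nxs (fun p => χ p ≠ χ (nxs p)) (nxs_inj _) hE (rn χ)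
    (fun p q => by
      unfold rn
      constructor
      · rintro ⟨rfl, h2⟩
        exact ⟨rfl, not_not.2 h2⟩
      · rintro ⟨rfl, h2⟩
        exact ⟨rfl, not_not.1 h2⟩)
  rw [hc]
  apply congrArg Finset.card
  ext j
  simp

lemma mono_sum (n : ℕ) :
    ∑ χ ∈ univ.filter (fun χ : XX (n + 1) → Bool => mono χ),
      ∑ j : XX (n + 1) → Bool, ∏ p, W (χ p, j p) (χ (nxs p), j (nxs p)) = 4 := by
  have hp0 : ∀ c : Bool, (vd (fun _ : XX (n + 1) => c)).card = 2 := by
    intro c
    have hvd : vd (fun _ : XX (n + 1) => c) = {(fun _ => true), (fun _ => false)} := by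
      ext j
      simp only [vd, mem_filter, mem_univ, true_and, mem_insert, mem_singleton]
      constructor
      · rintro ⟨_, h2⟩
        by_cases hex : ∃ p, j p = true
        · obtain ⟨p, hp⟩ := hex
          left
          funext q
          obtain ⟨k, rfl⟩ := reach n p q
          induction k with
          | zero => exact hp
          | succ k ih =>
            rw [Function.iterate_succ_apply']
            exact h2 _ (by simp) ih
        · right
          funext q
          push Not at hex
          exact Bool.eq_false_iff.2 (hex q)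
      · rintro (rfl | rfl) <;> simp
    rw [hvd, Finset.card_pair]
    intro hh
    have := congrFun hh ⟨0, 0⟩
    simp at this
  have hch : ∀ c : Bool, ch (fun _ : XX (n + 1) => c) = 0 := by
    intro c
    simp [ch]
  have hm : univ.filter (fun χ : XX (n + 1) → Bool => mono χ) =
      {(fun _ => true), (fun _ => false)} := by
    ext χ
    simp only [mem_filter, mem_univ, true_and, mem_insert, mem_singleton]
    constructor
    · rintro ⟨t, ht⟩
      have hall : ∀ q : XX (n + 1), χ q = χ ⟨0, 0⟩ := by
        rintro ⟨a, b⟩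
        obtain rfl : a = t := Subsingleton.elim _ _
        obtain rfl : a = 0 := Subsingleton.elim _ _
        exact ht _ _
      cases h : χ ⟨0, 0⟩
      · right
        funext q
        rw [hall, h]
      · left
        funext q
        rw [hall, h]
    · rintro (rfl | rfl)
      · exact ⟨0, fun _ _ => rfl⟩
      · exact ⟨0, fun _ _ => rfl⟩
  rw [hm, Finset.sum_pair, sum_j, sum_j, hp0, hp0, hch, hch]
  · norm_num
  · intro hh
    have := congrFun hh ⟨0, 0⟩
    simp at this

end psiX

open psiX in
/-- THE VALUE FOR ONE CYCLE -/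
theorem p_psi : S_psi := by
  intro i hi
  obtain ⟨n, rfl⟩ : ∃ n, i = n + 1 := ⟨i - 1, by omega⟩
  have h1 : psi (n + 1) = ∑ χ ∈ univ.filter (fun χ : XX (n + 1) → Bool => ¬ mono χ),
      ∑ j : XX (n + 1) → Bool, ∏ p, W (χ p, j p) (χ (nxs p), j (nxs p)) := by
    unfold psi
    refine Finset.sum_congr rfl fun χ hχ => ?_
    rw [sum_j, card_vd χ (by simpa using hχ)]
  have h2 := Finset.sum_filter_add_sum_filter_not (univ : Finset (XX (n + 1) → Bool))
    (fun χ => mono χ)
    (fun χ => ∑ j : XX (n + 1) → Bool, ∏ p, W (χ p, j p) (χ (nxs p), j (nxs p)))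
  rw [mono_sum n] at h2
  have h3 : ∑ χ : XX (n + 1) → Bool, ∑ j : XX (n + 1) → Bool,
      ∏ p, W (χ p, j p) (χ (nxs p), j (nxs p)) = Mt (n + 1) := by
    unfold Mt
    rw [← cyc_sum, ← Fintype.sum_prod_type']
    let E1 : (Fin (n + 1) → St) ≃ (XX (n + 1) → Bool) × (XX (n + 1) → Bool) :=
      { toFun := fun s => (fun p => (s (eqX (n + 1) p)).1, fun p => (s (eqX (n + 1) p)).2)
        invFun := fun g => fun t => (g.1 ((eqX (n + 1)).symm t), g.2 ((eqX (n + 1)).symm t))
        left_inv := by
          intro s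
          funext t
          simp
        right_inv := by
          intro g
          simp }
    rw [← E1.sum_comp]
    refine Finset.sum_congr rfl fun s _ => ?_
    rw [← (eqX (n + 1)).prod_comp]
    rfl
  rw [h1]
  have h4 := Mt_eq (n + 1)
  linarith

end Pool.Agent.ALM
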