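import Pool.Agent.Lib.MP_fc2a59_co.ALM.C.Stm

set_option autoImplicit false

namespace Pool.Agent.ALM

open Finset
open scoped Classical

namespace pspX

/-- the colouring of the single cycle `t` -/
def res {r : ℕ} {l : Fin r → ℕ} (χ : Ix l → Bool) (t : Fin r) :
    Ix (fun _ : Fin 1 => l t) → Bool := fun p => χ ⟨t, p.2⟩

theorem mono_iff {r : ℕ} {l : Fin r → ℕ} (χ : Ix l → Bool) :
    mono χ ↔ ∃ t, mono (res χ t) := by
  unfold mono res
  constructor
  · rintro ⟨t, h⟩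
    exact ⟨t, 0, h⟩
  · rintro ⟨t, t', h⟩
    exact ⟨t, h⟩

theorem ch_eq {r : ℕ} {l : Fin r → ℕ} (χ : Ix l → Bool) :
    ch χ = ∑ t, ch (res χ t) := by
  unfold ch
  simp only [Finset.card_filter]
  rw [Fintype.sum_sigma]
  refine Finset.sum_congr rfl fun t _ => ?_
  rw [Fintype.sum_sigma, Fin.sum_univ_one]
  rfl

/-- the runs of the disjoint union -/
def eqv {r : ℕ} {l : Fin r → ℕ} (χ : Ix l → Bool) :
    Quot (rn χ) ≃ Σ t, Quot (rn (res χ t)) where
  toFun := Quot.lift (fun p => ⟨p.1, Quot.mk _ ⟨0, p.2⟩⟩) (by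
    rintro ⟨t, s⟩ q ⟨h1, h2⟩
    subst h1
    have : (Quot.mk (rn (res χ t)) ⟨0, s⟩ : Quot (rn (res χ t))) =
        Quot.mk (rn (res χ t)) ⟨0, nx s⟩ := Quot.sound ⟨rfl, h2⟩
    change (⟨t, Quot.mk _ ⟨0, s⟩⟩ : Σ t, Quot (rn (res χ t))) = ⟨t, Quot.mk _ ⟨0, nx s⟩⟩
    rw [this])
  invFun := fun x => Quot.lift (fun p => Quot.mk (rn χ) ⟨x.1, p.2⟩) (by
    rintro ⟨t', s⟩ q ⟨h1, h2⟩
    subst h1
    exact Quot.sound ⟨rfl, h2⟩) x.2
  left_inv := by
    intro x
    induction x using Quot.ind with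
    | mk p => rfl
  right_inv := by
    rintro ⟨t, x⟩
    induction x using Quot.ind with
    | mk p =>
      obtain ⟨p1, p2⟩ := p
      obtain rfl : p1 = 0 := Subsingleton.elim _ _
      rfl

theorem card_eq {r : ℕ} {l : Fin r → ℕ} (χ : Ix l → Bool) (K : Quot (rn χ)) :
    (univ.filter fun p => (Quot.mk (rn χ) p) = K).card =
      (univ.filter fun p => (Quot.mk (rn (res χ (eqv χ K).1)) p) = (eqv χ K).2).card := by
  symm
  refine Finset.card_bij (fun p _ => (⟨(eqv χ K).1, p.2⟩ : Ix l)) ?_ ?_ ?_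
  · intro p hp
    rw [Finset.mem_filter] at hp ⊢
    refine ⟨Finset.mem_univ _, ?_⟩
    apply (eqv χ).injective
    obtain ⟨p1, p2⟩ := p
    obtain rfl : p1 = 0 := Subsingleton.elim _ _
    change (⟨(eqv χ K).1, Quot.mk _ ⟨0, p2⟩⟩ : Σ t, Quot (rn (res χ t))) = eqv χ K
    rw [hp.2]
  · rintro ⟨p1, p2⟩ _ ⟨q1, q2⟩ _ h
    obtain rfl : p1 = 0 := Subsingleton.elim _ _
    obtain rfl : q1 = 0 := Subsingleton.elim _ _
    simp only [Sigma.mk.injEq, heq_eq_eq, true_and] at h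
    rw [h]
  · rintro ⟨t, s⟩ hb
    rw [Finset.mem_filter] at hb
    obtain ⟨_, hb⟩ := hb
    subst hb
    exact ⟨⟨0, s⟩, by rw [Finset.mem_filter]; exact ⟨Finset.mem_univ _, rfl⟩, rfl⟩

theorem wt_eq {r : ℕ} {l : Fin r → ℕ} (χ : Ix l → Bool) :
    wt χ = ∏ t, wt (res χ t) := by
  have h1 : wt χ = ∏ x : (Σ t, Quot (rn (res χ t))),
      (univ.filter fun p => (Quot.mk (rn (res χ x.1)) p) = x.2).card := by
    unfold wt
    exact Fintype.prod_equiv (eqv χ) _ _ (fun K => card_eq χ K)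
  rw [h1, Fintype.prod_sigma]
  rfl

end pspX

open pspX in
theorem p_psp : S_psp := by
  intro r l _
  unfold psi
  rw [Finset.prod_univ_sum]
  refine Finset.sum_nbij' (fun χ => res χ) (fun g p => g p.1 ⟨0, p.2⟩) ?_ ?_ ?_ ?_ ?_
  · intro χ hχ
    rw [Finset.mem_filter] at hχ
    rw [Fintype.mem_piFinset]
    intro t
    rw [Finset.mem_filter]
    exact ⟨Finset.mem_univ _, fun h => hχ.2 ((mono_iff χ).2 ⟨t, h⟩)⟩
  · intro g hg
    rw [Fintype.mem_piFinset] at hg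
    rw [Finset.mem_filter]
    refine ⟨Finset.mem_univ _, fun h => ?_⟩
    obtain ⟨t, ht⟩ := (mono_iff _).1 h
    have := hg t
    rw [Finset.mem_filter] at this
    apply this.2
    convert ht using 1
    funext p
    obtain ⟨p1, p2⟩ := p
    obtain rfl : p1 = 0 := Subsingleton.elim _ _
    rfl
  · intro χ _
    rfl
  · intro g _
    funext t p
    obtain ⟨p1, p2⟩ := p
    obtain rfl : p1 = 0 := Subsingleton.elim _ _
    rfl
  · intro χ _
    rw [wt_eq, ch_eq, Finset.prod_mul_distrib, Finset.prod_pow_eq_pow_sum, Nat.cast_prod]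

end Pool.Agent.ALM
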