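import Pool.Agent.Lib.MP_fc2a59_co.ALM.C.Stm

set_option autoImplicit false

namespace Pool.Agent.ALM

open Finset Filter Topology
open scoped Classical

namespace qlX

/-- normalised descending factorial -/
noncomputable def D (n j : ℕ) : ℝ := (n.descFactorial j : ℝ) / (n : ℝ) ^ j

theorem D_tendsto (j : ℕ) : Tendsto (fun n : ℕ => D n j) atTop (𝓝 1) := by
  have h := isEquivalent_descFactorial j
  have hz : ∀ᶠ n : ℕ in atTop, ((n : ℝ) ^ j) ≠ 0 := by
    filter_upwards [eventually_ge_atTop 1] with n hn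
    have : (0 : ℝ) < n := by exact_mod_cast hn
    positivity
  exact (Asymptotics.isEquivalent_iff_tendsto_one hz).1 h

theorem card_sum {r : ℕ} {l : Fin r → ℕ} (χ : Ix l → Bool) :
    sm χ true + sm χ false + ch χ = ∑ t, l t := by
  have h1 : ∑ t, l t = Fintype.card (Ix l) := by
    rw [Fintype.card_sigma]
    simp
  have h2 : Fintype.card (Ix l) = ∑ _p : Ix l, 1 := by simp
  rw [h1, h2]
  unfold sm ch
  rw [Finset.card_filter, Finset.card_filter, Finset.card_filter, ← Finset.sum_add_distrib,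
    ← Finset.sum_add_distrib]
  refine Finset.sum_congr rfl fun p _ => ?_
  cases h : χ p <;> cases h' : χ (nxs p) <;> simp

theorem cc_le {r : ℕ} {l : Fin r → ℕ} (χ : Ix l → Bool) (c : Bool) :
    cc χ c ≤ ∑ t, l t := by
  have h1 : ∑ t, l t = Fintype.card (Ix l) := by
    rw [Fintype.card_sigma]
    simp
  rw [h1]
  exact Finset.card_le_univ _

/-- the binomial quotient -/
theorem choose_quot (m L c : ℕ) (hc : c ≤ L) (hm : L ≤ m) :
    ((2 * m - L).choose (m - c) : ℝ) * ((2 * m).descFactorial L : ℝ) =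
      ((2 * m).choose m : ℝ) * ((m.descFactorial c : ℝ) * (m.descFactorial (L - c) : ℝ)) := by
  have e1 : (2 * m - L).choose (m - c) * (m - c).factorial * (m - (L - c)).factorial =
      (2 * m - L).factorial := by
    have h := Nat.choose_mul_factorial_mul_factorial (n := 2 * m - L) (k := m - c) (by omega)
    have : 2 * m - L - (m - c) = m - (L - c) := by omega
    rwa [this] at h
  have e2 : (2 * m).choose m * m.factorial * m.factorial = (2 * m).factorial := by
    have h := Nat.choose_mul_factorial_mul_factorial (n := 2 * m) (k := m) (by omega)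
    have : 2 * m - m = m := by omega
    rwa [this] at h
  have e3 : (m - c).factorial * m.descFactorial c = m.factorial :=
    Nat.factorial_mul_descFactorial (by omega)
  have e4 : (m - (L - c)).factorial * m.descFactorial (L - c) = m.factorial :=
    Nat.factorial_mul_descFactorial (by omega)
  have e5 : (2 * m - L).factorial * (2 * m).descFactorial L = (2 * m).factorial :=
    Nat.factorial_mul_descFactorial (by omega)
  have key : (2 * m - L).choose (m - c) * (2 * m).descFactorial L =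
      (2 * m).choose m * (m.descFactorial c * m.descFactorial (L - c)) := by
    have hp : 0 < (m - c).factorial * (m - (L - c)).factorial :=
      Nat.mul_pos (Nat.factorial_pos _) (Nat.factorial_pos _)
    apply Nat.eq_of_mul_eq_mul_left hp
    calc (m - c).factorial * (m - (L - c)).factorial *
          ((2 * m - L).choose (m - c) * (2 * m).descFactorial L)
        = ((2 * m - L).choose (m - c) * (m - c).factorial * (m - (L - c)).factorial) *
            (2 * m).descFactorial L := by ring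
      _ = (2 * m).factorial := by rw [e1, e5]
      _ = (2 * m).choose m * ((m - c).factorial * m.descFactorial c) *
            ((m - (L - c)).factorial * m.descFactorial (L - c)) := by rw [e3, e4, e2]
      _ = _ := by ring
  exact_mod_cast key

/-- one term, exactly -/
theorem term_eq (m L c s1 s2 h : ℕ) (w : ℝ) (hc : c ≤ L) (hs : s1 + s2 + h = L) (hm : L ≤ m)
    (hm1 : 1 ≤ m) :
    (12 * (m : ℝ)) ^ L * ((((2 * m - L).choose (m - c) : ℝ) * 3 ^ (2 * m - L) * w *
      ((2 * m - s1 - h).factorial : ℝ) * ((2 * m - s2 - h).factorial : ℝ) /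
      ((m + 2 - h).factorial : ℝ)) / N1 m) =
    w * (1 / 2) ^ h * ((((m : ℝ) + 2) / m) ^ h *
      (D m c * D m (L - c) * D (m + 2) h /
        (D (2 * m) L * D (2 * m) (s1 + h) * D (2 * m) (s2 + h)))) := by
  have hm0 : (0 : ℝ) < m := by exact_mod_cast hm1
  have f1 : ((2 * m - s1 - h).factorial : ℝ) * ((2 * m).descFactorial (s1 + h) : ℝ) =
      ((2 * m).factorial : ℝ) := by
    have : 2 * m - s1 - h = 2 * m - (s1 + h) := by omega
    rw [this]
    exact_mod_cast Nat.factorial_mul_descFactorial (n := 2 * m) (k := s1 + h) (by omega)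
  have f2 : ((2 * m - s2 - h).factorial : ℝ) * ((2 * m).descFactorial (s2 + h) : ℝ) =
      ((2 * m).factorial : ℝ) := by
    have : 2 * m - s2 - h = 2 * m - (s2 + h) := by omega
    rw [this]
    exact_mod_cast Nat.factorial_mul_descFactorial (n := 2 * m) (k := s2 + h) (by omega)
  have f3 : ((m + 2 - h).factorial : ℝ) * ((m + 2).descFactorial h : ℝ) =
      ((m + 2).factorial : ℝ) := by
    exact_mod_cast Nat.factorial_mul_descFactorial (n := m + 2) (k := h) (by omega)
  have f4 := choose_quot m L c hc hm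
  have f5 : (3 : ℝ) ^ (2 * m - L) * 3 ^ L = 9 ^ m := by
    rw [← pow_add, show 2 * m - L + L = 2 * m by omega, pow_mul]
    norm_num
  have p1 : (0 : ℝ) < ((2 * m).descFactorial (s1 + h) : ℝ) := by
    exact_mod_cast Nat.descFactorial_pos.2 (by omega)
  have p2 : (0 : ℝ) < ((2 * m).descFactorial (s2 + h) : ℝ) := by
    exact_mod_cast Nat.descFactorial_pos.2 (by omega)
  have p3 : (0 : ℝ) < ((2 * m).descFactorial L : ℝ) := by
    exact_mod_cast Nat.descFactorial_pos.2 (by omega)
  have p4 : (0 : ℝ) < ((2 * m).choose m : ℝ) := by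
    exact_mod_cast Nat.choose_pos (by omega)
  have p5 : (0 : ℝ) < ((m + 2 - h).factorial : ℝ) := by exact_mod_cast Nat.factorial_pos _
  have p6 : (0 : ℝ) < ((m + 2).factorial : ℝ) := by exact_mod_cast Nat.factorial_pos _
  have p7 : (0 : ℝ) < ((2 * m).factorial : ℝ) := by exact_mod_cast Nat.factorial_pos _
  have p8 : (0 : ℝ) < ((m + 2).descFactorial h : ℝ) := by
    exact_mod_cast Nat.descFactorial_pos.2 (by omega)
  have g1 : ((2 * m - s1 - h).factorial : ℝ) =
      ((2 * m).factorial : ℝ) / ((2 * m).descFactorial (s1 + h) : ℝ) := by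
    rw [eq_div_iff p1.ne', f1]
  have g2 : ((2 * m - s2 - h).factorial : ℝ) =
      ((2 * m).factorial : ℝ) / ((2 * m).descFactorial (s2 + h) : ℝ) := by
    rw [eq_div_iff p2.ne', f2]
  have g3 : ((m + 2 - h).factorial : ℝ) =
      ((m + 2).factorial : ℝ) / ((m + 2).descFactorial h : ℝ) := by
    rw [eq_div_iff p8.ne', f3]
  have g4 : ((2 * m - L).choose (m - c) : ℝ) =
      ((2 * m).choose m : ℝ) * ((m.descFactorial c : ℝ) * (m.descFactorial (L - c) : ℝ)) /
        ((2 * m).descFactorial L : ℝ) := by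
    rw [eq_div_iff p3.ne', f4]
  have g5 : (3 : ℝ) ^ (2 * m - L) = 9 ^ m / 3 ^ L := by
    rw [eq_div_iff (by positivity), f5]
  unfold N1 D
  rw [g1, g2, g3, g4, g5]
  push_cast
  have hL : (m : ℝ) ^ c * (m : ℝ) ^ (L - c) = (m : ℝ) ^ L := by
    rw [← pow_add, Nat.add_sub_cancel' hc]
  have hp2 : (2 * (m : ℝ)) ^ (s1 + h) * (2 * (m : ℝ)) ^ (s2 + h) =
      (2 * (m : ℝ)) ^ L * (2 * (m : ℝ)) ^ h := by
    rw [← pow_add, ← pow_add]
    congr 1
    omega
  have h12 : (12 * (m : ℝ)) ^ L = 3 ^ L * (2 * m) ^ L * 2 ^ L := by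
    rw [← mul_pow, ← mul_pow]
    congr 1
    ring
  -- everything to products
  have e1 : ((m : ℝ) + 2) / m = ((m : ℝ) + 2) * (m : ℝ)⁻¹ := div_eq_mul_inv _ _
  have lhs : (12 * (m : ℝ)) ^ L * ((((2 * m).choose m : ℝ) *
      ((m.descFactorial c : ℝ) * (m.descFactorial (L - c) : ℝ)) /
        ((2 * m).descFactorial L : ℝ) * (9 ^ m / 3 ^ L) * w *
      (((2 * m).factorial : ℝ) / ((2 * m).descFactorial (s1 + h) : ℝ)) *
      (((2 * m).factorial : ℝ) / ((2 * m).descFactorial (s2 + h) : ℝ)) /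
      (((m + 2).factorial : ℝ) / ((m + 2).descFactorial h : ℝ))) /
      (((2 * m).choose m : ℝ) * 9 ^ m * ((2 * m).factorial : ℝ) ^ 2 / ((m + 2).factorial : ℝ))) =
      w * ((2 * m) ^ L * 2 ^ L) * (m.descFactorial c : ℝ) * (m.descFactorial (L - c) : ℝ) *
        ((m + 2).descFactorial h : ℝ) /
        (((2 * m).descFactorial L : ℝ) * ((2 * m).descFactorial (s1 + h) : ℝ) *
          ((2 * m).descFactorial (s2 + h) : ℝ)) := by
    rw [h12]
    field_simp
  rw [lhs]
  have rhs : w * (1 / 2) ^ h * ((((m : ℝ) + 2) / m) ^ h *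
      ((m.descFactorial c : ℝ) / (m : ℝ) ^ c * ((m.descFactorial (L - c) : ℝ) / (m : ℝ) ^ (L - c)) *
        (((m + 2).descFactorial h : ℝ) / ((m : ℝ) + 2) ^ h) /
        (((2 * m).descFactorial L : ℝ) / (2 * (m : ℝ)) ^ L *
          (((2 * m).descFactorial (s1 + h) : ℝ) / (2 * (m : ℝ)) ^ (s1 + h)) *
          (((2 * m).descFactorial (s2 + h) : ℝ) / (2 * (m : ℝ)) ^ (s2 + h))))) =
      w * (m.descFactorial c : ℝ) * (m.descFactorial (L - c) : ℝ) *
        ((m + 2).descFactorial h : ℝ) /
        (((2 * m).descFactorial L : ℝ) * ((2 * m).descFactorial (s1 + h) : ℝ) *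
          ((2 * m).descFactorial (s2 + h) : ℝ)) *
      ((1 / 2) ^ h * ((((m : ℝ) + 2) / m) ^ h / ((m : ℝ) + 2) ^ h) *
        ((2 * (m : ℝ)) ^ L * ((2 * (m : ℝ)) ^ (s1 + h) * (2 * (m : ℝ)) ^ (s2 + h))) /
          ((m : ℝ) ^ c * (m : ℝ) ^ (L - c))) := by
    field_simp
  rw [rhs, hp2, hL]
  have last : (1 / 2 : ℝ) ^ h * ((((m : ℝ) + 2) / m) ^ h / ((m : ℝ) + 2) ^ h) *
        ((2 * (m : ℝ)) ^ L * ((2 * (m : ℝ)) ^ L * (2 * (m : ℝ)) ^ h)) / (m : ℝ) ^ L =
      (2 * m) ^ L * 2 ^ L := by
    rw [div_pow ((m : ℝ) + 2), mul_pow 2 (m : ℝ) h, mul_pow 2 (m : ℝ) L, one_div, inv_pow]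
    have q1 : ((m : ℝ) + 2) ^ h ≠ 0 := by positivity
    field_simp
  rw [last]
  ring

end qlX

open qlX in
theorem p_ql : S_ql := by
  intro r l _
  set L := ∑ t, l t with hL
  have key : ∀ χ : Ix l → Bool, Tendsto (fun m : ℕ =>
      (wt χ : ℝ) * (1 / 2) ^ ch χ * ((((m : ℝ) + 2) / m) ^ ch χ *
      (D m (cc χ true) * D m (L - cc χ true) * D (m + 2) (ch χ) /
        (D (2 * m) L * D (2 * m) (sm χ true + ch χ) * D (2 * m) (sm χ false + ch χ))))) atTop
      (𝓝 ((wt χ : ℝ) * (1 / 2) ^ ch χ)) := by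
    intro χ
    have h2 : Tendsto (fun m : ℕ => 2 * m) atTop atTop :=
      tendsto_atTop_mono (fun m => by simp only [id]; omega) tendsto_id
    have h3 : Tendsto (fun m : ℕ => m + 2) atTop atTop := tendsto_add_atTop_nat 2
    have hq : Tendsto (fun m : ℕ => (((m : ℝ) + 2) / m)) atTop (𝓝 1) := by
      have := (tendsto_const_div_atTop_nhds_zero_nat (2 : ℝ)).const_add 1
      rw [add_zero] at this
      refine this.congr' ?_
      filter_upwards [eventually_ge_atTop 1] with m hm
      have : (m : ℝ) ≠ 0 := by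
        have : (0 : ℝ) < m := by exact_mod_cast hm
        exact this.ne'
      field_simp
    have hd := ((((D_tendsto (cc χ true)).mul (D_tendsto (L - cc χ true))).mul
      ((D_tendsto (ch χ)).comp h3)).div
      ((((D_tendsto L).comp h2).mul ((D_tendsto (sm χ true + ch χ)).comp h2)).mul
        ((D_tendsto (sm χ false + ch χ)).comp h2)) (by norm_num))
    have hall := ((hq.pow (ch χ)).mul hd).const_mul ((wt χ : ℝ) * (1 / 2) ^ ch χ)
    simpa [Function.comp_def] using hall
  have hsum := tendsto_finsetSum (univ.filter (fun χ : Ix l → Bool => ¬ mono χ))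
    (fun χ _ => key χ)
  refine hsum.congr' ?_
  filter_upwards [eventually_ge_atTop (L + 1)] with m hm
  unfold qp
  rw [Finset.sum_div, Finset.mul_sum]
  refine Finset.sum_congr rfl fun χ _ => ?_
  exact (term_eq m L (cc χ true) (sm χ true) (sm χ false) (ch χ) (wt χ : ℝ)
    (cc_le χ true) (card_sum χ) (by omega) (by omega)).symm

end Pool.Agent.ALM
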