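import Pool.Agent.Lib.MP_fc2a59_co.ALM.C.Stm

set_option autoImplicit false

namespace Pool.Agent.ALM

open Finset
open scoped Classical

namespace undX

variable {V : Type} [Fintype V] {r : ℕ} {F : Fin r → Pt V → Pt V}

/-- a moved point has its vertex in the touched set -/
theorem mem_tch {G : Pt V → Pt V} {x : Pt V} (h : G x ≠ x) : x.1 ∈ tch G := by
  rw [tch, mem_filter]
  exact ⟨mem_univ _, x.2, h⟩

theorem uniq (hd : ∀ s t, s ≠ t → Disjoint (tch (F s)) (tch (F t))) {s t : Fin r} {x : Pt V}
    (hs : F s x ≠ x) (ht : F t x ≠ x) : s = t := by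
  by_contra h
  exact (Finset.disjoint_left.1 (hd s t h)) (mem_tch hs) (mem_tch ht)

theorem un_eq (hd : ∀ s t, s ≠ t → Disjoint (tch (F s)) (tch (F t))) {t : Fin r} {x : Pt V}
    (ht : F t x ≠ x) : un F x = F t x := by
  have h : ∃ t, F t x ≠ x := ⟨t, ht⟩
  rw [un, dif_pos h, uniq hd h.choose_spec ht]

omit [Fintype V] in
theorem un_fix {x : Pt V} (h : ∀ t, F t x = x) : un F x = x := by
  rw [un, dif_neg]
  rintro ⟨t, ht⟩
  exact ht (h t)

end undX

open undX in
theorem p_und (h1 : S_cyb) : S_und := by
  intro V _ r l F hl hF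
  rw [dtu, mem_filter] at hF
  obtain ⟨-, hc, hd⟩ := hF
  have hinv : ∀ t, Inv (F t) := fun t => (h1 V (l t) (F t) (hl t) (hc t)).1
  have hmv : ∀ t, mv (F t) = 2 * l t := fun t => (h1 V (l t) (F t) (hl t) (hc t)).2.1
  have hA : ∀ t x, F t x ≠ x → un F x = F t x := fun t x h => un_eq hd h
  have hB : ∀ x, (∀ t, F t x = x) → un F x = x := fun x h => un_fix h
  refine ⟨?_, ?_, hA, hB, ?_⟩
  · intro x
    by_cases h : ∃ t, F t x ≠ x
    · obtain ⟨t, ht⟩ := h
      rw [hA t x ht]
      have h2 : F t (F t x) ≠ F t x := by
        rw [hinv t x]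
        exact fun h => ht h.symm
      rw [hA t _ h2, hinv t x]
    · push Not at h
      rw [hB x h, hB x h]
  · have h2 : mv (un F) = (univ.biUnion fun t => univ.filter fun x => F t x ≠ x).card := by
      unfold mv
      refine congrArg Finset.card (Finset.ext fun x => ?_)
      simp only [mem_filter, mem_biUnion, mem_univ, true_and]
      constructor
      · intro h
        by_contra h3
        push Not at h3
        exact h (hB x h3)
      · rintro ⟨t, h⟩
        rw [hA t x h]
        exact h
    have h3 : ∀ t, (univ.filter fun x => F t x ≠ x).card = 2 * l t := by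
      intro t
      rw [← hmv t]
      unfold mv
      refine congrArg Finset.card (Finset.ext fun x => ?_)
      simp only [mem_filter, mem_univ, true_and]
    rw [h2, card_biUnion, mul_sum]
    · exact sum_congr rfl fun t _ => h3 t
    · intro s _ t _ hst
      change Disjoint _ _
      rw [Finset.disjoint_left]
      intro x hx hx'
      rw [mem_filter] at hx hx'
      exact hst (uniq hd hx.2 hx'.2)
  · intro σ
    constructor
    · intro h t x ht
      rw [← hA t x ht]
      exact h x (by rw [hA t x ht]; exact ht)
    · intro h x hx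
      by_cases h3 : ∃ t, F t x ≠ x
      · obtain ⟨t, ht⟩ := h3
        rw [hA t x ht]
        exact h t x ht
      · push Not at h3
        exact absurd (hB x h3) hx

end Pool.Agent.ALM
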